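import Pool.Agent.Lib.MP_b3f6df_an.Tconv

/-!
# The Volterra algebra `L¹[0,1]`
-/

namespace Pool.Agent.MPb3f6df

open MeasureTheory Set Filter

/-- The Volterra algebra: the Banach space `L¹[0,1]` of (classes of) integrable complex functions
on `[0,1]`, to be equipped with the truncated convolution. -/
def Volterra : Type := Lp ℂ 1 muI

namespace Volterra

noncomputable instance : NormedAddCommGroup Volterra := Lp.instNormedAddCommGroup

noncomputable instance : NormedSpace ℂ Volterra := Lp.instNormedSpace

instance : CompleteSpace Volterra := Lp.instCompleteSpace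

/-- A representing function of an element of `L¹[0,1]`. -/
noncomputable def fn (f : Volterra) : ℝ → ℂ := ((show Lp ℂ 1 muI from f) : ℝ → ℂ)

theorem integrable_fn (f : Volterra) : Integrable f.fn muI :=
  L1.integrable_coeFn (show Lp ℂ 1 muI from f)

/-- The class of an integrable function in `L¹[0,1]`. -/
noncomputable def mk (f : ℝ → ℂ) (hf : Integrable f muI) : Volterra := hf.toL1 f

theorem fn_mk (f : ℝ → ℂ) (hf : Integrable f muI) : (mk f hf).fn =ᵐ[muI] f := hf.coeFn_toL1

theorem ext_fn {f g : Volterra} (h : f.fn =ᵐ[muI] g.fn) : f = g :=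
  Lp.ext (f := (show Lp ℂ 1 muI from f)) (g := (show Lp ℂ 1 muI from g)) h

theorem norm_eq (f : Volterra) : ‖f‖ = ∫ t, ‖f.fn t‖ ∂muI :=
  L1.norm_eq_integral_norm (show Lp ℂ 1 muI from f)

theorem fn_add (f g : Volterra) : (f + g).fn =ᵐ[muI] f.fn + g.fn :=
  Lp.coeFn_add (show Lp ℂ 1 muI from f) (show Lp ℂ 1 muI from g)

theorem fn_sub (f g : Volterra) : (f - g).fn =ᵐ[muI] f.fn - g.fn :=
  Lp.coeFn_sub (show Lp ℂ 1 muI from f) (show Lp ℂ 1 muI from g)

theorem fn_smul (c : ℂ) (f : Volterra) : (c • f).fn =ᵐ[muI] c • f.fn :=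
  Lp.coeFn_smul c (show Lp ℂ 1 muI from f)

theorem fn_zero : (0 : Volterra).fn =ᵐ[muI] 0 := Lp.coeFn_zero ℂ 1 muI

/-- Multiplication in the Volterra algebra is the truncated convolution. -/
noncomputable instance : Mul Volterra :=
  ⟨fun f g => mk (tconv f.fn g.fn) (tconv_integrable f.integrable_fn g.integrable_fn)⟩

theorem fn_mul (f g : Volterra) : (f * g).fn =ᵐ[muI] tconv f.fn g.fn := fn_mk _ _

theorem mul_add' (f g h : Volterra) : f * (g + h) = f * g + f * h := by
  apply ext_fn
  refine (fn_mul _ _).trans ?_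
  refine (tconv_congr (EventuallyEq.refl _ _) (fn_add g h)).trans ?_
  refine (tconv_add f.integrable_fn g.integrable_fn h.integrable_fn).trans ?_
  exact ((fn_add _ _).trans ((fn_mul f g).add (fn_mul f h))).symm

theorem add_mul' (f g h : Volterra) : (f + g) * h = f * h + g * h := by
  apply ext_fn
  refine (fn_mul _ _).trans ?_
  refine (tconv_congr (fn_add f g) (EventuallyEq.refl _ _)).trans ?_
  refine (add_tconv f.integrable_fn g.integrable_fn h.integrable_fn).trans ?_
  exact ((fn_add _ _).trans ((fn_mul f h).add (fn_mul g h))).symm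

theorem zero_mul' (f : Volterra) : 0 * f = 0 := by
  apply ext_fn
  refine (fn_mul _ _).trans ?_
  refine (tconv_congr fn_zero (EventuallyEq.refl _ _)).trans ?_
  refine EventuallyEq.trans ?_ fn_zero.symm
  refine Eventually.of_forall fun t => ?_
  simp [tconv]

theorem mul_zero' (f : Volterra) : f * 0 = 0 := by
  apply ext_fn
  refine (fn_mul _ _).trans ?_
  refine (tconv_congr (EventuallyEq.refl _ _) fn_zero).trans ?_
  refine EventuallyEq.trans ?_ fn_zero.symm
  refine Eventually.of_forall fun t => ?_
  simp [tconv]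

theorem mul_assoc' (f g h : Volterra) : f * g * h = f * (g * h) := by
  apply ext_fn
  refine (fn_mul _ _).trans ?_
  refine (tconv_congr (fn_mul f g) (EventuallyEq.refl _ _)).trans ?_
  refine (tconv_assoc f.integrable_fn g.integrable_fn h.integrable_fn).trans ?_
  exact ((fn_mul _ _).trans (tconv_congr (EventuallyEq.refl _ _) (fn_mul g h))).symm

theorem norm_mul_le' (f g : Volterra) : ‖f * g‖ ≤ ‖f‖ * ‖g‖ := by
  rw [norm_eq, norm_eq f, norm_eq g]
  refine le_trans (le_of_eq ?_) (tconv_norm_le f.integrable_fn g.integrable_fn)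
  exact integral_congr_ae ((fn_mul f g).fun_comp norm)

noncomputable instance : NonUnitalNormedRing Volterra :=
  { (inferInstance : NormedAddCommGroup Volterra), (inferInstance : Mul Volterra) with
    left_distrib := mul_add'
    right_distrib := add_mul'
    zero_mul := zero_mul'
    mul_zero := mul_zero'
    mul_assoc := mul_assoc'
    norm_mul_le := norm_mul_le' }

instance : IsScalarTower ℂ Volterra Volterra :=
  ⟨fun c f g => by
    apply ext_fn
    refine (fn_mul _ _).trans ?_
    refine (tconv_congr (fn_smul c f) (EventuallyEq.refl _ _)).trans ?_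
    refine EventuallyEq.trans ?_ (fn_smul c (f * g)).symm
    filter_upwards [fn_mul f g] with t ht
    rw [tconv_smul_left, Pi.smul_apply, ht, smul_eq_mul]⟩

instance : SMulCommClass ℂ Volterra Volterra :=
  ⟨fun c f g => by
    apply ext_fn
    refine (fn_smul c (f * g)).trans ?_
    refine EventuallyEq.trans ?_ (fn_mul _ _).symm
    refine EventuallyEq.trans ?_ (tconv_congr (EventuallyEq.refl _ _) (fn_smul c g)).symm
    filter_upwards [fn_mul f g] with t ht
    rw [tconv_smul_right, Pi.smul_apply, ht, smul_eq_mul]⟩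

end Volterra

end Pool.Agent.MPb3f6df
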