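import Pool.Agent.Lib.MP_b3f6df_an.Step

/-!
# The initial filtered module, inside the bidual of the algebra
-/

set_option maxSynthPendingDepth 3

namespace Pool.Agent.MPb3f6df

open LeftMod Filter Topology

variable {A : Type} [NonUnitalNormedRing A] [NormedSpace ℂ A]

/-- the bidual of `A` -/
abbrev BD (A : Type) [NonUnitalNormedRing A] [NormedSpace ℂ A] : Type := (A →L[ℂ] ℂ) →L[ℂ] ℂ

/-- transpose of an operator -/
noncomputable def dm (T : A →L[ℂ] A) : (A →L[ℂ] ℂ) →L[ℂ] (A →L[ℂ] ℂ) :=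
  (ContinuousLinearMap.compL ℂ A A ℂ).flip T

theorem dm_apply (T : A →L[ℂ] A) (φ : A →L[ℂ] ℂ) (b : A) : dm T φ b = φ (T b) := rfl

theorem dm_norm (T : A →L[ℂ] A) : ‖dm T‖ ≤ ‖T‖ := by
  refine ContinuousLinearMap.opNorm_le_bound _ (norm_nonneg _) (fun φ => ?_)
  refine ContinuousLinearMap.opNorm_le_bound _ (by positivity) (fun b => ?_)
  rw [dm_apply]
  calc ‖φ (T b)‖ ≤ ‖φ‖ * ‖T b‖ := φ.le_opNorm _
    _ ≤ ‖φ‖ * (‖T‖ * ‖b‖) := by gcongr; exact T.le_opNorm _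
    _ = ‖T‖ * ‖φ‖ * ‖b‖ := by ring

/-- double transpose of an operator -/
noncomputable def bd (T : A →L[ℂ] A) : BD A →L[ℂ] BD A :=
  (ContinuousLinearMap.compL ℂ (A →L[ℂ] ℂ) (A →L[ℂ] ℂ) ℂ).flip (dm T)

theorem bd_apply (T : A →L[ℂ] A) (F : BD A) (φ : A →L[ℂ] ℂ) : bd T F φ = F (dm T φ) := rfl

theorem bd_norm (T : A →L[ℂ] A) : ‖bd T‖ ≤ ‖T‖ := by
  refine ContinuousLinearMap.opNorm_le_bound _ (norm_nonneg _) (fun F => ?_)
  refine ContinuousLinearMap.opNorm_le_bound _ (by positivity) (fun φ => ?_)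
  rw [bd_apply]
  calc ‖F (dm T φ)‖ ≤ ‖F‖ * ‖dm T φ‖ := F.le_opNorm _
    _ ≤ ‖F‖ * (‖T‖ * ‖φ‖) := by
      gcongr
      exact (dm T).le_of_opNorm_le (dm_norm T) _
    _ = ‖T‖ * ‖F‖ * ‖φ‖ := by ring

/-- the canonical embedding in the bidual -/
noncomputable def JJ (A : Type) [NonUnitalNormedRing A] [NormedSpace ℂ A] : A →L[ℂ] BD A :=
  NormedSpace.inclusionInDoubleDual ℂ A

theorem JJ_apply (a : A) (φ : A →L[ℂ] ℂ) : JJ A a φ = φ a := rfl

theorem JJ_norm (a : A) : ‖JJ A a‖ = ‖a‖ := (NormedSpace.inclusionInDoubleDualLi ℂ (E := A)).norm_map a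

theorem bd_JJ (T : A →L[ℂ] A) (a : A) : bd T (JJ A a) = JJ A (T a) := rfl

/-- norming functionals in a dual space -/
theorem exists_norming {E : Type} [NormedAddCommGroup E] [NormedSpace ℂ E] (G : E →L[ℂ] ℂ)
    {ε : ℝ} (hε : 0 < ε) : ∃ φ : E, ‖φ‖ ≤ 1 ∧ ‖G‖ - ε ≤ (G φ).re := by
  by_cases hG : ‖G‖ - ε < 0
  · exact ⟨0, by simp, by simpa using hG.le⟩
  · obtain ⟨x, hx1, hx2⟩ := G.exists_lt_apply_of_lt_opNorm (show ‖G‖ - ε < ‖G‖ by linarith)
    have h0 : G x ≠ 0 := by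
      intro h
      rw [h, norm_zero] at hx2
      exact hG hx2
    have hn : ‖G x‖ ≠ 0 := norm_ne_zero_iff.2 h0
    refine ⟨((starRingEnd ℂ (G x)) / (‖G x‖ : ℂ)) • x, ?_, ?_⟩
    · rw [norm_smul, norm_div, RCLike.norm_conj, Complex.norm_real, norm_norm, div_self hn, one_mul]
      exact hx1.le
    · rw [map_smul, smul_eq_mul, div_mul_eq_mul_div, mul_comm, Complex.mul_conj,
        Complex.normSq_eq_norm_sq]
      have : (((‖G x‖ ^ 2 : ℝ) : ℂ) / (‖G x‖ : ℂ)) = ((‖G x‖ : ℝ) : ℂ) := by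
        push_cast
        field_simp
      rw [this, Complex.ofReal_re]
      exact hx2.le

/-- bounded variation passes to the bidual -/
theorem bd_var (T : ℕ → A →L[ℂ] A) (N : ℕ)
    (hT : ∀ a, ∑ n ∈ Finset.range N, ‖T n a‖ ≤ ‖a‖) (F : BD A) :
    ∑ n ∈ Finset.range N, ‖bd (T n) F‖ ≤ ‖F‖ := by
  refine le_of_forall_pos_le_add (fun ε hε => ?_)
  set δ : ℝ := ε / (N + 1) with hδ
  have hδ0 : 0 < δ := by positivity
  choose φ hφ1 hφ2 using fun n => exists_norming (bd (T n) F) hδ0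
  have h1 : ∑ n ∈ Finset.range N, (‖bd (T n) F‖ - δ) ≤ ‖F‖ := by
    calc ∑ n ∈ Finset.range N, (‖bd (T n) F‖ - δ)
        ≤ ∑ n ∈ Finset.range N, (bd (T n) F (φ n)).re := Finset.sum_le_sum fun n _ => hφ2 n
      _ = (F (∑ n ∈ Finset.range N, dm (T n) (φ n))).re := by
          rw [map_sum, Complex.re_sum]
          rfl
      _ ≤ ‖F (∑ n ∈ Finset.range N, dm (T n) (φ n))‖ := Complex.re_le_norm _
      _ ≤ ‖F‖ * ‖∑ n ∈ Finset.range N, dm (T n) (φ n)‖ := F.le_opNorm _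
      _ ≤ ‖F‖ * 1 := by
          gcongr
          refine ContinuousLinearMap.opNorm_le_bound _ zero_le_one (fun a => ?_)
          rw [sum_apply, one_mul]
          refine (norm_sum_le _ _).trans (le_trans (Finset.sum_le_sum fun n _ => ?_) (hT a))
          rw [dm_apply]
          calc ‖φ n (T n a)‖ ≤ ‖φ n‖ * ‖T n a‖ := (φ n).le_opNorm _
            _ ≤ 1 * ‖T n a‖ := by gcongr; exact hφ1 n
            _ = ‖T n a‖ := one_mul _
      _ = ‖F‖ := mul_one _
  rw [Finset.sum_sub_distrib, Finset.sum_const, Finset.card_range, nsmul_eq_mul] at h1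
  have h2 : (N : ℝ) * δ ≤ ε := by
    rw [hδ, mul_div_assoc', div_le_iff₀ (by positivity)]
    nlinarith
  linarith

/-- Weak-star limits along the ultrafilter. -/
theorem exists_wlim {E : Type} [NormedAddCommGroup E] [NormedSpace ℂ E] :
    ∃ L : (ℕ → (E →L[ℂ] ℂ)) → (E →L[ℂ] ℂ),
      (∀ u : ℕ → (E →L[ℂ] ℂ), ¬ BddSeq u → L u = 0) ∧
      (∀ u : ℕ → (E →L[ℂ] ℂ), BddSeq u → ∀ φ : E,
        Tendsto (fun m => u m φ) UU (𝓝 (L u φ))) := by
  classical
  have hb : ∀ (u : ℕ → (E →L[ℂ] ℂ)) (φ : E), BddSeq u → BddSeq (fun m => u m φ) := by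
    intro u φ hu
    obtain ⟨r, hr⟩ := hu
    exact ⟨r * ‖φ‖, fun m => (u m).le_of_opNorm_le (hr m) φ⟩
  let l : (u : ℕ → (E →L[ℂ] ℂ)) → BddSeq u → E → ℂ := fun u hu φ =>
    (exists_ulim (fun m => u m φ) (hb u φ hu)).choose
  have hl : ∀ u hu φ, Tendsto (fun m => u m φ) UU (𝓝 (l u hu φ)) := fun u hu φ =>
    (exists_ulim (fun m => u m φ) (hb u φ hu)).choose_spec
  refine ⟨fun u => if hu : BddSeq u then
    LinearMap.mkContinuous
      { toFun := l u hu
        map_add' := fun φ ψ => by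
          refine tendsto_nhds_unique (hl u hu (φ + ψ)) ?_
          simpa using (hl u hu φ).add (hl u hu ψ)
        map_smul' := fun c φ => by
          refine tendsto_nhds_unique (hl u hu (c • φ)) ?_
          simpa using (hl u hu φ).const_mul c } hu.choose
      (fun φ => by
        refine le_of_tendsto (hl u hu φ).norm (Eventually.of_forall fun m => ?_)
        exact (u m).le_of_opNorm_le (hu.choose_spec m) φ) else 0, ?_, ?_⟩
  · intro u hu
    simp only [dif_neg hu]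
  · intro u hu φ
    simp only [dif_pos hu]
    exact hl u hu φ

variable [IsScalarTower ℂ A A] [SMulCommClass ℂ A A]

/-- left multiplication -/
noncomputable def Lm (a : A) : A →L[ℂ] A := ContinuousLinearMap.mul ℂ A a

omit [IsScalarTower ℂ A A] [SMulCommClass ℂ A A] in
theorem Lm_apply [IsScalarTower ℂ A A] [SMulCommClass ℂ A A] (a b : A) : Lm a b = a * b := rfl

theorem Lm_norm (a : A) : ‖Lm a‖ ≤ ‖a‖ :=
  ContinuousLinearMap.opNorm_le_bound _ (norm_nonneg _) (fun b => norm_mul_le a b)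

/-- The bidual as a left module. -/
noncomputable abbrev BDmod (A : Type) [NonUnitalNormedRing A] [NormedSpace ℂ A]
    [IsScalarTower ℂ A A] [SMulCommClass ℂ A A] : LeftMod A :=
  ofBil (BD A) (fun a F => bd (Lm a) F)
    (fun a b F => by
      ext φ
      rw [add_apply, bd_apply, bd_apply, bd_apply, ← map_add]
      congr 1
      ext c
      simp [dm_apply, Lm_apply, add_mul])
    (fun c a F => by
      ext φ
      rw [smul_apply, bd_apply, bd_apply, ← map_smul]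
      congr 1
      ext d
      simp [dm_apply, Lm_apply, smul_mul_assoc])
    (fun a F G => map_add _ _ _) (fun c a F => map_smul _ _ _)
    1 (fun a F => by
      rw [one_mul]
      exact (bd (Lm a)).le_of_opNorm_le ((bd_norm _).trans (Lm_norm a)) F)
    (fun a b F => by
      ext φ
      rw [bd_apply, bd_apply, bd_apply]
      congr 1
      ext c
      simp [dm_apply, Lm_apply, mul_assoc])

theorem BDmod_act (a : A) (F : BDmod A) : (BDmod A).act a F = bd (Lm a) F := rfl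

/-- The data on a Banach algebra from which infinite homological dimension is deduced. -/
structure AlgData (A : Type) [NonUnitalNormedRing A] [NormedSpace ℂ A] where
  e : ℕ → A
  e_bdd : BddSeq e
  e_unit : ∀ a, Tendsto (fun m => a * e m) atTop (𝓝 a)
  q : ℕ → A →L[ℂ] A
  q_comp : ∀ m n a, q m (q n a) = q (min m n) a
  q_ideal : ∀ n a b, q n (a * q n b) = a * q n b
  q_norm : ∀ n, ‖q n‖ ≤ 1
  q_var : ∀ a N, ∑ n ∈ Finset.range N, ‖q (n + 1) a - q n a‖ ≤ ‖a‖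
  q_tends : ∀ a, Tendsto (fun n => q n a) atTop (𝓝 a)
  c : ℝ
  c_pos : 0 < c
  e_away : ∀ n, ∃ m, c ≤ ‖e m - q n (e m)‖

namespace AlgData

variable (D : AlgData A)

/-- the operators on the bidual -/
noncomputable def Q (n : ℕ) : BD A →L[ℂ] BD A := bd (D.q n)

omit [IsScalarTower ℂ A A] [SMulCommClass ℂ A A] in
theorem Q_comp (m n : ℕ) (F : BD A) : D.Q m (D.Q n F) = D.Q (min m n) F := by
  ext φ
  show F (dm (D.q n) (dm (D.q m) φ)) = F (dm (D.q (min m n)) φ)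
  congr 1
  ext a
  simp only [dm_apply]
  rw [D.q_comp]

omit [IsScalarTower ℂ A A] [SMulCommClass ℂ A A] in
theorem Q_norm (n : ℕ) : ‖D.Q n‖ ≤ 1 := (bd_norm _).trans (D.q_norm n)

theorem Q_act (n : ℕ) (a : A) (F : BD A) (hF : D.Q n F = F) :
    D.Q n (bd (Lm a) F) = bd (Lm a) F := by
  conv_rhs => rw [← hF]
  conv_lhs => rw [← hF]
  ext φ
  show F (dm (D.q n) (dm (Lm a) (dm (D.q n) φ))) = F (dm (D.q n) (dm (Lm a) φ))
  congr 1
  ext b
  simp only [dm_apply, Lm_apply]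
  rw [D.q_ideal]

omit [IsScalarTower ℂ A A] [SMulCommClass ℂ A A] in
theorem Q_var (F : BD A) (N : ℕ) :
    ∑ n ∈ Finset.range N, ‖D.Q (n + 1) F - D.Q n F‖ ≤ ‖F‖ := by
  have h := bd_var (fun n => D.q (n + 1) - D.q n) N (fun a => by
    simpa using D.q_var a N) F
  have h2 : ∀ n, bd (D.q (n + 1) - D.q n) F = D.Q (n + 1) F - D.Q n F := by
    intro n
    ext φ
    show F (dm (D.q (n + 1) - D.q n) φ) = F (dm (D.q (n + 1)) φ) - F (dm (D.q n) φ)
    rw [← map_sub]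
    congr 1
    ext a
    simp [dm_apply]
  simpa only [h2] using h

/-- the closure of the union of the ranges of the `Q n` -/
def W0 : Submodule ℂ (BD A) where
  carrier := {F | Tendsto (fun n => D.Q n F) atTop (𝓝 F)}
  add_mem' := fun {F G} hF hG => by
    show Tendsto (fun n => D.Q n (F + G)) atTop (𝓝 (F + G))
    simp only [map_add]
    exact Tendsto.add hF hG
  zero_mem' := by
    show Tendsto (fun n => D.Q n 0) atTop (𝓝 0)
    simp
  smul_mem' := fun c F hF => by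
    show Tendsto (fun n => D.Q n (c • F)) atTop (𝓝 (c • F))
    simp only [map_smul]
    exact Tendsto.const_smul hF c

omit [IsScalarTower ℂ A A] [SMulCommClass ℂ A A] in
theorem mem_W0 (F : BD A) : F ∈ D.W0 ↔ Tendsto (fun n => D.Q n F) atTop (𝓝 F) := Iff.rfl

omit [IsScalarTower ℂ A A] [SMulCommClass ℂ A A] in
theorem mem_W0_iff (F : BD A) : F ∈ D.W0 ↔ ∀ ε > 0, ∃ n, ‖D.Q n F - F‖ < ε := by
  rw [mem_W0, Metric.tendsto_atTop]
  constructor
  · intro h ε hε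
    obtain ⟨N, hN⟩ := h ε hε
    refine ⟨N, ?_⟩
    rw [← dist_eq_norm]
    exact hN N le_rfl
  · intro h ε hε
    obtain ⟨N, hN⟩ := h (ε / 2) (by positivity)
    refine ⟨N, fun n hn => ?_⟩
    rw [dist_eq_norm]
    have h1 : D.Q n F - F = D.Q n (F - D.Q N F) + (D.Q N F - F) := by
      rw [map_sub, D.Q_comp, min_eq_right hn]
      abel
    rw [h1]
    calc ‖D.Q n (F - D.Q N F) + (D.Q N F - F)‖ ≤ ‖D.Q n (F - D.Q N F)‖ + ‖D.Q N F - F‖ :=
          norm_add_le _ _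
      _ ≤ 1 * ‖F - D.Q N F‖ + ‖D.Q N F - F‖ := by
          gcongr
          exact (D.Q n).le_of_opNorm_le (D.Q_norm n) _
      _ < ε := by
          rw [norm_sub_rev F]
          linarith

omit [IsScalarTower ℂ A A] [SMulCommClass ℂ A A] in
theorem W0_closed : IsClosed (D.W0 : Set (BD A)) := by
  rw [← isSeqClosed_iff_isClosed]
  intro u F hu hF
  show F ∈ D.W0
  rw [mem_W0_iff]
  intro ε hε
  rw [Metric.tendsto_atTop] at hF
  obtain ⟨k, hk⟩ := hF (ε / 4) (by positivity)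
  have hk' := hk k le_rfl
  rw [dist_eq_norm] at hk'
  obtain ⟨n, hn⟩ := (D.mem_W0_iff (u k)).1 (hu k) (ε / 4) (by positivity)
  refine ⟨n, ?_⟩
  have h1 : D.Q n F - F = D.Q n (F - u k) + (D.Q n (u k) - u k) + (u k - F) := by
    rw [map_sub]
    abel
  rw [h1]
  calc ‖D.Q n (F - u k) + (D.Q n (u k) - u k) + (u k - F)‖
      ≤ ‖D.Q n (F - u k)‖ + ‖D.Q n (u k) - u k‖ + ‖u k - F‖ := norm_add₃_le
    _ ≤ 1 * ‖F - u k‖ + ‖D.Q n (u k) - u k‖ + ‖u k - F‖ := by
        gcongr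
        exact (D.Q n).le_of_opNorm_le (D.Q_norm n) _
    _ < ε := by
        rw [norm_sub_rev F]
        linarith

theorem W0_inv (a : A) (F : BD A) (hF : F ∈ D.W0) : (BDmod A).act a F ∈ D.W0 := by
  rw [mem_W0_iff] at *
  intro ε hε
  obtain ⟨n, hn⟩ := hF (ε / (2 * (‖a‖ + 1))) (by positivity)
  refine ⟨n, ?_⟩
  rw [BDmod_act]
  have h2 : D.Q n (bd (Lm a) (D.Q n F)) = bd (Lm a) (D.Q n F) :=
    D.Q_act n a _ (by rw [D.Q_comp, min_self])
  have h1 : D.Q n (bd (Lm a) F) - bd (Lm a) F =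
      D.Q n (bd (Lm a) (F - D.Q n F)) + bd (Lm a) (D.Q n F - F) := by
    rw [map_sub, map_sub, h2, map_sub]
    abel
  have h3 : ∀ G : BD A, ‖bd (Lm a) G‖ ≤ ‖a‖ * ‖G‖ := fun G =>
    (bd (Lm a)).le_of_opNorm_le ((bd_norm _).trans (Lm_norm a)) G
  rw [h1]
  calc ‖D.Q n (bd (Lm a) (F - D.Q n F)) + bd (Lm a) (D.Q n F - F)‖
      ≤ ‖D.Q n (bd (Lm a) (F - D.Q n F))‖ + ‖bd (Lm a) (D.Q n F - F)‖ := norm_add_le _ _
    _ ≤ 1 * ‖bd (Lm a) (F - D.Q n F)‖ + ‖bd (Lm a) (D.Q n F - F)‖ := by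
        gcongr
        exact (D.Q n).le_of_opNorm_le (D.Q_norm n) _
    _ ≤ 1 * (‖a‖ * ‖F - D.Q n F‖) + ‖a‖ * ‖D.Q n F - F‖ := by
        gcongr
        · exact h3 _
        · exact h3 _
    _ = 2 * ‖a‖ * ‖D.Q n F - F‖ := by
        rw [norm_sub_rev F]
        ring
    _ ≤ 2 * (‖a‖ + 1) * ‖D.Q n F - F‖ := by
        gcongr
        linarith
    _ < 2 * (‖a‖ + 1) * (ε / (2 * (‖a‖ + 1))) := by
        gcongr
    _ = ε := by
        field_simp

end AlgData

end Pool.Agent.MPb3f6df
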