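import Pool.Agent.Lib.MP_b3f6df_an.Defs

/-!
# Basic constructions on left modules
-/

namespace Pool.Agent.MPb3f6df

variable {A : Type} [NonUnitalNormedRing A] [NormedSpace ℂ A]

namespace LeftMod

/-- Constructor of left modules from a bilinear bounded map. -/
noncomputable abbrev ofBil (E : Type) [NormedAddCommGroup E] [NormedSpace ℂ E] [CompleteSpace E]
    (f : A → E → E)
    (h1 : ∀ a b x, f (a + b) x = f a x + f b x) (h2 : ∀ (c : ℂ) a x, f (c • a) x = c • f a x)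
    (h3 : ∀ a x y, f a (x + y) = f a x + f a y) (h4 : ∀ (c : ℂ) a x, f a (c • x) = c • f a x)
    (C : ℝ) (hC : ∀ a x, ‖f a x‖ ≤ C * ‖a‖ * ‖x‖)
    (hm : ∀ a b x, f (a * b) x = f a (f b x)) : LeftMod A where
  carrier := E
  act := LinearMap.mkContinuous₂ (LinearMap.mk₂ ℂ f h1 h2 h3 h4) C hC
  act_mul := hm

/-- A closed invariant subspace as a left module. -/
noncomputable abbrev sub (X : LeftMod A) (S : Submodule ℂ X) (hc : IsClosed (S : Set X))
    (hinv : ∀ a : A, ∀ x ∈ S, X.act a x ∈ S) : LeftMod A :=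
  haveI : CompleteSpace S := hc.completeSpace_coe
  ofBil S (fun a x => ⟨X.act a x, hinv a x x.2⟩)
    (fun a b x => by ext; simp) (fun c a x => by ext; simp)
    (fun a x y => by ext; simp) (fun c a x => by ext; simp)
    ‖X.act‖ (fun a x => (X.act).le_opNorm₂ a x)
    (fun a b x => by ext; simp [X.act_mul])

/-- Product of two modules. -/
noncomputable abbrev prod (X Y : LeftMod A) : LeftMod A :=
  ofBil (X × Y) (fun a p => (X.act a p.1, Y.act a p.2))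
    (fun a b x => by simp) (fun c a x => by simp)
    (fun a x y => by simp) (fun c a x => by simp)
    (max ‖X.act‖ ‖Y.act‖) (fun a x => by
      rw [Prod.norm_def]
      apply max_le
      · refine ((X.act).le_opNorm₂ a x.1).trans ?_
        gcongr
        · exact le_max_left _ _
        · exact norm_fst_le x
      · refine ((Y.act).le_opNorm₂ a x.2).trans ?_
        gcongr
        · exact le_max_right _ _
        · exact norm_snd_le x)
    (fun a b x => by simp [X.act_mul, Y.act_mul])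

end LeftMod

open LeftMod

/-- Relative projectivity of a module `P` with respect to maps vanishing on `N`. -/
def RelProj (P : LeftMod A) (N : Submodule ℂ P) : Prop :=
  ∀ (F W : LeftMod A) (q : F →L[ℂ] W), IsHom q → ∀ (s : W →L[ℂ] F), (∀ w, q (s w) = w) →
    ∀ (φ : P →L[ℂ] W), IsHom φ → (∀ x ∈ N, φ x = 0) →
      ∃ Φ : P →L[ℂ] F, IsHom Φ ∧ (∀ x ∈ N, Φ x = 0) ∧ ∀ x, q (Φ x) = φ x

/-- Vanishing of the first relative `Ext` group, for cocycles vanishing on `N`. -/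
def E1 (X : LeftMod A) (N : Submodule ℂ X) (U : LeftMod A) : Prop :=
  ∀ D : X →L[ℂ] (A →L[ℂ] U), (∀ x ∈ N, D x = 0) →
    (∀ x a b, D (X.act b x) a = D x (a * b) - U.act a (D x b)) →
      ∃ T : X →L[ℂ] U, (∀ x ∈ N, T x = 0) ∧
        ∀ x a, D x a = T (X.act a x) - U.act a (T x)

/-- A relative split short exact sequence `0 → K → P → X → 0`. -/
structure Ses (K : LeftMod A) (NK : Submodule ℂ K) (P : LeftMod A) (NP : Submodule ℂ P)
    (X : LeftMod A) (NX : Submodule ℂ X) where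
  i : K →L[ℂ] P
  π : P →L[ℂ] X
  κ : P →L[ℂ] K
  σ : X →L[ℂ] P
  i_hom : IsHom i
  π_hom : IsHom π
  κ_i : ∀ k, κ (i k) = k
  π_σ : ∀ x, π (σ x) = x
  π_i : ∀ k, π (i k) = 0
  i_κ : ∀ p, i (κ p) + σ (π p) = p
  i_N : ∀ k ∈ NK, i k ∈ NP
  κ_N : ∀ p ∈ NP, κ p ∈ NK
  σ_N : ∀ x ∈ NX, σ x ∈ NP
  π_N : ∀ p ∈ NP, π p ∈ NX
  inv_P : ∀ a : A, ∀ p ∈ NP, P.act a p ∈ NP

namespace Ses

variable {K : LeftMod A} {NK : Submodule ℂ K} {P : LeftMod A} {NP : Submodule ℂ P}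
    {X : LeftMod A} {NX : Submodule ℂ X} (S : Ses K NK P NP X NX)

include S

theorem κ_σ (x : X) : S.κ (S.σ x) = 0 := by
  have h := S.i_κ (S.σ x)
  rw [S.π_σ] at h
  have h2 : S.i (S.κ (S.σ x)) = 0 := by simpa using h
  have h3 := S.κ_i (S.κ (S.σ x))
  rw [h2] at h3
  simpa using h3.symm

theorem κ_act (a : A) (p : P) :
    S.κ (P.act a p) = K.act a (S.κ p) + S.κ (P.act a (S.σ (S.π p))) := by
  conv_lhs => rw [← S.i_κ p]
  rw [map_add, map_add, ← S.i_hom, S.κ_i]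

end Ses

theorem ext_lemma {K : LeftMod A} {NK : Submodule ℂ K} {P : LeftMod A} {NP : Submodule ℂ P}
    {X : LeftMod A} {NX : Submodule ℂ X} (S : Ses K NK P NP X NX) {Y : LeftMod A}
    (hE : E1 X NX Y) (ψ : K →L[ℂ] Y) (hψ : IsHom ψ) (hψN : ∀ k ∈ NK, ψ k = 0) :
    ∃ Ψ : P →L[ℂ] Y, IsHom Ψ ∧ (∀ p ∈ NP, Ψ p = 0) ∧ ∀ k, Ψ (S.i k) = ψ k := by
  have key := hE
    (LinearMap.mkContinuous₂ (LinearMap.mk₂ ℂ (fun (x : X) (a : A) => ψ (S.κ (P.act a (S.σ x))))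
      (fun x y a => by simp) (fun c x a => by simp) (fun x a b => by simp)
      (fun c x a => by simp)) (‖ψ‖ * ‖S.κ‖ * ‖P.act‖ * ‖S.σ‖)
      (fun x a => by
        have h1 : ‖ψ (S.κ (P.act a (S.σ x)))‖ ≤ ‖ψ‖ * ‖S.κ (P.act a (S.σ x))‖ := ψ.le_opNorm _
        have h2 : ‖S.κ (P.act a (S.σ x))‖ ≤ ‖S.κ‖ * ‖P.act a (S.σ x)‖ := S.κ.le_opNorm _
        have h3 : ‖P.act a (S.σ x)‖ ≤ ‖P.act‖ * ‖a‖ * ‖S.σ x‖ := P.act.le_opNorm₂ _ _
        have h4 : ‖S.σ x‖ ≤ ‖S.σ‖ * ‖x‖ := S.σ.le_opNorm _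
        calc ‖ψ (S.κ (P.act a (S.σ x)))‖ ≤ ‖ψ‖ * (‖S.κ‖ * (‖P.act‖ * ‖a‖ * (‖S.σ‖ * ‖x‖))) := by
              refine h1.trans ?_
              gcongr
              refine h2.trans ?_
              gcongr
              refine h3.trans ?_
              gcongr
          _ = ‖ψ‖ * ‖S.κ‖ * ‖P.act‖ * ‖S.σ‖ * ‖x‖ * ‖a‖ := by ring))
    (fun x hx => by
      ext a
      exact hψN _ (S.κ_N _ (S.inv_P _ _ (S.σ_N _ hx))))
    (fun x a b => by
      show ψ (S.κ (P.act a (S.σ (X.act b x)))) =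
        ψ (S.κ (P.act (a * b) (S.σ x))) - Y.act a (ψ (S.κ (P.act b (S.σ x))))
      have h1 := S.κ_act a (P.act b (S.σ x))
      rw [S.π_hom, S.π_σ] at h1
      rw [P.act_mul, h1, map_add, hψ]
      abel)
  obtain ⟨T, hTN, hT⟩ := key
  have hT' : ∀ x a, ψ (S.κ (P.act a (S.σ x))) = T (X.act a x) - Y.act a (T x) := hT
  refine ⟨ψ.comp S.κ - T.comp S.π, ?_, ?_, ?_⟩
  · intro a p
    simp only [sub_apply, ContinuousLinearMap.comp_apply]
    rw [S.κ_act, map_add, hψ, hT', S.π_hom, map_sub]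
    abel
  · intro p hp
    simp only [sub_apply, ContinuousLinearMap.comp_apply]
    rw [hψN _ (S.κ_N _ hp), hTN _ (S.π_N _ hp), sub_zero]
  · intro k
    simp only [sub_apply, ContinuousLinearMap.comp_apply]
    rw [S.κ_i, S.π_i, map_zero, sub_zero]

end Pool.Agent.MPb3f6df
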