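import Pool.Agent.Lib.MP_b3f6df_an.ConvLeft

/-!
# Bimodules: from projective resolutions to finite relative projective dimension
-/

set_option maxSynthPendingDepth 3

namespace Pool.Agent.MPb3f6df

open LeftMod

variable {A : Type} [NonUnitalNormedRing A] [NormedSpace ℂ A]

namespace BiMod

/-- Constructor of bimodules from bilinear bounded maps. -/
noncomputable abbrev ofBil (E : Type) [NormedAddCommGroup E] [NormedSpace ℂ E] [CompleteSpace E]
    (f : A → E → E)
    (h1 : ∀ a b x, f (a + b) x = f a x + f b x) (h2 : ∀ (c : ℂ) a x, f (c • a) x = c • f a x)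
    (h3 : ∀ a x y, f a (x + y) = f a x + f a y) (h4 : ∀ (c : ℂ) a x, f a (c • x) = c • f a x)
    (C : ℝ) (hC : ∀ a x, ‖f a x‖ ≤ C * ‖a‖ * ‖x‖)
    (g : A → E → E)
    (g1 : ∀ a b x, g (a + b) x = g a x + g b x) (g2 : ∀ (c : ℂ) a x, g (c • a) x = c • g a x)
    (g3 : ∀ a x y, g a (x + y) = g a x + g a y) (g4 : ∀ (c : ℂ) a x, g a (c • x) = c • g a x)
    (C' : ℝ) (hC' : ∀ a x, ‖g a x‖ ≤ C' * ‖a‖ * ‖x‖)
    (hm : ∀ a b x, f (a * b) x = f a (f b x)) (hm' : ∀ a b x, g (a * b) x = g b (g a x))
    (hc : ∀ a b x, f a (g b x) = g b (f a x)) : BiMod A where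
  carrier := E
  lact := LinearMap.mkContinuous₂ (LinearMap.mk₂ ℂ f h1 h2 h3 h4) C hC
  ract := LinearMap.mkContinuous₂ (LinearMap.mk₂ ℂ g g1 g2 g3 g4) C' hC'
  lact_mul := hm
  ract_mul := hm'
  lact_ract := hc

/-- A closed invariant subspace as a bimodule. -/
noncomputable abbrev sub (X : BiMod A) (S : Submodule ℂ X) (hc : IsClosed (S : Set X))
    (hl : ∀ a : A, ∀ x ∈ S, X.lact a x ∈ S) (hr : ∀ a : A, ∀ x ∈ S, X.ract a x ∈ S) : BiMod A :=
  haveI : CompleteSpace S := hc.completeSpace_coe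
  ofBil S (fun a x => ⟨X.lact a x, hl a x x.2⟩)
    (fun a b x => by ext; simp) (fun c a x => by ext; simp)
    (fun a x y => by ext; simp) (fun c a x => by ext; simp)
    ‖X.lact‖ (fun a x => (X.lact).le_opNorm₂ a x)
    (fun a x => ⟨X.ract a x, hr a x x.2⟩)
    (fun a b x => by ext; simp) (fun c a x => by ext; simp)
    (fun a x y => by ext; simp) (fun c a x => by ext; simp)
    ‖X.ract‖ (fun a x => (X.ract).le_opNorm₂ a x)
    (fun a b x => by ext; simp [X.lact_mul])
    (fun a b x => by ext; simp [X.ract_mul])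
    (fun a b x => by ext; simp [X.lact_ract])

/-- Product of two bimodules. -/
noncomputable abbrev prod (X Y : BiMod A) : BiMod A :=
  ofBil (X × Y) (fun a p => (X.lact a p.1, Y.lact a p.2))
    (fun a b x => by simp) (fun c a x => by simp)
    (fun a x y => by simp) (fun c a x => by simp)
    (max ‖X.lact‖ ‖Y.lact‖) (fun a x => by
      rw [Prod.norm_def]
      apply max_le
      · refine ((X.lact).le_opNorm₂ a x.1).trans ?_
        gcongr
        · exact le_max_left _ _
        · exact norm_fst_le x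
      · refine ((Y.lact).le_opNorm₂ a x.2).trans ?_
        gcongr
        · exact le_max_right _ _
        · exact norm_snd_le x)
    (fun a p => (X.ract a p.1, Y.ract a p.2))
    (fun a b x => by simp) (fun c a x => by simp)
    (fun a x y => by simp) (fun c a x => by simp)
    (max ‖X.ract‖ ‖Y.ract‖) (fun a x => by
      rw [Prod.norm_def]
      apply max_le
      · refine ((X.ract).le_opNorm₂ a x.1).trans ?_
        gcongr
        · exact le_max_left _ _
        · exact norm_fst_le x
      · refine ((Y.ract).le_opNorm₂ a x.2).trans ?_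
        gcongr
        · exact le_max_right _ _
        · exact norm_snd_le x)
    (fun a b x => by simp [X.lact_mul, Y.lact_mul])
    (fun a b x => by simp [X.ract_mul, Y.ract_mul])
    (fun a b x => by simp [X.lact_ract, Y.lact_ract])

/-- right module maps -/
def IsRHom {X Y : BiMod A} (f : X →L[ℂ] Y) : Prop :=
  ∀ (a : A) (x : X), f (X.ract a x) = Y.ract a (f x)

/-- lifting property of projective bimodules -/
theorem Projective.lift {P : BiMod A} (hP : P.Projective) {F W : BiMod A} (q : F →L[ℂ] W)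
    (hq : IsHom q) (s : W →L[ℂ] F) (hs : ∀ w, q (s w) = w) (φ : P →L[ℂ] W) (hφ : IsHom φ) :
    ∃ Φ : P →L[ℂ] F, IsHom Φ ∧ ∀ x, q (Φ x) = φ x := by
  let S : Submodule ℂ (F × P) :=
    LinearMap.ker (q.comp (ContinuousLinearMap.fst ℂ F P) -
      φ.comp (ContinuousLinearMap.snd ℂ F P) : (F × P) →L[ℂ] W).toLinearMap
  have hmem : ∀ z : F × P, z ∈ S ↔ q z.1 = φ z.2 := by
    intro z
    show (q.comp (ContinuousLinearMap.fst ℂ F P) -
      φ.comp (ContinuousLinearMap.snd ℂ F P) : (F × P) →L[ℂ] W) z = 0 ↔ _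
    simp [sub_eq_zero]
  have hc : IsClosed (S : Set (F × P)) :=
    (q.comp (ContinuousLinearMap.fst ℂ F P) -
      φ.comp (ContinuousLinearMap.snd ℂ F P) : (F × P) →L[ℂ] W).isClosed_ker
  have hinvl : ∀ a : A, ∀ x ∈ S, (BiMod.prod F P).lact a x ∈ S := by
    intro a x hx
    rw [hmem] at hx
    rw [hmem]
    show q (F.lact a x.1) = φ (P.lact a x.2)
    rw [hq.1, hφ.1, hx]
  have hinvr : ∀ a : A, ∀ x ∈ S, (BiMod.prod F P).ract a x ∈ S := by
    intro a x hx
    rw [hmem] at hx
    rw [hmem]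
    show q (F.ract a x.1) = φ (P.ract a x.2)
    rw [hq.2, hφ.2, hx]
  let Z := (BiMod.prod F P).sub S hc hinvl hinvr
  let f : Z →L[ℂ] P := (ContinuousLinearMap.snd ℂ F P).comp (S.subtypeL : S →L[ℂ] F × P)
  have hf : IsHom f := ⟨fun a x => rfl, fun a x => rfl⟩
  have hg : ∃ g : P →L[ℂ] Z, ∀ p, f (g p) = p := by
    refine ⟨ContinuousLinearMap.codRestrict (((s.comp φ).prod (ContinuousLinearMap.id ℂ P)) :
      P →L[ℂ] F × P) S (fun p => ?_), fun p => rfl⟩
    rw [hmem]
    exact hs _
  obtain ⟨h, hh, hfh⟩ := hP Z f hf hg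
  let ιZ : Z →L[ℂ] F := (ContinuousLinearMap.fst ℂ F P).comp (S.subtypeL : S →L[ℂ] F × P)
  have hιZ : IsHom ιZ := ⟨fun a x => rfl, fun a x => rfl⟩
  refine ⟨ιZ.comp h, ⟨?_, ?_⟩, ?_⟩
  · intro a x
    simp only [ContinuousLinearMap.comp_apply]
    rw [hh.1, hιZ.1]
  · intro a x
    simp only [ContinuousLinearMap.comp_apply]
    rw [hh.2, hιZ.2]
  · intro x
    have h1 : q (ιZ (h x)) = φ (f (h x)) := (hmem _).1 (h x).2
    simp only [ContinuousLinearMap.comp_apply]
    rw [h1, hfh]

/-- right relative projectivity -/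
def RP (X : BiMod A) : Prop :=
  ∀ (Z Y : BiMod A) (g : Z →L[ℂ] Y), IsRHom g → ∀ (s : Y →L[ℂ] Z), (∀ y, g (s y) = y) →
    ∀ f : X →L[ℂ] Y, IsRHom f → ∃ h : X →L[ℂ] Z, IsRHom h ∧ ∀ x, g (h x) = f x

/-- the underlying left module -/
noncomputable abbrev left (X : BiMod A) : LeftMod A where
  carrier := X
  act := X.lact
  act_mul := X.lact_mul

/-- a left module as a bimodule with zero right action -/
noncomputable abbrev ofLeft (X : LeftMod A) : BiMod A where
  carrier := X
  lact := X.act
  ract := 0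
  lact_mul := X.act_mul
  ract_mul := fun a b x => by simp
  lact_ract := fun a b x => by simp

/-- the span of the elements `x · a` -/
def NA (X : BiMod A) : Submodule ℂ X := Submodule.span ℂ {y | ∃ (a : A) (x : X), y = X.ract a x}

theorem ract_mem_NA (X : BiMod A) (a : A) (x : X) : X.ract a x ∈ X.NA :=
  Submodule.subset_span ⟨a, x, rfl⟩

theorem NA_le (X : BiMod A) (S : Submodule ℂ X) (h : ∀ a x, X.ract a x ∈ S) {y : X}
    (hy : y ∈ X.NA) : y ∈ S := by
  have : X.NA ≤ S := by
    rw [NA, Submodule.span_le]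
    rintro z ⟨a, x, rfl⟩
    exact h a x
  exact this hy

theorem NA_map {X Y : BiMod A} (f : X →L[ℂ] Y) (hf : IsRHom f) {x : X} (hx : x ∈ X.NA) :
    f x ∈ Y.NA := by
  have := NA_le X (Y.NA.comap f.toLinearMap) (fun a x => by
    rw [Submodule.mem_comap]
    show f (X.ract a x) ∈ Y.NA
    rw [hf]
    exact ract_mem_NA _ _ _) hx
  exact this

theorem NA_vanish {X : BiMod A} {F : Type} [NormedAddCommGroup F] [NormedSpace ℂ F]
    (f : X →L[ℂ] F) (hf : ∀ a x, f (X.ract a x) = 0) {x : X}
    (hx : x ∈ X.NA) : f x = 0 := by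
  have := NA_le X (LinearMap.ker f.toLinearMap) (fun a x => hf a x) hx
  exact this

theorem NA_inv (X : BiMod A) (a : A) {x : X} (hx : x ∈ X.NA) : X.lact a x ∈ X.NA := by
  have := NA_le X (X.NA.comap (X.lact a).toLinearMap) (fun b x => by
    rw [Submodule.mem_comap]
    show X.lact a (X.ract b x) ∈ X.NA
    rw [X.lact_ract]
    exact ract_mem_NA _ _ _) hx
  exact this

theorem Projective.relProj {P : BiMod A} (hP : P.Projective) : RelProj P.left P.NA := by
  intro F W q hq s hs φ hφ hN
  obtain ⟨Φ, hΦ, hqΦ⟩ := hP.lift (F := ofLeft F) (W := ofLeft W) q ⟨hq, fun a x => by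
      show q 0 = 0
      exact map_zero q⟩ s hs φ
    ⟨hφ, fun a x => by
      show φ (P.ract a x) = 0
      exact hN _ (ract_mem_NA P a x)⟩
  refine ⟨Φ, hΦ.1, fun x hx => ?_, hqΦ⟩
  exact NA_vanish (F := F) Φ (fun a x => by
    rw [hΦ.2]
    rfl) hx

section Coind

variable [IsScalarTower ℂ A A] [SMulCommClass ℂ A A]

/-- The bimodule `B(A₊, Z) = Z × B(A, Z)`, coinduced from the right module `Z`. -/
noncomputable abbrev coindL (Z : BiMod A) : BiMod A :=
  ofBil (Z × (A →L[ℂ] Z)) (fun b p => (p.2 b, p.2.comp (Rm b)))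
    (fun a b x => by
      refine Prod.ext ?_ ?_
      · simp
      · ext y; simp [Rm_apply, mul_add])
    (fun c a x => by
      refine Prod.ext ?_ ?_
      · simp
      · ext y; simp [Rm_apply, mul_smul_comm])
    (fun a x y => by
      refine Prod.ext ?_ ?_
      · simp
      · ext y; simp [Rm_apply])
    (fun c a x => by
      refine Prod.ext ?_ ?_
      · simp
      · ext y; simp [Rm_apply])
    1
    (fun b p => by
      have h0 : ‖p.2‖ ≤ ‖p‖ := norm_snd_le p
      rw [one_mul, Prod.norm_def]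
      apply max_le
      · calc ‖p.2 b‖ ≤ ‖p.2‖ * ‖b‖ := p.2.le_opNorm _
          _ ≤ ‖b‖ * ‖p‖ := by rw [mul_comm]; gcongr
      · refine ContinuousLinearMap.opNorm_le_bound _ (by positivity) (fun a => ?_)
        show ‖p.2 (a * b)‖ ≤ _
        calc ‖p.2 (a * b)‖ ≤ ‖p.2‖ * ‖a * b‖ := p.2.le_opNorm _
          _ ≤ ‖p‖ * (‖a‖ * ‖b‖) := by gcongr; exact norm_mul_le _ _
          _ = ‖b‖ * ‖p‖ * ‖a‖ := by ring)
    (fun b p => (Z.ract b p.1, (Z.ract b).comp p.2))
    (fun a b x => by
      refine Prod.ext ?_ ?_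
      · simp
      · ext y; simp)
    (fun c a x => by
      refine Prod.ext ?_ ?_
      · simp
      · ext y; simp)
    (fun a x y => by
      refine Prod.ext ?_ ?_
      · simp
      · ext y; simp)
    (fun c a x => by
      refine Prod.ext ?_ ?_
      · simp
      · ext y; simp)
    ‖Z.ract‖
    (fun b p => by
      rw [Prod.norm_def]
      apply max_le
      · refine (Z.ract.le_opNorm₂ b p.1).trans ?_
        gcongr
        exact norm_fst_le p
      · refine ContinuousLinearMap.opNorm_le_bound _ (by positivity) (fun a => ?_)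
        show ‖Z.ract b (p.2 a)‖ ≤ _
        calc ‖Z.ract b (p.2 a)‖ ≤ ‖Z.ract‖ * ‖b‖ * ‖p.2 a‖ := Z.ract.le_opNorm₂ _ _
          _ ≤ ‖Z.ract‖ * ‖b‖ * (‖p‖ * ‖a‖) := by
            gcongr
            refine (p.2.le_opNorm a).trans ?_
            gcongr
            exact norm_snd_le p
          _ = ‖Z.ract‖ * ‖b‖ * ‖p‖ * ‖a‖ := by ring)
    (fun a b p => by
      refine Prod.ext rfl ?_
      ext c
      show p.2 (c * (a * b)) = p.2 ((c * a) * b)
      rw [mul_assoc])
    (fun a b p => by
      refine Prod.ext ?_ ?_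
      · exact Z.ract_mul a b p.1
      · ext c
        exact Z.ract_mul a b (p.2 c))
    (fun a b p => by
      refine Prod.ext rfl ?_
      ext c
      rfl)

/-- Projective bimodules are right projective. -/
theorem Projective.rp {P : BiMod A} (hP : P.Projective) : RP P := by
  intro Z Y g hg s hs f hf
  -- the coinduced map
  let gs : coindL Z →L[ℂ] coindL Y :=
    (g.comp (ContinuousLinearMap.fst ℂ Z (A →L[ℂ] Z))).prod
      ((ContinuousLinearMap.compL ℂ A Z Y g).comp (ContinuousLinearMap.snd ℂ Z (A →L[ℂ] Z)))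
  let ss : coindL Y →L[ℂ] coindL Z :=
    (s.comp (ContinuousLinearMap.fst ℂ Y (A →L[ℂ] Y))).prod
      ((ContinuousLinearMap.compL ℂ A Y Z s).comp (ContinuousLinearMap.snd ℂ Y (A →L[ℂ] Y)))
  let fh : P →L[ℂ] coindL Y := f.prod ((ContinuousLinearMap.compL ℂ A P Y f).comp P.lact.flip)
  have hgs : IsHom gs := by
    refine ⟨fun a x => ?_, fun a x => ?_⟩
    · refine Prod.ext rfl ?_
      ext b
      rfl
    · refine Prod.ext ?_ ?_
      · exact hg a x.1
      · ext b
        exact hg a (x.2 b)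
  have hgss : ∀ w, gs (ss w) = w := by
    intro w
    refine Prod.ext ?_ ?_
    · exact hs w.1
    · ext b
      exact hs (w.2 b)
  have hfh : IsHom fh := by
    refine ⟨fun a x => ?_, fun a x => ?_⟩
    · refine Prod.ext rfl ?_
      ext b
      show f (P.lact b (P.lact a x)) = f (P.lact (b * a) x)
      rw [P.lact_mul]
    · refine Prod.ext ?_ ?_
      · exact hf a x
      · ext b
        show f (P.lact b (P.ract a x)) = Y.ract a (f (P.lact b x))
        rw [P.lact_ract, hf]
  obtain ⟨Φ, hΦ, hqΦ⟩ := hP.lift gs hgs ss hgss fh hfh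
  refine ⟨(ContinuousLinearMap.fst ℂ Z (A →L[ℂ] Z)).comp Φ, ?_, ?_⟩
  · intro a x
    show (Φ (P.ract a x)).1 = Z.ract a (Φ x).1
    rw [hΦ.2]
    rfl
  · intro x
    have h1 : (gs (Φ x)).1 = (fh x).1 := by rw [hqΦ]
    exact h1

/-- kernel of a morphism -/
noncomputable abbrev kerMod {P X : BiMod A} (f : P →L[ℂ] X) (hf : IsHom f) : BiMod A :=
  P.sub (LinearMap.ker f.toLinearMap) f.isClosed_ker
    (fun a x hx => by
      rw [LinearMap.mem_ker] at *
      have h : f x = 0 := hx
      show f (P.lact a x) = 0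
      rw [hf.1, h, map_zero])
    (fun a x hx => by
      rw [LinearMap.mem_ker] at *
      have h : f x = 0 := hx
      show f (P.ract a x) = 0
      rw [hf.2, h, map_zero])

omit [IsScalarTower ℂ A A] [SMulCommClass ℂ A A] in
/-- the truncated resolution of the kernel of the augmentation -/
theorem HasProjRes.ker {X : BiMod A} (R : X.Resolution) (hP : ∀ k, (R.P k).Projective) (n : ℕ)
    (hn : ∀ k, n + 1 < k → Subsingleton (R.P k)) :
    (kerMod R.aug R.aug_hom).HasProjRes n := by
  obtain ⟨t, s, h1, h2, h3⟩ := R.split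
  refine ⟨{ P := fun k => R.P (k + 1)
            aug := ContinuousLinearMap.codRestrict (R.d 0) (LinearMap.ker R.aug.toLinearMap)
              (fun p => R.aug_d p)
            d := fun k => R.d (k + 1)
            aug_hom := ⟨fun a p => Subtype.ext ((R.d_hom 0).1 a p),
              fun a p => Subtype.ext ((R.d_hom 0).2 a p)⟩
            d_hom := fun k => R.d_hom (k + 1)
            aug_d := fun p => Subtype.ext (R.d_d 0 p)
            d_d := fun k => R.d_d (k + 1)
            split := ?_ }, fun k => hP (k + 1), fun k hk => hn (k + 1) (by omega)⟩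
  refine ⟨(s 0).comp (LinearMap.ker R.aug.toLinearMap).subtypeL, fun k => s (k + 1), ?_, ?_, ?_⟩
  · intro x
    apply Subtype.ext
    show R.d 0 (s 0 x.1) = x.1
    have h4 := h2 x.1
    have h5 : R.aug x.1 = 0 := x.2
    rw [h5, map_zero, add_zero] at h4
    exact h4
  · intro p
    exact h3 0 p
  · intro k p
    exact h3 (k + 1) p

theorem HasProjRes.finPD (n : ℕ) : ∀ (X : BiMod A), RP X → X.HasProjRes n →
    FinPD n X.left X.NA := by
  induction n with
  | zero =>
    rintro X _ ⟨R, hP, hn⟩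
    obtain ⟨t, s, h1, h2, h3⟩ := R.split
    have hs1 : Subsingleton (R.P 1) := hn 1 (by omega)
    have h4 : ∀ p, t (R.aug p) = p := by
      intro p
      have h5 := h2 p
      have h6 : s 0 p = 0 := Subsingleton.elim _ _
      rw [h6, map_zero, zero_add] at h5
      exact h5
    have htl : ∀ a x, t (X.lact a x) = (R.P 0).lact a (t x) := by
      intro a x
      rw [← h4 ((R.P 0).lact a (t x)), R.aug_hom.1, h1]
    have htr : ∀ a x, t (X.ract a x) = (R.P 0).ract a (t x) := by
      intro a x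
      rw [← h4 ((R.P 0).ract a (t x)), R.aug_hom.2, h1]
    intro F W q hq s' hs' φ hφ hφN
    obtain ⟨Φ, hΦ, hΦN, hqΦ⟩ := (hP 0).relProj F W q hq s' hs' (φ.comp R.aug)
      (fun a p => by
        show φ (R.aug ((R.P 0).lact a p)) = W.act a (φ (R.aug p))
        rw [R.aug_hom.1]
        exact hφ a _)
      (fun x hx => hφN _ (NA_map R.aug R.aug_hom.2 hx))
    refine ⟨Φ.comp t, ?_, ?_, ?_⟩
    · intro a x
      show Φ (t (X.lact a x)) = F.act a (Φ (t x))
      rw [htl]
      exact hΦ a _
    · intro x hx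
      exact hΦN _ (NA_map t htr hx)
    · intro x
      show q (Φ (t x)) = φ x
      rw [hqΦ]
      show φ (R.aug (t x)) = φ x
      rw [h1]
  | succ n ih =>
    rintro X hX ⟨R, hP, hn⟩
    obtain ⟨t, s, h1, h2, h3⟩ := R.split
    -- right module section
    obtain ⟨σ, hσ, hσ1⟩ := hX (R.P 0) X R.aug R.aug_hom.2 t h1 (ContinuousLinearMap.id ℂ X)
      (fun a x => rfl)
    have hσ2 : ∀ x, R.aug (σ x) = x := hσ1
    let K := kerMod R.aug R.aug_hom
    let κ : (R.P 0) →L[ℂ] K :=
      ContinuousLinearMap.codRestrict (ContinuousLinearMap.id ℂ (R.P 0) - σ.comp R.aug)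
          (LinearMap.ker R.aug.toLinearMap) (fun p => by
            show R.aug (p - σ (R.aug p)) = 0
            rw [map_sub, hσ2, sub_self])
    let i : K →L[ℂ] (R.P 0) := (LinearMap.ker R.aug.toLinearMap).subtypeL
    have hi : IsHom i := ⟨fun a k => rfl, fun a k => rfl⟩
    have hκ : IsRHom κ := by
      intro a p
      apply Subtype.ext
      show (R.P 0).ract a p - σ (R.aug ((R.P 0).ract a p)) = (R.P 0).ract a (p - σ (R.aug p))
      rw [R.aug_hom.2, hσ, map_sub]
    have hκi : ∀ k, κ (i k) = k := by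
      intro k
      apply Subtype.ext
      show k.1 - σ (R.aug k.1) = k.1
      have h5 : R.aug k.1 = 0 := k.2
      rw [h5, map_zero, sub_zero]
    have hK : RP K := by
      intro Z Y g hg s' hs' f hf
      obtain ⟨h, hh, hgh⟩ := (hP 0).rp Z Y g hg s' hs' (f.comp κ) (fun a x => by
        simp only [ContinuousLinearMap.comp_apply]
        rw [hκ, hf])
      refine ⟨h.comp i, fun a x => ?_, fun x => ?_⟩
      · simp only [ContinuousLinearMap.comp_apply]
        rw [hi.2, hh]
      · simp only [ContinuousLinearMap.comp_apply]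
        rw [hgh, ContinuousLinearMap.comp_apply, hκi]
    refine ⟨K.left, (R.P 0).left, K.NA, (R.P 0).NA,
      { i := i
        π := R.aug
        κ := κ
        σ := σ
        i_hom := hi.1
        π_hom := R.aug_hom.1
        κ_i := hκi
        π_σ := hσ2
        π_i := fun k => k.2
        i_κ := fun p => by
          show p - σ (R.aug p) + σ (R.aug p) = p
          rw [sub_add_cancel]
        i_N := fun k hk => NA_map i hi.2 hk
        κ_N := fun p hp => NA_map κ hκ hp
        σ_N := fun x hx => NA_map σ hσ hx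
        π_N := fun p hp => NA_map R.aug R.aug_hom.2 hp
        inv_P := fun a p hp => NA_inv (R.P 0) a hp }, (hP 0).relProj, ?_⟩
    exact ih K hK (HasProjRes.ker R hP n hn)

end Coind

end BiMod

end Pool.Agent.MPb3f6df
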