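import Pool.Agent.Lib.MP_b3f6df_an.Filt0

/-!
# Left modules: from projective resolutions to finite relative projective dimension
-/

set_option maxSynthPendingDepth 3

namespace Pool.Agent.MPb3f6df

open LeftMod

variable {A : Type} [NonUnitalNormedRing A] [NormedSpace ℂ A]

namespace LeftMod

/-- kernel of a morphism -/
noncomputable abbrev kerMod {P X : LeftMod A} (f : P →L[ℂ] X) (hf : IsHom f) : LeftMod A :=
  P.sub (LinearMap.ker f.toLinearMap) f.isClosed_ker (fun a x hx => by
    rw [LinearMap.mem_ker] at *
    have h : f x = 0 := hx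
    show f (P.act a x) = 0
    rw [hf, h, map_zero])

theorem mem_kerMod {P X : LeftMod A} (f : P →L[ℂ] X) (x : P) :
    x ∈ LinearMap.ker f.toLinearMap ↔ f x = 0 := Iff.rfl

/-- the truncated resolution of the kernel of the augmentation -/
theorem HasProjRes.ker {X : LeftMod A} (R : X.Resolution) (hP : ∀ k, (R.P k).Projective) (n : ℕ)
    (hn : ∀ k, n + 1 < k → Subsingleton (R.P k)) :
    (kerMod R.aug R.aug_hom).HasProjRes n := by
  obtain ⟨t, s, h1, h2, h3⟩ := R.split
  refine ⟨{ P := fun k => R.P (k + 1)
            aug := ContinuousLinearMap.codRestrict (R.d 0) (LinearMap.ker R.aug.toLinearMap)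
              (fun p => R.aug_d p)
            d := fun k => R.d (k + 1)
            aug_hom := fun a p => Subtype.ext (R.d_hom 0 a p)
            d_hom := fun k => R.d_hom (k + 1)
            aug_d := fun p => Subtype.ext (R.d_d 0 p)
            d_d := fun k => R.d_d (k + 1)
            split := ?_ }, fun k => hP (k + 1), fun k hk => hn (k + 1) (by omega)⟩
  refine ⟨(s 0).comp (LinearMap.ker R.aug.toLinearMap).subtypeL, fun k => s (k + 1), ?_, ?_, ?_⟩
  · intro x
    apply Subtype.ext
    show R.d 0 (s 0 x.1) = x.1
    have h4 := h2 x.1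
    have h5 : R.aug x.1 = 0 := x.2
    rw [h5, map_zero, add_zero] at h4
    exact h4
  · intro p
    exact h3 0 p
  · intro k p
    exact h3 (k + 1) p

theorem HasProjRes.finPD (n : ℕ) : ∀ (X : LeftMod A), X.HasProjRes n → FinPD n X ⊥ := by
  induction n with
  | zero =>
    rintro X ⟨R, hP, hn⟩
    obtain ⟨t, s, h1, h2, h3⟩ := R.split
    have hs1 : Subsingleton (R.P 1) := hn 1 (by omega)
    have h4 : ∀ p, t (R.aug p) = p := by
      intro p
      have h5 := h2 p
      have h6 : s 0 p = 0 := Subsingleton.elim _ _
      rw [h6, map_zero, zero_add] at h5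
      exact h5
    have ht : IsHom t := by
      intro a x
      have h5 : (R.P 0).act a (t x) = t (X.act a x) := by
        rw [← h4 ((R.P 0).act a (t x)), R.aug_hom, h1]
      exact h5.symm
    intro F W q hq s' hs' φ hφ _
    obtain ⟨Φ, hΦ, _, hqΦ⟩ := (hP 0).lift F W q hq s' hs' (φ.comp R.aug)
      (fun a p => by
        simp only [ContinuousLinearMap.comp_apply]
        rw [R.aug_hom, hφ])
      (fun x hx => by
        rw [Submodule.mem_bot] at hx
        rw [hx, map_zero])
    refine ⟨Φ.comp t, ?_, ?_, ?_⟩
    · intro a x
      simp only [ContinuousLinearMap.comp_apply]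
      rw [ht, hΦ]
    · intro x hx
      rw [Submodule.mem_bot] at hx
      rw [hx, map_zero]
    · intro x
      simp only [ContinuousLinearMap.comp_apply]
      rw [hqΦ, ContinuousLinearMap.comp_apply, h1]
  | succ n ih =>
    rintro X ⟨R, hP, hn⟩
    obtain ⟨t, s, h1, h2, h3⟩ := R.split
    refine ⟨kerMod R.aug R.aug_hom, R.P 0, ⊥, ⊥,
      { i := (LinearMap.ker R.aug.toLinearMap).subtypeL
        π := R.aug
        κ := ContinuousLinearMap.codRestrict (ContinuousLinearMap.id ℂ (R.P 0) - t.comp R.aug)
          (LinearMap.ker R.aug.toLinearMap) (fun p => by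
            show R.aug (p - t (R.aug p)) = 0
            rw [map_sub, h1, sub_self])
        σ := t
        i_hom := fun a k => rfl
        π_hom := R.aug_hom
        κ_i := fun k => by
          apply Subtype.ext
          show k.1 - t (R.aug k.1) = k.1
          have h5 : R.aug k.1 = 0 := k.2
          rw [h5, map_zero, sub_zero]
        π_σ := h1
        π_i := fun k => k.2
        i_κ := fun p => by
          show p - t (R.aug p) + t (R.aug p) = p
          rw [sub_add_cancel]
        i_N := fun k hk => by
          rw [Submodule.mem_bot] at *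
          rw [hk, map_zero]
        κ_N := fun k hk => by
          rw [Submodule.mem_bot] at *
          rw [hk, map_zero]
        σ_N := fun k hk => by
          rw [Submodule.mem_bot] at *
          rw [hk, map_zero]
        π_N := fun k hk => by
          rw [Submodule.mem_bot] at *
          rw [hk, map_zero]
        inv_P := fun a k hk => by
          rw [Submodule.mem_bot] at *
          rw [hk, map_zero] }, (hP 0).lift, ?_⟩
    exact ih _ (HasProjRes.ker R hP n hn)

end LeftMod

end Pool.Agent.MPb3f6df
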