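import Mathlib

/-!
# Relative homology of Banach algebras: modules, projectivity, resolutions (bundled form)

Working versions, with bundled continuous linear maps, of the notions of `Dims.lean`. All spaces
are complex Banach spaces, all maps are bounded linear maps.
-/

namespace Pool.Agent.MPb3f6df

/-! ## Left modules -/

/-- A left Banach `A`-module: a Banach space with a bounded bilinear associative action of `A`
from the left. -/
structure LeftMod (A : Type) [NonUnitalNormedRing A] [NormedSpace ℂ A] where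
  /-- The underlying Banach space. -/
  carrier : Type
  [nacg : NormedAddCommGroup carrier]
  [nsp : NormedSpace ℂ carrier]
  [cpl : CompleteSpace carrier]
  /-- The action `(a, x) ↦ a · x`, a bounded bilinear map. -/
  act : A →L[ℂ] carrier →L[ℂ] carrier
  act_mul : ∀ (a b : A) (x : carrier), act (a * b) x = act a (act b x)

namespace LeftMod

attribute [instance] LeftMod.nacg LeftMod.nsp LeftMod.cpl

variable {A : Type} [NonUnitalNormedRing A] [NormedSpace ℂ A]

instance : CoeSort (LeftMod A) Type := ⟨LeftMod.carrier⟩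

/-- A bounded linear map is a morphism of left modules. -/
def IsHom {X Y : LeftMod A} (f : X →L[ℂ] Y) : Prop :=
  ∀ (a : A) (x : X), f (X.act a x) = Y.act a (f x)

/-- Relative projectivity: every morphism onto `P` with a bounded linear right inverse has a
right inverse which is a morphism. -/
def Projective (P : LeftMod A) : Prop :=
  ∀ (Y : LeftMod A) (f : Y →L[ℂ] P), IsHom f →
    (∃ g : P →L[ℂ] Y, ∀ p, f (g p) = p) → ∃ h : P →L[ℂ] Y, IsHom h ∧ ∀ p, f (h p) = p

/-- A resolution `0 ← X ← P₀ ← P₁ ← ⋯` of `X`: a complex of left modules which splits as a complex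
of Banach spaces (it has a contracting homotopy made of bounded linear maps). -/
structure Resolution (X : LeftMod A) where
  /-- The modules of the resolution. -/
  P : ℕ → LeftMod A
  /-- The augmentation `P₀ → X`. -/
  aug : P 0 →L[ℂ] X
  /-- The differentials `P (k+1) → P k`. -/
  d : ∀ k, P (k + 1) →L[ℂ] P k
  aug_hom : IsHom aug
  d_hom : ∀ k, IsHom (d k)
  aug_d : ∀ p, aug (d 0 p) = 0
  d_d : ∀ k p, d k (d (k + 1) p) = 0
  split : ∃ (t : X →L[ℂ] P 0) (s : ∀ k, P k →L[ℂ] P (k + 1)),
    (∀ x, aug (t x) = x) ∧ (∀ p, d 0 (s 0 p) + t (aug p) = p) ∧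
      ∀ k p, d (k + 1) (s (k + 1) p) + s k (d k p) = p

/-- `X` has a projective resolution `0 ← X ← P₀ ← P₁ ← ⋯` with `P k = 0` for all `k > n`. -/
def HasProjRes (X : LeftMod A) (n : ℕ) : Prop :=
  ∃ R : X.Resolution, (∀ k, (R.P k).Projective) ∧ ∀ k, n < k → Subsingleton (R.P k)

end LeftMod

/-! ## Bimodules -/

/-- A Banach `A`-bimodule: a Banach space with commuting bounded bilinear associative actions of
`A` from the left and from the right. -/
structure BiMod (A : Type) [NonUnitalNormedRing A] [NormedSpace ℂ A] where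
  /-- The underlying Banach space. -/
  carrier : Type
  [nacg : NormedAddCommGroup carrier]
  [nsp : NormedSpace ℂ carrier]
  [cpl : CompleteSpace carrier]
  /-- The left action `(a, x) ↦ a · x`. -/
  lact : A →L[ℂ] carrier →L[ℂ] carrier
  /-- The right action `(a, x) ↦ x · a`. -/
  ract : A →L[ℂ] carrier →L[ℂ] carrier
  lact_mul : ∀ (a b : A) (x : carrier), lact (a * b) x = lact a (lact b x)
  ract_mul : ∀ (a b : A) (x : carrier), ract (a * b) x = ract b (ract a x)
  lact_ract : ∀ (a b : A) (x : carrier), lact a (ract b x) = ract b (lact a x)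

namespace BiMod

attribute [instance] BiMod.nacg BiMod.nsp BiMod.cpl

variable {A : Type} [NonUnitalNormedRing A] [NormedSpace ℂ A]

instance : CoeSort (BiMod A) Type := ⟨BiMod.carrier⟩

/-- A bounded linear map is a morphism of bimodules. -/
def IsHom {X Y : BiMod A} (f : X →L[ℂ] Y) : Prop :=
  (∀ (a : A) (x : X), f (X.lact a x) = Y.lact a (f x)) ∧
    ∀ (a : A) (x : X), f (X.ract a x) = Y.ract a (f x)

/-- Relative projectivity of bimodules. -/
def Projective (P : BiMod A) : Prop :=
  ∀ (Y : BiMod A) (f : Y →L[ℂ] P), IsHom f →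
    (∃ g : P →L[ℂ] Y, ∀ p, f (g p) = p) → ∃ h : P →L[ℂ] Y, IsHom h ∧ ∀ p, f (h p) = p

/-- A resolution `0 ← X ← P₀ ← P₁ ← ⋯` of the bimodule `X`: a complex of bimodules which splits as
a complex of Banach spaces. -/
structure Resolution (X : BiMod A) where
  /-- The bimodules of the resolution. -/
  P : ℕ → BiMod A
  /-- The augmentation `P₀ → X`. -/
  aug : P 0 →L[ℂ] X
  /-- The differentials `P (k+1) → P k`. -/
  d : ∀ k, P (k + 1) →L[ℂ] P k
  aug_hom : IsHom aug
  d_hom : ∀ k, IsHom (d k)
  aug_d : ∀ p, aug (d 0 p) = 0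
  d_d : ∀ k p, d k (d (k + 1) p) = 0
  split : ∃ (t : X →L[ℂ] P 0) (s : ∀ k, P k →L[ℂ] P (k + 1)),
    (∀ x, aug (t x) = x) ∧ (∀ p, d 0 (s 0 p) + t (aug p) = p) ∧
      ∀ k p, d (k + 1) (s (k + 1) p) + s k (d k p) = p

/-- `X` has a projective resolution `0 ← X ← P₀ ← P₁ ← ⋯` with `P k = 0` for all `k > n`. -/
def HasProjRes (X : BiMod A) (n : ℕ) : Prop :=
  ∃ R : X.Resolution, (∀ k, (R.P k).Projective) ∧ ∀ k, n < k → Subsingleton (R.P k)

end BiMod

end Pool.Agent.MPb3f6df
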