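import Mathlib

/-!
# The homological dimensions of a Banach algebra

Relative (admissible) homology of Banach modules: all spaces are complex Banach spaces, all maps
are bounded linear maps, and resolutions split as complexes of Banach spaces.
-/

namespace Pool.Agent.BanachHom

/-! ## Left modules -/

/-- A left Banach `A`-module: a Banach space with an associative action of `A` from the left,
bilinear and bounded. -/
structure LeftModule (A : Type) [NonUnitalNormedRing A] [NormedSpace ℂ A] where
  /-- The underlying Banach space. -/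
  carrier : Type
  [nacg : NormedAddCommGroup carrier]
  [nsp : NormedSpace ℂ carrier]
  [cpl : CompleteSpace carrier]
  /-- The action `(a, x) ↦ a · x`. -/
  act : A → carrier → carrier
  bounded_bilinear : IsBoundedBilinearMap ℂ (fun p : A × carrier => act p.1 p.2)
  mul_act : ∀ (a b : A) (x : carrier), act (a * b) x = act a (act b x)

namespace LeftModule

attribute [instance] LeftModule.nacg LeftModule.nsp LeftModule.cpl

variable {A : Type} [NonUnitalNormedRing A] [NormedSpace ℂ A]

instance : CoeSort (LeftModule A) Type := ⟨LeftModule.carrier⟩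

/-- Morphisms of left modules: bounded linear maps commuting with the action. -/
def IsHom {X Y : LeftModule A} (f : X → Y) : Prop :=
  IsBoundedLinearMap ℂ f ∧ ∀ (a : A) (x : X), f (X.act a x) = Y.act a (f x)

/-- Relative projectivity: every morphism onto `P` with a bounded linear right inverse has a
right inverse which is a morphism. -/
def Projective (P : LeftModule A) : Prop :=
  ∀ (Y : LeftModule A) (f : Y → P), IsHom f →
    (∃ g : P → Y, IsBoundedLinearMap ℂ g ∧ ∀ p, f (g p) = p) →
      ∃ h : P → Y, IsHom h ∧ ∀ p, f (h p) = p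

/-- A resolution `0 ← X ← P₀ ← P₁ ← ⋯` of `X`: a complex of left modules and morphisms which
splits as a complex of Banach spaces, that is, which has a contracting homotopy made of bounded
linear maps. -/
structure Resolution (X : LeftModule A) where
  /-- The modules of the resolution. -/
  P : ℕ → LeftModule A
  /-- The augmentation `P₀ → X`. -/
  aug : P 0 → X
  /-- The differentials `P (k+1) → P k`. -/
  d : ∀ k, P (k + 1) → P k
  aug_hom : IsHom aug
  d_hom : ∀ k, IsHom (d k)
  aug_d : ∀ p, aug (d 0 p) = 0
  d_d : ∀ k p, d k (d (k + 1) p) = 0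
  split : ∃ (t : X → P 0) (s : ∀ k, P k → P (k + 1)),
    IsBoundedLinearMap ℂ t ∧ (∀ k, IsBoundedLinearMap ℂ (s k)) ∧
      (∀ x, aug (t x) = x) ∧ (∀ p, d 0 (s 0 p) + t (aug p) = p) ∧
        ∀ k p, d (k + 1) (s (k + 1) p) + s k (d k p) = p

/-- `X` has a projective resolution `0 ← X ← P₀ ← P₁ ← ⋯` with `P k = 0` for all `k > n`. -/
def HasProjRes (X : LeftModule A) (n : ℕ) : Prop :=
  ∃ R : X.Resolution, (∀ k, (R.P k).Projective) ∧ ∀ k, n < k → Subsingleton (R.P k)

/-- The homological dimension `dh_A X`: the least `n` for which `X` has a projective resolution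
with `P k = 0` for all `k > n`, and `⊤` (infinity) if there is no such `n`. -/
noncomputable def dh (X : LeftModule A) : ℕ∞ :=
  ⨅ (n : ℕ) (_ : X.HasProjRes n), (n : ℕ∞)

/-- A left module is irreducible if it is nonzero and has no submodules (closed or not) other than
`0` and itself. -/
def Irreducible (X : LeftModule A) : Prop :=
  Nontrivial X ∧ ∀ S : Submodule ℂ X, (∀ a : A, ∀ x ∈ S, X.act a x ∈ S) → S = ⊥ ∨ S = ⊤

end LeftModule

/-! ## Bimodules -/

/-- A Banach `A`-bimodule: a Banach space with commuting associative actions of `A` from the left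
and from the right, bilinear and bounded. -/
structure Bimodule (A : Type) [NonUnitalNormedRing A] [NormedSpace ℂ A] where
  /-- The underlying Banach space. -/
  carrier : Type
  [nacg : NormedAddCommGroup carrier]
  [nsp : NormedSpace ℂ carrier]
  [cpl : CompleteSpace carrier]
  /-- The left action `(a, x) ↦ a · x`. -/
  lact : A → carrier → carrier
  /-- The right action `(a, x) ↦ x · a`. -/
  ract : A → carrier → carrier
  left_bounded_bilinear : IsBoundedBilinearMap ℂ (fun p : A × carrier => lact p.1 p.2)
  right_bounded_bilinear : IsBoundedBilinearMap ℂ (fun p : A × carrier => ract p.1 p.2)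
  mul_lact : ∀ (a b : A) (x : carrier), lact (a * b) x = lact a (lact b x)
  mul_ract : ∀ (a b : A) (x : carrier), ract (a * b) x = ract b (ract a x)
  lact_ract : ∀ (a b : A) (x : carrier), lact a (ract b x) = ract b (lact a x)

namespace Bimodule

attribute [instance] Bimodule.nacg Bimodule.nsp Bimodule.cpl

variable {A : Type} [NonUnitalNormedRing A] [NormedSpace ℂ A]

instance : CoeSort (Bimodule A) Type := ⟨Bimodule.carrier⟩

/-- Morphisms of bimodules: bounded linear maps commuting with both actions. -/
def IsHom {X Y : Bimodule A} (f : X → Y) : Prop :=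
  IsBoundedLinearMap ℂ f ∧ (∀ (a : A) (x : X), f (X.lact a x) = Y.lact a (f x)) ∧
    ∀ (a : A) (x : X), f (X.ract a x) = Y.ract a (f x)

/-- Relative projectivity of bimodules. -/
def Projective (P : Bimodule A) : Prop :=
  ∀ (Y : Bimodule A) (f : Y → P), IsHom f →
    (∃ g : P → Y, IsBoundedLinearMap ℂ g ∧ ∀ p, f (g p) = p) →
      ∃ h : P → Y, IsHom h ∧ ∀ p, f (h p) = p

/-- A resolution `0 ← X ← P₀ ← P₁ ← ⋯` of the bimodule `X`: a complex of bimodules and morphisms
which splits as a complex of Banach spaces. -/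
structure Resolution (X : Bimodule A) where
  /-- The bimodules of the resolution. -/
  P : ℕ → Bimodule A
  /-- The augmentation `P₀ → X`. -/
  aug : P 0 → X
  /-- The differentials `P (k+1) → P k`. -/
  d : ∀ k, P (k + 1) → P k
  aug_hom : IsHom aug
  d_hom : ∀ k, IsHom (d k)
  aug_d : ∀ p, aug (d 0 p) = 0
  d_d : ∀ k p, d k (d (k + 1) p) = 0
  split : ∃ (t : X → P 0) (s : ∀ k, P k → P (k + 1)),
    IsBoundedLinearMap ℂ t ∧ (∀ k, IsBoundedLinearMap ℂ (s k)) ∧
      (∀ x, aug (t x) = x) ∧ (∀ p, d 0 (s 0 p) + t (aug p) = p) ∧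
        ∀ k p, d (k + 1) (s (k + 1) p) + s k (d k p) = p

/-- `X` has a projective resolution `0 ← X ← P₀ ← P₁ ← ⋯` with `P k = 0` for all `k > n`. -/
def HasProjRes (X : Bimodule A) (n : ℕ) : Prop :=
  ∃ R : X.Resolution, (∀ k, (R.P k).Projective) ∧ ∀ k, n < k → Subsingleton (R.P k)

/-- The homological dimension `dh_{A-A} X` of a bimodule. -/
noncomputable def dh (X : Bimodule A) : ℕ∞ :=
  ⨅ (n : ℕ) (_ : X.HasProjRes n), (n : ℕ∞)

end Bimodule

/-! ## The unitization as a bimodule, and the three dimensions of a Banach algebra -/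

section Dimensions

variable (A : Type) [NonUnitalNormedRing A] [NormedSpace ℂ A]

/-- The left action of `A` on its unitization `A₊ = ℂ ⊕ A`: `a · (c, b) = (0, c a + a b)`. -/
def plusLact (a : A) (x : WithLp 1 (ℂ × A)) : WithLp 1 (ℂ × A) :=
  WithLp.toLp 1 (0, x.fst • a + a * x.snd)

/-- The right action of `A` on its unitization `A₊ = ℂ ⊕ A`: `(c, b) · a = (0, c a + b a)`. -/
def plusRact (a : A) (x : WithLp 1 (ℂ × A)) : WithLp 1 (ℂ × A) :=
  WithLp.toLp 1 (0, x.fst • a + x.snd * a)

variable [IsScalarTower ℂ A A] [SMulCommClass ℂ A A]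

theorem plusLact_bilin :
    IsBoundedBilinearMap ℂ (fun p : A × WithLp 1 (ℂ × A) => plusLact A p.1 p.2) where
  add_left a b x := by
    apply WithLp.ofLp_injective
    ext
    · simp [plusLact]
    · simp only [plusLact, WithLp.ofLp_add, Prod.snd_add, smul_add, add_mul]
      abel
  smul_left c a x := by
    apply WithLp.ofLp_injective
    ext
    · simp [plusLact]
    · simp only [plusLact, WithLp.ofLp_smul, Prod.smul_snd, smul_add, smul_mul_assoc]
      rw [smul_comm]
  add_right a x y := by
    apply WithLp.ofLp_injective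
    ext
    · simp [plusLact]
    · simp only [plusLact, WithLp.ofLp_add, Prod.snd_add, WithLp.add_fst, WithLp.add_snd, add_smul,
        mul_add]
      abel
  smul_right c a x := by
    apply WithLp.ofLp_injective
    ext
    · simp [plusLact]
    · simp only [plusLact, WithLp.ofLp_smul, Prod.smul_snd, WithLp.smul_fst, WithLp.smul_snd,
        smul_add, mul_smul_comm, smul_assoc]
  bound := by
    refine ⟨1, one_pos, fun a x => ?_⟩
    rw [WithLp.prod_norm_eq_of_L1, WithLp.prod_norm_eq_of_L1, one_mul]
    show ‖(0 : ℂ)‖ + ‖x.fst • a + a * x.snd‖ ≤ ‖a‖ * (‖x.fst‖ + ‖x.snd‖)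
    rw [norm_zero, zero_add]
    calc ‖x.fst • a + a * x.snd‖ ≤ ‖x.fst • a‖ + ‖a * x.snd‖ := norm_add_le _ _
      _ ≤ ‖x.fst‖ * ‖a‖ + ‖a‖ * ‖x.snd‖ := add_le_add (norm_smul_le _ _) (norm_mul_le _ _)
      _ = ‖a‖ * (‖x.fst‖ + ‖x.snd‖) := by ring

theorem plusRact_bilin :
    IsBoundedBilinearMap ℂ (fun p : A × WithLp 1 (ℂ × A) => plusRact A p.1 p.2) where
  add_left a b x := by
    apply WithLp.ofLp_injective
    ext
    · simp [plusRact]
    · simp only [plusRact, WithLp.ofLp_add, Prod.snd_add, smul_add, mul_add]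
      abel
  smul_left c a x := by
    apply WithLp.ofLp_injective
    ext
    · simp [plusRact]
    · simp only [plusRact, WithLp.ofLp_smul, Prod.smul_snd, smul_add, mul_smul_comm]
      rw [smul_comm]
  add_right a x y := by
    apply WithLp.ofLp_injective
    ext
    · simp [plusRact]
    · simp only [plusRact, WithLp.ofLp_add, Prod.snd_add, WithLp.add_fst, WithLp.add_snd, add_smul,
        add_mul]
      abel
  smul_right c a x := by
    apply WithLp.ofLp_injective
    ext
    · simp [plusRact]
    · simp only [plusRact, WithLp.ofLp_smul, Prod.smul_snd, WithLp.smul_fst, WithLp.smul_snd,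
        smul_add, smul_mul_assoc, smul_assoc]
  bound := by
    refine ⟨1, one_pos, fun a x => ?_⟩
    rw [WithLp.prod_norm_eq_of_L1, WithLp.prod_norm_eq_of_L1, one_mul]
    show ‖(0 : ℂ)‖ + ‖x.fst • a + x.snd * a‖ ≤ ‖a‖ * (‖x.fst‖ + ‖x.snd‖)
    rw [norm_zero, zero_add]
    calc ‖x.fst • a + x.snd * a‖ ≤ ‖x.fst • a‖ + ‖x.snd * a‖ := norm_add_le _ _
      _ ≤ ‖x.fst‖ * ‖a‖ + ‖x.snd‖ * ‖a‖ := add_le_add (norm_smul_le _ _) (norm_mul_le _ _)
      _ = ‖a‖ * (‖x.fst‖ + ‖x.snd‖) := by ring

omit [IsScalarTower ℂ A A] in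
theorem plus_mul_lact (a b : A) (x : WithLp 1 (ℂ × A)) :
    plusLact A (a * b) x = plusLact A a (plusLact A b x) := by
  apply WithLp.ofLp_injective
  ext
  · simp [plusLact]
  · simp [plusLact, mul_add, mul_assoc, mul_smul_comm]

omit [SMulCommClass ℂ A A] in
theorem plus_mul_ract (a b : A) (x : WithLp 1 (ℂ × A)) :
    plusRact A (a * b) x = plusRact A b (plusRact A a x) := by
  apply WithLp.ofLp_injective
  ext
  · simp [plusRact]
  · simp [plusRact, add_mul, mul_assoc, smul_mul_assoc]

theorem plus_lact_ract (a b : A) (x : WithLp 1 (ℂ × A)) :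
    plusLact A a (plusRact A b x) = plusRact A b (plusLact A a x) := by
  apply WithLp.ofLp_injective
  ext
  · simp [plusLact, plusRact]
  · simp [plusLact, plusRact, mul_add, add_mul, mul_assoc, smul_mul_assoc, mul_smul_comm]

/-- The unitization `A₊ = ℂ ⊕ A`, with the norm `‖(c, b)‖ = |c| + ‖b‖`, as an `A`-bimodule. -/
noncomputable def plusBimodule [CompleteSpace A] : Bimodule A where
  carrier := WithLp 1 (ℂ × A)
  lact := plusLact A
  ract := plusRact A
  left_bounded_bilinear := plusLact_bilin A
  right_bounded_bilinear := plusRact_bilin A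
  mul_lact := plus_mul_lact A
  mul_ract := plus_mul_ract A
  lact_ract := plus_lact_ract A

omit [IsScalarTower ℂ A A] [SMulCommClass ℂ A A] in
/-- The (left) small homological dimension `ds A`: the supremum of `dh_A X` over the irreducible
left Banach `A`-modules `X`. -/
noncomputable def ds : ℕ∞ := ⨆ (X : LeftModule A) (_ : X.Irreducible), X.dh

omit [IsScalarTower ℂ A A] [SMulCommClass ℂ A A] in
/-- The (left) global homological dimension `dg A`: the supremum of `dh_A X` over all left Banach
`A`-modules `X`. -/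
noncomputable def dg : ℕ∞ := ⨆ X : LeftModule A, X.dh

/-- The homological bidimension `db A = dh_{A-A} A₊`. -/
noncomputable def db [CompleteSpace A] : ℕ∞ := (plusBimodule A).dh

end Dimensions

end Pool.Agent.BanachHom
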