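import Pool.Agent.Lib.MP_b3f6df_an.L1

/-!
# Filtered modules and their syzygies
-/

namespace Pool.Agent.MPb3f6df

open LeftMod Filter Topology

variable {A : Type} [NonUnitalNormedRing A] [NormedSpace ℂ A]

/-- the subspace of fixed points of an operator -/
def fixS {X : LeftMod A} (T : X →L[ℂ] X) : Submodule ℂ X where
  carrier := {x | T x = x}
  add_mem' := fun {x y} hx hy => by
    show T (x + y) = x + y
    rw [map_add, hx, hy]
  zero_mem' := map_zero T
  smul_mem' := fun c x hx => by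
    show T (c • x) = c • x
    rw [map_smul, hx]

theorem mem_fixS {X : LeftMod A} (T : X →L[ℂ] X) (x : X) : x ∈ fixS T ↔ T x = x := Iff.rfl

theorem fixS_closed {X : LeftMod A} (T : X →L[ℂ] X) : IsClosed (fixS T : Set X) :=
  isClosed_eq T.continuous continuous_id

/-- A module with a monotone family of projections onto submodules, of bounded variation, such that
the submodules have equivariant generalized limits. -/
structure FiltMod (A : Type) [NonUnitalNormedRing A] [NormedSpace ℂ A] where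
  X : LeftMod A
  E : ℕ → X →L[ℂ] X
  C : ℝ
  C_nonneg : 0 ≤ C
  E_comp : ∀ m n x, E m (E n x) = E (min m n) x
  E_act : ∀ n a x, E n x = x → E n (X.act a x) = X.act a x
  E_norm : ∀ n, ‖E n‖ ≤ C
  E_var : ∀ x N, ∑ n ∈ Finset.range N, ‖E (n + 1) x - E n x‖ ≤ C * ‖x‖
  E_tends : ∀ x, Tendsto (fun n => E n x) atTop (𝓝 x)
  E_lim : ∀ n, IsLim C (X.sub (fixS (E n)) (fixS_closed (E n)) (fun a x hx => E_act n a x hx))

namespace FiltMod

variable (W : FiltMod A)

/-- the submodules -/
def Fil (n : ℕ) : Submodule ℂ W.X := fixS (W.E n)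

theorem Fil_closed (n : ℕ) : IsClosed (W.Fil n : Set W.X) := fixS_closed _

theorem Fil_inv (n : ℕ) : ∀ a : A, ∀ x ∈ W.Fil n, W.X.act a x ∈ W.Fil n :=
  fun a x hx => W.E_act n a x hx

/-- the underlying space of `F(W)` -/
def FS : Submodule ℂ (l1 W.X) := l1subm W.X W.Fil

/-- `F(W)`, the `ℓ¹`-sum of the submodules `Fil n` -/
noncomputable abbrev F : LeftMod A :=
  (l1mod W.X).sub W.FS (l1subm_closed W.X W.Fil W.Fil_closed)
    (l1subm_inv W.X W.Fil W.Fil_inv)

theorem F_lim : IsLim W.C W.F :=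
  IsLim.l1 W.C_nonneg W.X W.Fil W.Fil_closed W.Fil_inv W.E_lim

/-- summation on `ℓ¹` -/
noncomputable def lsum (X : LeftMod A) : l1 X →L[ℂ] X := lp.tsumCLM (𝕜 := ℂ) (α := ℕ) (E := X)

theorem lsum_apply (X : LeftMod A) (f : l1 X) : lsum X f = ∑' n, f n := rfl

theorem l1_summable' {X : LeftMod A} (f : l1 X) : Summable (fun n => f n) :=
  Summable.of_norm (l1_summable f)

theorem lsum_map {X : LeftMod A} (T : X →L[ℂ] X) (f : l1 X) :
    lsum X (l1map T f) = T (lsum X f) := by
  rw [lsum_apply, lsum_apply, T.map_tsum (l1_summable' f)]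
  rfl

theorem lsum_act {X : LeftMod A} (a : A) (f : l1mod X) :
    lsum X ((l1mod X).act a f) = X.act a (lsum X f) := lsum_map (X.act a) f

theorem lsum_single {X : LeftMod A} (m : ℕ) (x : X) :
    lsum X (lp.singleContinuousLinearMap ℂ (fun _ : ℕ => (X : Type)) 1 m x) = x := by
  rw [lsum_apply, tsum_eq_single m]
  · simp
  · intro n hn
    simp [hn]

/-- the augmentation `F(W) → W` -/
noncomputable def aug : W.F →L[ℂ] W.X := (lsum W.X).comp (W.FS.subtypeL)

theorem aug_hom : IsHom W.aug := fun a f => lsum_act a f.1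

theorem aug_apply (f : W.F) : W.aug f = ∑' n, f.1 n := rfl

/-- the linear section of `aug` -/
theorem aug_section : ∃ s : W.X →L[ℂ] W.F, ∀ x, W.aug (s x) = x := by
  let s0 : W.X → ℕ → W.X := fun x n => Nat.casesOn n (W.E 0 x) (fun n => W.E (n + 1) x - W.E n x)
  have hs00 : ∀ x, s0 x 0 = W.E 0 x := fun x => rfl
  have hs01 : ∀ x n, s0 x (n + 1) = W.E (n + 1) x - W.E n x := fun x n => rfl
  have hb : ∀ x (N : ℕ), ∑ n ∈ Finset.range N, ‖s0 x n‖ ≤ (W.C + W.C) * ‖x‖ := by
    intro x N
    have h1 : ∑ n ∈ Finset.range N, ‖s0 x n‖ ≤ ∑ n ∈ Finset.range (N + 1), ‖s0 x n‖ :=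
      Finset.sum_le_sum_of_subset_of_nonneg (Finset.range_mono (Nat.le_succ N))
        (fun _ _ _ => norm_nonneg _)
    refine h1.trans ?_
    rw [Finset.sum_range_succ']
    have h2 : ‖s0 x 0‖ ≤ W.C * ‖x‖ := (W.E 0).le_of_opNorm_le (W.E_norm 0) x
    have h3 := W.E_var x N
    have h4 : ∑ n ∈ Finset.range N, ‖s0 x (n + 1)‖ =
      ∑ n ∈ Finset.range N, ‖W.E (n + 1) x - W.E n x‖ := rfl
    rw [h4]
    linarith
  have hsm : ∀ x, Summable (fun n => ‖s0 x n‖) := fun x =>
    summable_of_sum_range_le (fun n => norm_nonneg _) (hb x)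
  have hmem : ∀ x n, s0 x n ∈ W.Fil n := by
    intro x n
    cases n with
    | zero =>
      show W.E 0 (W.E 0 x) = W.E 0 x
      rw [W.E_comp, min_self]
    | succ n =>
      show W.E (n + 1) (W.E (n + 1) x - W.E n x) = W.E (n + 1) x - W.E n x
      rw [map_sub, W.E_comp, W.E_comp, min_self, min_eq_right (Nat.le_succ n)]
  let s1 : W.X →L[ℂ] W.F := LinearMap.mkContinuous
    { toFun := fun x => ⟨l1mk (s0 x) (hsm x), hmem x⟩
      map_add' := fun x y => by
        apply Subtype.ext
        ext n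
        show s0 (x + y) n = s0 x n + s0 y n
        cases n with
        | zero => simp [hs00]
        | succ n => simp [hs01]; abel
      map_smul' := fun c x => by
        apply Subtype.ext
        ext n
        show s0 (c • x) n = c • s0 x n
        cases n with
        | zero => simp [hs00]
        | succ n => simp [hs01, smul_sub] } (W.C + W.C)
      (fun x => by
        show ‖l1mk (s0 x) (hsm x)‖ ≤ _
        rw [l1_norm]
        exact Real.tsum_le_of_sum_range_le (fun n => norm_nonneg _) (hb x))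
  refine ⟨s1, fun x => ?_⟩
  rw [aug_apply]
  have h1 : HasSum (fun n => s0 x n) (∑' n, s0 x n) := (Summable.of_norm (hsm x)).hasSum
  have h2 := h1.tendsto_sum_nat
  have h3 : ∀ N, ∑ n ∈ Finset.range (N + 1), s0 x n = W.E N x := by
    intro N
    rw [Finset.sum_range_succ']
    have : ∑ k ∈ Finset.range N, s0 x (k + 1) = W.E N x - W.E 0 x := by
      rw [← Finset.sum_range_sub (fun n => W.E n x) N]
    rw [this, hs00]
    abel
  have h4 := (tendsto_add_atTop_iff_nat 1).2 h2
  simp only [h3] at h4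
  exact tendsto_nhds_unique h4 (W.E_tends x)

/-- the space of the first syzygy -/
def NS : Submodule ℂ (l1 W.X) where
  carrier := {f | (∀ n, W.E n (f n) = f n) ∧ lsum W.X f = 0}
  add_mem' := fun {f g} hf hg => ⟨fun n => by
    show W.E n (f n + g n) = f n + g n
    rw [map_add, hf.1, hg.1], by rw [map_add, hf.2, hg.2, add_zero]⟩
  zero_mem' := ⟨fun n => map_zero _, map_zero _⟩
  smul_mem' := fun c f hf => ⟨fun n => by
    show W.E n (c • f n) = c • f n
    rw [map_smul, hf.1], by rw [map_smul, hf.2, smul_zero]⟩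

theorem NS_closed : IsClosed (W.NS : Set (l1 W.X)) := by
  have : (W.NS : Set (l1 W.X)) = (W.FS : Set (l1 W.X)) ∩ (lsum W.X) ⁻¹' {0} := rfl
  rw [this]
  exact (l1subm_closed W.X W.Fil W.Fil_closed).inter
    (isClosed_singleton.preimage (lsum W.X).continuous)

theorem NS_inv (a : A) (f : l1 W.X) (hf : f ∈ W.NS) : (l1mod W.X).act a f ∈ W.NS :=
  ⟨fun n => W.E_act n a _ (hf.1 n), by
    rw [lsum_act, hf.2, map_zero]⟩

/-- the first syzygy -/
noncomputable abbrev N : LeftMod A := (l1mod W.X).sub W.NS W.NS_closed W.NS_inv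

/-- the operators `E m` applied coordinatewise -/
noncomputable def NE (m : ℕ) : W.N →L[ℂ] W.N :=
  ContinuousLinearMap.codRestrict ((l1map (W.E m)).comp (W.NS.subtypeL)) W.NS (fun f =>
    ⟨fun n => by
      show W.E n (W.E m (f.1 n)) = W.E m (f.1 n)
      rw [W.E_comp, min_comm, ← W.E_comp, f.2.1 n],
     by
      show lsum W.X (l1map (W.E m) f.1) = 0
      rw [lsum_map, f.2.2, map_zero]⟩)

theorem NE_apply (m : ℕ) (f : W.N) (n : ℕ) : (W.NE m f).1 n = W.E m (f.1 n) := rfl

theorem NE_act (m : ℕ) (a : A) (f : W.N) (hf : W.NE m f = f) :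
    W.NE m (W.N.act a f) = W.N.act a f := by
  apply Subtype.ext
  ext n
  show W.E m (W.X.act a (f.1 n)) = W.X.act a (f.1 n)
  apply W.E_act
  have : (W.NE m f).1 n = f.1 n := by rw [hf]
  exact this

end FiltMod

end Pool.Agent.MPb3f6df
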