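import Pool.Agent.Lib.MP_b3f6df_an.Base

/-!
# The initial filtered module and the non-lifting argument
-/

set_option maxSynthPendingDepth 3

namespace Pool.Agent.MPb3f6df

open LeftMod Filter Topology

variable {A : Type} [NonUnitalNormedRing A] [NormedSpace ℂ A]
  [IsScalarTower ℂ A A] [SMulCommClass ℂ A A]

namespace AlgData

variable (D : AlgData A)

/-- the initial module -/
noncomputable abbrev M0 : LeftMod A := (BDmod A).sub D.W0 D.W0_closed D.W0_inv

/-- the operators on the initial module -/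
noncomputable def E0 (n : ℕ) : D.M0 →L[ℂ] D.M0 :=
  ContinuousLinearMap.codRestrict ((D.Q n).comp D.W0.subtypeL) D.W0 (fun F => by
    show D.Q n F.1 ∈ D.W0
    rw [mem_W0]
    have h1 : ∀ k, n ≤ k → D.Q k (D.Q n F.1) = D.Q n F.1 := by
      intro k hk
      rw [D.Q_comp, min_eq_right hk]
    refine Tendsto.congr' ?_ tendsto_const_nhds
    filter_upwards [eventually_ge_atTop n] with k hk
    exact (h1 k hk).symm)

theorem E0_apply (n : ℕ) (F : D.M0) : (D.E0 n F).1 = D.Q n F.1 := rfl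

theorem E0_act (n : ℕ) (a : A) (F : D.M0) (hF : D.E0 n F = F) :
    D.E0 n (D.M0.act a F) = D.M0.act a F := by
  apply Subtype.ext
  show D.Q n (bd (Lm a) F.1) = bd (Lm a) F.1
  exact D.Q_act n a F.1 (congrArg Subtype.val hF)

omit [IsScalarTower ℂ A A] [SMulCommClass ℂ A A] in
theorem mem_W0_of_fix (n : ℕ) (F : BD A) (hF : D.Q n F = F) : F ∈ D.W0 := by
  rw [mem_W0]
  refine Tendsto.congr' ?_ tendsto_const_nhds
  filter_upwards [eventually_ge_atTop n] with k hk
  conv_lhs => rw [← hF]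
  conv_rhs => rw [← hF]
  rw [D.Q_comp, min_eq_right hk]

theorem E0_lim (n : ℕ) : IsLim 1 (D.M0.sub (fixS (D.E0 n)) (fixS_closed (D.E0 n))
    (fun a x hx => D.E0_act n a x hx)) := by
  obtain ⟨L, hL0, hL⟩ := exists_wlim (E := A →L[ℂ] ℂ)
  -- underlying sequences
  let un : (ℕ → fixS (D.E0 n)) → ℕ → BD A := fun u m => (u m).1.1
  have hun : ∀ u, BddSeq u → BddSeq (un u) := fun u hu => hu
  have hfixu : ∀ (u : ℕ → fixS (D.E0 n)) m, D.Q n (un u m) = un u m := fun u m =>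
    congrArg Subtype.val (u m).2
  have hfix : ∀ u : ℕ → fixS (D.E0 n), D.Q n (L (un u)) = L (un u) := by
    intro u
    by_cases hu : BddSeq (un u)
    · ext φ
      refine tendsto_nhds_unique ?_ (hL _ hu φ)
      have h1 := hL _ hu (dm (D.q n) φ)
      have h2 : (fun m => un u m (dm (D.q n) φ)) = fun m => un u m φ := by
        funext m
        have h3 : D.Q n (un u m) φ = un u m φ := by rw [hfixu]
        exact h3
      rw [h2] at h1
      exact h1
    · rw [hL0 _ hu, map_zero]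
  refine ⟨fun u => ⟨⟨L (un u), D.mem_W0_of_fix n _ (hfix u)⟩, Subtype.ext (hfix u)⟩,
    ?_, ?_, ?_, ?_, ?_⟩
  · intro u v hu hv
    apply Subtype.ext
    apply Subtype.ext
    show L (un fun m => u m + v m) = L (un u) + L (un v)
    ext φ
    refine tendsto_nhds_unique (hL _ (hun _ (hu.add hv)) φ) ?_
    exact (hL _ (hun _ hu) φ).add (hL _ (hun _ hv) φ)
  · intro c u hu
    apply Subtype.ext
    apply Subtype.ext
    show L (un fun m => c • u m) = c • L (un u)
    ext φ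
    refine tendsto_nhds_unique (hL _ (hun _ (hu.smul c)) φ) ?_
    exact (hL _ (hun _ hu) φ).const_mul c
  · intro a u hu
    apply Subtype.ext
    apply Subtype.ext
    have hau : BddSeq (fun m => (D.M0.sub (fixS (D.E0 n)) (fixS_closed (D.E0 n))
      (fun a x hx => D.E0_act n a x hx)).act a (u m)) := hu.comp_clm _
    show L (un fun m => (D.M0.sub (fixS (D.E0 n)) (fixS_closed (D.E0 n))
      (fun a x hx => D.E0_act n a x hx)).act a (u m)) = bd (Lm a) (L (un u))
    ext φ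
    refine tendsto_nhds_unique (hL _ (hun _ hau) φ) ?_
    exact hL _ (hun _ hu) (dm (Lm a) φ)
  · intro x
    apply Subtype.ext
    apply Subtype.ext
    show L (un fun _ => x) = x.1.1
    ext φ
    have hx : BddSeq (fun _ : ℕ => x) := ⟨‖x‖, fun _ => le_rfl⟩
    refine tendsto_nhds_unique (hL _ (hun _ hx) φ) ?_
    exact tendsto_const_nhds
  · intro u l hu hl
    show ‖L (un u)‖ ≤ 1 * l
    rw [one_mul]
    have hl0 : 0 ≤ l := ge_of_tendsto hl (Eventually.of_forall fun m => norm_nonneg _)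
    refine ContinuousLinearMap.opNorm_le_bound _ hl0 (fun φ => ?_)
    refine le_of_tendsto_of_tendsto (hL _ (hun _ hu) φ).norm (hl.mul_const ‖φ‖)
      (Eventually.of_forall fun m => ?_)
    exact (un u m).le_opNorm φ

/-- The initial filtered module. -/
noncomputable def filt : FiltMod A where
  X := D.M0
  E := D.E0
  C := 1
  C_nonneg := zero_le_one
  E_comp := fun m n x => Subtype.ext (D.Q_comp m n x.1)
  E_act := D.E0_act
  E_norm := fun n => ContinuousLinearMap.opNorm_le_bound _ zero_le_one (fun F =>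
    (D.Q n).le_of_opNorm_le (D.Q_norm n) F.1)
  E_var := fun x N => by
    rw [one_mul]
    exact D.Q_var x.1 N
  E_tends := fun x => by
    rw [tendsto_subtype_rng]
    exact x.2
  E_lim := D.E0_lim

omit [IsScalarTower ℂ A A] [SMulCommClass ℂ A A] in
theorem JJ_mem (a : A) : JJ A a ∈ D.W0 := by
  rw [mem_W0]
  have h1 : ∀ n, D.Q n (JJ A a) = JJ A (D.q n a) := fun n => rfl
  simp only [h1]
  exact ((JJ A).continuous.tendsto a).comp (D.q_tends a)

/-- the canonical map `A → M0` -/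
noncomputable def jj : A →L[ℂ] D.M0 := ContinuousLinearMap.codRestrict (JJ A) D.W0 D.JJ_mem

theorem jj_mul (a b : A) : D.jj (a * b) = D.M0.act a (D.jj b) := rfl

/-- There is no element of `M0` acting like minus the identity. -/
theorem no_unit (w : D.M0) (hw : ∀ a, D.jj a = - D.M0.act a w) : False := by
  obtain ⟨r, hr⟩ := D.e_bdd
  have hr0 : 0 ≤ r := (norm_nonneg _).trans (hr 0)
  have hc := D.c_pos
  obtain ⟨n, hn⟩ := (D.mem_W0_iff w.1).1 w.2 (D.c / (2 * (r + 1))) (by positivity)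
  obtain ⟨m, hm⟩ := D.e_away n
  have h1 : JJ A (D.e m) = - bd (Lm (D.e m)) w.1 := congrArg Subtype.val (hw (D.e m))
  have h2 : D.Q n (bd (Lm (D.e m)) (D.Q n w.1)) = bd (Lm (D.e m)) (D.Q n w.1) :=
    D.Q_act n _ _ (by rw [D.Q_comp, min_self])
  have h3 : JJ A (D.e m - D.q n (D.e m)) =
      D.Q n (bd (Lm (D.e m)) (w.1 - D.Q n w.1)) + bd (Lm (D.e m)) (D.Q n w.1 - w.1) := by
    have h4 : JJ A (D.q n (D.e m)) = D.Q n (JJ A (D.e m)) := rfl
    rw [map_sub, h4, h1]
    simp only [map_sub, map_neg]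
    rw [h2]
    abel
  have h5 : ∀ G : BD A, ‖bd (Lm (D.e m)) G‖ ≤ r * ‖G‖ := fun G =>
    (bd (Lm (D.e m))).le_of_opNorm_le (((bd_norm _).trans (Lm_norm _)).trans (hr m)) G
  have h6 : D.c ≤ 2 * r * ‖D.Q n w.1 - w.1‖ := by
    calc D.c ≤ ‖D.e m - D.q n (D.e m)‖ := hm
      _ = ‖JJ A (D.e m - D.q n (D.e m))‖ := (JJ_norm _).symm
      _ ≤ ‖D.Q n (bd (Lm (D.e m)) (w.1 - D.Q n w.1))‖ + ‖bd (Lm (D.e m)) (D.Q n w.1 - w.1)‖ := by
          rw [h3]
          exact norm_add_le _ _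
      _ ≤ 1 * ‖bd (Lm (D.e m)) (w.1 - D.Q n w.1)‖ + ‖bd (Lm (D.e m)) (D.Q n w.1 - w.1)‖ := by
          gcongr
          exact (D.Q n).le_of_opNorm_le (D.Q_norm n) _
      _ ≤ 1 * (r * ‖w.1 - D.Q n w.1‖) + r * ‖D.Q n w.1 - w.1‖ := by
          gcongr
          · exact h5 _
          · exact h5 _
      _ = 2 * r * ‖D.Q n w.1 - w.1‖ := by
          rw [norm_sub_rev w.1]
          ring
  have h7 : 2 * r * ‖D.Q n w.1 - w.1‖ < D.c := by
    calc 2 * r * ‖D.Q n w.1 - w.1‖ ≤ 2 * (r + 1) * ‖D.Q n w.1 - w.1‖ := by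
          gcongr
          linarith
      _ < 2 * (r + 1) * (D.c / (2 * (r + 1))) := by gcongr
      _ = D.c := by field_simp
  linarith

end AlgData

omit [IsScalarTower ℂ A A] [SMulCommClass ℂ A A] in
/-- `E1` for modules which are one-dimensional modulo `N` -/
theorem E1_of_aug (D : AlgData A) (X : LeftMod A) (N : Submodule ℂ X) (x0 : X) (χ : X →L[ℂ] ℂ)
    (hχa : ∀ a x, χ (X.act a x) = 0) (hχN : ∀ x ∈ N, χ x = 0)
    (hN : ∀ x, x - χ x • x0 ∈ N) (hx0 : ∀ a, X.act a x0 ∈ N)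
    (U : LeftMod A) (C : ℝ) (_ : 0 ≤ C) (hU : IsLim C U) : E1 X N U := by
  obtain ⟨L, h1, h2, h3, h4, h5⟩ := hU
  intro T hTN hT
  have hTx : ∀ x, T x = χ x • T x0 := by
    intro x
    have := hTN _ (hN x)
    rw [map_sub, sub_eq_zero, map_smul] at this
    exact this
  have hτ : ∀ a b, T x0 (a * b) = U.act a (T x0 b) := by
    intro a b
    have := hT x0 a b
    rw [hTN _ (hx0 b)] at this
    have h6 : (0 : A →L[ℂ] U) a = 0 := rfl
    rw [h6] at this
    exact (sub_eq_zero.1 this.symm)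
  have hbd : BddSeq (fun m => T x0 (D.e m)) := D.e_bdd.comp_clm (T x0)
  set u : U := L (fun m => T x0 (D.e m)) with hu
  have hau : ∀ a, U.act a u = T x0 a := by
    intro a
    rw [hu, ← h3 a _ hbd]
    refine lim_of_tendsto h1 h4 h5 _ _ (hbd.comp_clm (U.act a)) ?_
    have h7 : Tendsto (fun m => T x0 (a * D.e m)) atTop (𝓝 (T x0 a)) :=
      ((T x0).continuous.tendsto a).comp (D.e_unit a)
    simpa only [hτ] using h7
  refine ⟨-(χ.smulRight u), ?_, ?_⟩
  · intro x hx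
    rw [neg_apply, ContinuousLinearMap.smulRight_apply, hχN x hx, zero_smul, neg_zero]
  · intro x a
    rw [neg_apply, neg_apply, ContinuousLinearMap.smulRight_apply,
      ContinuousLinearMap.smulRight_apply, hχa, zero_smul, neg_zero, map_neg, sub_neg_eq_add,
      zero_add, map_smul, hau, hTx x]
    rfl

/-- The abstract non-finiteness theorem. -/
theorem not_finPD (D : AlgData A) (X : LeftMod A) (N : Submodule ℂ X) (x0 : X) (χ : X →L[ℂ] ℂ)
    (hχ0 : χ x0 = 1) (hχa : ∀ a x, χ (X.act a x) = 0) (hχN : ∀ x ∈ N, χ x = 0)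
    (hN : ∀ x, x - χ x • x0 ∈ N) (hx0 : ∀ a, X.act a x0 ∈ N) (n : ℕ) : ¬ FinPD n X N := by
  intro hpd
  obtain ⟨W, j, hj, hjno⟩ : ∃ (W : FiltMod A) (j : A →L[ℂ] W.X),
      (∀ a b, j (a * b) = W.X.act a (j b)) ∧ (∀ w : W.X, (∀ a, j a = - W.X.act a w) → False) :=
    ⟨D.filt, D.jj, D.jj_mul, D.no_unit⟩
  let j' : Sig W.X := j
  have hj' : ∀ a, (Sig W.X).act a j' = 0 := by
    intro a
    apply ContinuousLinearMap.ext
    intro b
    show j (b * a) - W.X.act b (j a) = 0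
    rw [hj, sub_self]
  let φ : X →L[ℂ] Sig W.X := χ.smulRight j'
  have hφ : ∀ x, φ x = χ x • j' := fun x => rfl
  obtain ⟨Φ, hΦ, hΦN, hqΦ⟩ := main_lift n X N
    (fun U C hC hU => E1_of_aug D X N x0 χ hχa hχN hN hx0 U C hC hU) hpd
    (Coind W.X) (Sig W.X) W (coindKD W) φ
    (fun a x => by
      rw [hφ, hχa, zero_smul, hφ, map_smul, hj', smul_zero])
    (fun x hx => by rw [hφ, hχN x hx]; exact zero_smul ℂ j')
  have h1 : ∀ a, (Φ x0).2 a = 0 := by
    intro a
    have h2 : ((Coind W.X).act a (Φ x0)).1 = (Φ x0).2 a := rfl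
    rw [← h2, ← hΦ, hΦN _ (hx0 a)]
    rfl
  apply hjno (Φ x0).1
  intro a
  have h3 : (coindq W.X (Φ x0)) a = (Φ x0).2 a - W.X.act a (Φ x0).1 := rfl
  have h4 : coindq W.X (Φ x0) = j' := by
    have h5 : coindq W.X (Φ x0) = φ x0 := hqΦ x0
    rw [h5, hφ, hχ0, one_smul]
  rw [h4, h1 a, zero_sub] at h3
  exact h3

end Pool.Agent.MPb3f6df
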