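import Pool.Agent.Lib.MP_b3f6df_an.Lim

/-!
# `ℓ¹`-sums
-/

namespace Pool.Agent.MPb3f6df

open LeftMod Filter Topology

/-- the space `ℓ¹(ℕ; E)` -/
abbrev l1 (E : Type) [NormedAddCommGroup E] : Type := lp (fun _ : ℕ => E) 1

section Basics

variable {E : Type} [NormedAddCommGroup E]

theorem l1_norm (f : l1 E) : ‖f‖ = ∑' i, ‖f i‖ := by
  rw [lp.norm_eq_tsum_rpow (by norm_num)]
  simp

theorem l1_summable (f : l1 E) : Summable (fun i => ‖f i‖) := by
  have := (lp.memℓp f).summable (by norm_num)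
  simpa using this

theorem l1_memlp (f : ℕ → E) (hf : Summable (fun i => ‖f i‖)) :
    Memℓp (E := fun _ : ℕ => E) f 1 := by
  rw [memℓp_gen_iff (by norm_num)]
  simpa using hf

/-- constructor -/
def l1mk (f : ℕ → E) (hf : Summable (fun i => ‖f i‖)) : l1 E := ⟨f, l1_memlp f hf⟩

theorem l1mk_apply (f : ℕ → E) (hf : Summable (fun i => ‖f i‖)) (n : ℕ) :
    l1mk f hf n = f n := rfl

theorem l1_norm_apply_le (f : l1 E) (i : ℕ) : ‖f i‖ ≤ ‖f‖ :=
  lp.norm_apply_le_norm (by norm_num) f i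

theorem l1_norm_le {f : l1 E} {C : ℝ} (h : ∀ s : Finset ℕ, ∑ i ∈ s, ‖f i‖ ≤ C) : ‖f‖ ≤ C := by
  rw [l1_norm]
  exact (l1_summable f).tsum_le_of_sum_le h

theorem l1_sum_le (f : l1 E) (s : Finset ℕ) : ∑ i ∈ s, ‖f i‖ ≤ ‖f‖ := by
  rw [l1_norm]
  exact (l1_summable f).sum_le_tsum s (fun i _ => norm_nonneg _)

end Basics

section Maps

variable {E F : Type} [NormedAddCommGroup E] [NormedSpace ℂ E]
  [NormedAddCommGroup F] [NormedSpace ℂ F]

theorem l1map_summable (T : E →L[ℂ] F) (f : l1 E) : Summable (fun i => ‖T (f i)‖) :=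
  Summable.of_nonneg_of_le (fun i => norm_nonneg _) (fun i => T.le_opNorm (f i))
    ((l1_summable f).mul_left ‖T‖)

theorem l1map_norm_le (T : E →L[ℂ] F) (f : l1 E) :
    ‖l1mk (fun i => T (f i)) (l1map_summable T f)‖ ≤ ‖T‖ * ‖f‖ := by
  rw [l1_norm, l1_norm, ← tsum_mul_left]
  exact (l1map_summable T f).tsum_le_tsum (fun i => T.le_opNorm (f i))
    ((l1_summable f).mul_left ‖T‖)

/-- coordinatewise application of a bounded operator -/
noncomputable def l1map (T : E →L[ℂ] F) : l1 E →L[ℂ] l1 F :=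
  LinearMap.mkContinuous
    { toFun := fun f => l1mk (fun i => T (f i)) (l1map_summable T f)
      map_add' := fun f g => by
        ext i
        show T (f i + g i) = T (f i) + T (g i)
        exact map_add _ _ _
      map_smul' := fun c f => by
        ext i
        show T (c • f i) = c • T (f i)
        exact map_smul _ _ _ } ‖T‖ (l1map_norm_le T)

theorem l1map_apply (T : E →L[ℂ] F) (f : l1 E) (n : ℕ) : l1map T f n = T (f n) := rfl

end Maps

variable {A : Type} [NonUnitalNormedRing A] [NormedSpace ℂ A]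

/-- The `ℓ¹`-sum of countably many copies of `X`. -/
noncomputable abbrev l1mod (X : LeftMod A) : LeftMod A :=
  ofBil (l1 X) (fun a f => l1map (X.act a) f)
    (fun a b f => by ext i; simp [l1map_apply])
    (fun c a f => by ext i; simp [l1map_apply])
    (fun a f g => map_add _ _ _) (fun c a f => map_smul _ _ _)
    ‖X.act‖ (fun a f => by
      refine ((l1map (X.act a)).le_opNorm f).trans ?_
      gcongr
      refine (LinearMap.mkContinuous_norm_le _ (norm_nonneg _) _).trans (X.act.le_opNorm a))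
    (fun a b f => by ext i; simp [l1map_apply, X.act_mul])

theorem l1mod_act (X : LeftMod A) (a : A) (f : l1mod X) (n : ℕ) :
    ((show l1 X from (l1mod X).act a f) : ℕ → X) n = X.act a ((show l1 X from f) n) := rfl

/-- A coordinatewise submodule -/
def l1subm (X : LeftMod A) (S : ℕ → Submodule ℂ X) : Submodule ℂ (l1 X) where
  carrier := {f | ∀ n, f n ∈ S n}
  add_mem' := fun {f g} hf hg n => (S n).add_mem (hf n) (hg n)
  zero_mem' := fun n => (S n).zero_mem
  smul_mem' := fun c f hf n => (S n).smul_mem c (hf n)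

theorem l1_cont_apply {E : Type} [NormedAddCommGroup E] (n : ℕ) :
    Continuous (fun f : l1 E => f n) :=
  (lp.lipschitzWith_one_eval (E := fun _ : ℕ => E) 1 n).continuous

theorem l1subm_closed (X : LeftMod A) (S : ℕ → Submodule ℂ X)
    (hS : ∀ n, IsClosed (S n : Set X)) : IsClosed (l1subm X S : Set (l1 X)) := by
  have : (l1subm X S : Set (l1 X)) = ⋂ n, (fun f : l1 X => f n) ⁻¹' (S n : Set X) := by
    ext f
    simp only [Set.mem_iInter]
    rfl
  rw [this]
  exact isClosed_iInter fun n => (hS n).preimage (l1_cont_apply n)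

theorem l1subm_inv (X : LeftMod A) (S : ℕ → Submodule ℂ X)
    (hS : ∀ n, ∀ a : A, ∀ x ∈ S n, X.act a x ∈ S n) :
    ∀ a : A, ∀ f ∈ l1subm X S, (l1mod X).act a f ∈ l1subm X S :=
  fun a f hf n => hS n a _ (hf n)

theorem IsLim.l1 {C : ℝ} (hC : 0 ≤ C) (X : LeftMod A) (S : ℕ → Submodule ℂ X)
    (hcl : ∀ n, IsClosed (S n : Set X)) (hinv : ∀ n, ∀ a : A, ∀ x ∈ S n, X.act a x ∈ S n)
    (h : ∀ n, IsLim C (X.sub (S n) (hcl n) (hinv n))) :
    IsLim C ((l1mod X).sub (l1subm X S) (l1subm_closed X S hcl) (l1subm_inv X S hinv)) := by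
  classical
  choose L h1 h2 h3 h4 h5 using h
  -- coordinate sequences
  let co : (ℕ → l1subm X S) → (n : ℕ) → ℕ → S n := fun w n m => ⟨(w m).1 n, (w m).2 n⟩
  have hco : ∀ w n, BddSeq w → BddSeq (E := S n) (co w n) := by
    intro w n hw
    obtain ⟨r, hr⟩ := hw
    exact ⟨r, fun m => (l1_norm_apply_le (w m).1 n).trans (hr m)⟩
  have key : ∀ (w : ℕ → l1subm X S) (l : ℝ), BddSeq w → Tendsto (fun m => ‖w m‖) UU (𝓝 l) →
      ∀ s : Finset ℕ, ∑ n ∈ s, ‖((L n (co w n) : S n) : X)‖ ≤ C * l := by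
    intro w l hw hl s
    have h6 : ∀ n, ∃ r : ℝ, Tendsto (fun m => ‖co w n m‖) UU (𝓝 r) :=
      fun n => exists_ulim_norm (co w n) (hco w n hw)
    choose r hr using h6
    have h7 : ∑ n ∈ s, r n ≤ l := by
      refine le_of_tendsto_of_tendsto (tendsto_finsetSum s (fun n _ => hr n)) hl
        (Eventually.of_forall fun m => ?_)
      exact l1_sum_le (w m).1 s
    calc ∑ n ∈ s, ‖((L n (co w n) : S n) : X)‖ ≤ ∑ n ∈ s, C * r n :=
          Finset.sum_le_sum fun n _ => h5 n (co w n) (r n) (hco w n hw) (hr n)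
      _ = C * ∑ n ∈ s, r n := by rw [Finset.mul_sum]
      _ ≤ C * l := by gcongr
  obtain ⟨Lf, hLf⟩ : ∃ Lf : (ℕ → l1subm X S) → l1subm X S,
      ∀ w, BddSeq w → ∀ n, (Lf w).1 n = (L n (co w n) : S n) := by
    refine ⟨fun w => if hw : BddSeq w then
      ⟨l1mk (fun n => ((L n (co w n) : S n) : X))
        (summable_of_sum_le (fun n => norm_nonneg _)
          (key w _ hw (exists_ulim_norm w hw).choose_spec)),
        fun n => (L n (co w n) : S n).2⟩ else 0, ?_⟩
    intro w hw n
    simp only [dif_pos hw]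
    rfl
  refine ⟨Lf, ?_, ?_, ?_, ?_, ?_⟩
  · intro u v hu hv
    have huv : BddSeq (fun m => u m + v m) := hu.add hv
    apply Subtype.ext
    ext n
    show (Lf (fun m => u m + v m)).1 n = (Lf u).1 n + (Lf v).1 n
    rw [hLf _ huv, hLf _ hu, hLf _ hv]
    have := h1 n (co u n) (co v n) (hco u n hu) (hco v n hv)
    exact congrArg Subtype.val this
  · intro c u hu
    have hcu : BddSeq (fun m => c • u m) := hu.smul c
    apply Subtype.ext
    ext n
    show (Lf (fun m => c • u m)).1 n = c • (Lf u).1 n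
    rw [hLf _ hcu, hLf _ hu]
    have := h2 n c (co u n) (hco u n hu)
    exact congrArg Subtype.val this
  · intro a u hu
    have hau := hu.comp_clm
      (((l1mod X).sub (l1subm X S) (l1subm_closed X S hcl) (l1subm_inv X S hinv)).act a)
    apply Subtype.ext
    ext n
    show (Lf (fun m => ((l1mod X).sub (l1subm X S) (l1subm_closed X S hcl)
      (l1subm_inv X S hinv)).act a (u m))).1 n = X.act a ((Lf u).1 n)
    rw [hLf _ hau, hLf _ hu]
    have := h3 n a (co u n) (hco u n hu)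
    exact congrArg Subtype.val this
  · intro x
    have hx : BddSeq (fun _ : ℕ => x) := ⟨‖x‖, fun _ => le_rfl⟩
    apply Subtype.ext
    ext n
    rw [hLf _ hx]
    have := h4 n ⟨x.1 n, x.2 n⟩
    exact congrArg Subtype.val this
  · intro u l hu hl
    refine l1_norm_le fun s => ?_
    calc ∑ n ∈ s, ‖(Lf u).1 n‖ = ∑ n ∈ s, ‖((L n (co u n) : S n) : X)‖ := by
          refine Finset.sum_congr rfl fun n _ => ?_
          rw [hLf _ hu]
      _ ≤ C * l := key u l hu hl s

end Pool.Agent.MPb3f6df
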