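import Pool.Agent.Lib.MP_b3f6df_an.Proj

/-!
# Modules with an equivariant generalized limit
-/

namespace Pool.Agent.MPb3f6df

open LeftMod Filter Topology

/-- a fixed free ultrafilter on the natural numbers -/
noncomputable def UU : Ultrafilter ℕ := hyperfilter ℕ

theorem UU_le : (UU : Filter ℕ) ≤ atTop := by
  rw [← Nat.cofinite_eq_atTop]
  exact hyperfilter_le_cofinite

/-- bounded sequences -/
def BddSeq {E : Type} [NormedAddCommGroup E] (u : ℕ → E) : Prop := ∃ r : ℝ, ∀ m, ‖u m‖ ≤ r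

theorem exists_ulim {E : Type} [NormedAddCommGroup E] [ProperSpace E] (u : ℕ → E)
    (hu : BddSeq u) : ∃ l, Tendsto u UU (𝓝 l) := by
  obtain ⟨r, hr⟩ := hu
  have hK : IsCompact (Metric.closedBall (0 : E) r) := isCompact_closedBall 0 r
  have h := hK.ultrafilter_le_nhds (UU.map u) (by
    rw [le_principal_iff]
    show u ⁻¹' (Metric.closedBall (0 : E) r) ∈ (UU : Filter ℕ)
    have : u ⁻¹' (Metric.closedBall (0 : E) r) = Set.univ := by
      ext m
      simp [hr m]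
    rw [this]
    exact univ_mem)
  obtain ⟨x, _, hx⟩ := h
  exact ⟨x, hx⟩

theorem exists_ulim_norm {E : Type} [NormedAddCommGroup E] (u : ℕ → E)
    (hu : BddSeq u) : ∃ l : ℝ, Tendsto (fun m => ‖u m‖) UU (𝓝 l) := by
  obtain ⟨r, hr⟩ := hu
  exact exists_ulim (fun m => ‖u m‖) ⟨r, fun m => by rw [norm_norm]; exact hr m⟩

variable {A : Type} [NonUnitalNormedRing A] [NormedSpace ℂ A]

/-- `U` has an equivariant generalized limit of norm at most `C` -/
def IsLim (C : ℝ) (U : LeftMod A) : Prop :=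
  ∃ L : (ℕ → U) → U,
    (∀ u v, BddSeq u → BddSeq v → L (fun m => u m + v m) = L u + L v) ∧
    (∀ (c : ℂ) u, BddSeq u → L (fun m => c • u m) = c • L u) ∧
    (∀ (a : A) u, BddSeq u → L (fun m => U.act a (u m)) = U.act a (L u)) ∧
    (∀ x, L (fun _ => x) = x) ∧
    (∀ u l, BddSeq u → Tendsto (fun m => ‖u m‖) UU (𝓝 l) → ‖L u‖ ≤ C * l)

theorem BddSeq.comp_clm {E F : Type} [NormedAddCommGroup E] [NormedSpace ℂ E]
    [NormedAddCommGroup F] [NormedSpace ℂ F] {u : ℕ → E} (hu : BddSeq u) (f : E →L[ℂ] F) :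
    BddSeq (fun m => f (u m)) := by
  obtain ⟨r, hr⟩ := hu
  refine ⟨‖f‖ * r, fun m => (f.le_opNorm _).trans ?_⟩
  gcongr
  exact hr m

theorem BddSeq.add {E : Type} [NormedAddCommGroup E] {u v : ℕ → E} (hu : BddSeq u)
    (hv : BddSeq v) : BddSeq (fun m => u m + v m) := by
  obtain ⟨r, hr⟩ := hu
  obtain ⟨s, hs⟩ := hv
  exact ⟨r + s, fun m => (norm_add_le _ _).trans (add_le_add (hr m) (hs m))⟩

theorem BddSeq.smul {E : Type} [NormedAddCommGroup E] [NormedSpace ℂ E] {u : ℕ → E}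
    (hu : BddSeq u) (c : ℂ) : BddSeq (fun m => c • u m) := by
  obtain ⟨r, hr⟩ := hu
  refine ⟨‖c‖ * r, fun m => ?_⟩
  rw [norm_smul]
  gcongr
  exact hr m

theorem IsLim.mono {C C' : ℝ} {U : LeftMod A} (h : IsLim C U) (hC : C ≤ C') : IsLim C' U := by
  obtain ⟨L, h1, h2, h3, h4, h5⟩ := h
  refine ⟨L, h1, h2, h3, h4, fun u l hu hl => (h5 u l hu hl).trans ?_⟩
  have : 0 ≤ l := ge_of_tendsto hl (Eventually.of_forall fun m => norm_nonneg _)
  gcongr

/-- A generalized limit respects norm convergence. -/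
theorem lim_of_tendsto {C : ℝ} {U : LeftMod A} {L : (ℕ → U) → U}
    (h1 : ∀ u v, BddSeq u → BddSeq v → L (fun m => u m + v m) = L u + L v)
    (h4 : ∀ x, L (fun _ => x) = x)
    (h5 : ∀ u l, BddSeq u → Tendsto (fun m => ‖u m‖) UU (𝓝 l) → ‖L u‖ ≤ C * l)
    (u : ℕ → U) (x : U) (hu : BddSeq u) (hx : Tendsto u atTop (𝓝 x)) : L u = x := by
  have hb : BddSeq (fun m => u m - x) := by
    obtain ⟨r, hr⟩ := hu
    exact ⟨r + ‖x‖, fun m => (norm_sub_le _ _).trans (by gcongr; exact hr m)⟩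
  have h6 : L u = L (fun m => u m - x) + L (fun _ => x) := by
    rw [← h1 _ _ hb ⟨‖x‖, fun _ => le_rfl⟩]
    congr 1
    ext m
    simp
  have h7 : Tendsto (fun m => ‖u m - x‖) UU (𝓝 0) := by
    have : Tendsto (fun m => ‖u m - x‖) atTop (𝓝 0) := by
      rw [← tendsto_zero_iff_norm_tendsto_zero]
      simpa using hx.sub_const x
    exact this.mono_left UU_le
  have h8 := h5 _ 0 hb h7
  rw [mul_zero, norm_le_zero_iff] at h8
  rw [h6, h8, h4, zero_add]

theorem IsLim.retract {C : ℝ} {U V : LeftMod A} (h : IsLim C U) (hC : 0 ≤ C) (i : V →L[ℂ] U)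
    (p : U →L[ℂ] V) (hi : IsHom i) (hp : IsHom p) (hpi : ∀ v, p (i v) = v) {c : ℝ}
    (hin : ‖i‖ ≤ 1) (hpn : ‖p‖ ≤ c) : IsLim (c * C) V := by
  obtain ⟨L, h1, h2, h3, h4, h5⟩ := h
  have hc : 0 ≤ c := (norm_nonneg _).trans hpn
  refine ⟨fun u => p (L (fun m => i (u m))), ?_, ?_, ?_, ?_, ?_⟩
  · intro u v hu hv
    rw [← map_add, ← h1 _ _ (hu.comp_clm i) (hv.comp_clm i)]
    simp only [map_add]
  · intro c u hu
    rw [← map_smul, ← h2 _ _ (hu.comp_clm i)]
    simp only [map_smul]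
  · intro a u hu
    rw [← hp, ← h3 _ _ (hu.comp_clm i)]
    show p (L fun m => i (V.act a (u m))) = p (L fun m => U.act a (i (u m)))
    congr 2
    funext m
    exact hi _ _
  · intro x
    show p (L fun _ => i x) = x
    rw [h4, hpi]
  · intro u l hu hl
    obtain ⟨l', hl'⟩ := exists_ulim_norm (fun m => i (u m)) (hu.comp_clm i)
    have hll : l' ≤ l := by
      refine le_of_tendsto_of_tendsto hl' hl (Eventually.of_forall fun m => ?_)
      calc ‖i (u m)‖ ≤ ‖i‖ * ‖u m‖ := i.le_opNorm _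
        _ ≤ 1 * ‖u m‖ := by gcongr
        _ = ‖u m‖ := one_mul _
    have h6 := h5 _ l' (hu.comp_clm i) hl'
    calc ‖p (L fun m => i (u m))‖ ≤ ‖p‖ * ‖L fun m => i (u m)‖ := p.le_opNorm _
      _ ≤ c * (C * l) := by
        gcongr
        exact h6.trans (by gcongr)
      _ = c * C * l := by ring

section Sig

variable [IsScalarTower ℂ A A] [SMulCommClass ℂ A A]

theorem IsLim.sig {C : ℝ} {U : LeftMod A} (h : IsLim C U) (hC : 0 ≤ C) : IsLim C (Sig U) := by
  classical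
  obtain ⟨L, h1, h2, h3, h4, h5⟩ := h
  have hev : ∀ (τ : ℕ → (A →L[ℂ] U)) (a : A), BddSeq τ → BddSeq (fun m => τ m a) := by
    intro τ a hτ
    obtain ⟨r, hr⟩ := hτ
    refine ⟨r * ‖a‖, fun m => ((τ m).le_opNorm a).trans ?_⟩
    gcongr
    exact hr m
  have hbd : ∀ (τ : ℕ → (A →L[ℂ] U)) (l : ℝ), BddSeq τ → Tendsto (fun m => ‖τ m‖) UU (𝓝 l) →
      ∀ a, ‖L (fun m => τ m a)‖ ≤ C * l * ‖a‖ := by
    intro τ l hτ hl a
    obtain ⟨l', hl'⟩ := exists_ulim_norm _ (hev τ a hτ)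
    refine (h5 _ l' (hev τ a hτ) hl').trans ?_
    rw [mul_assoc]
    gcongr
    exact le_of_tendsto_of_tendsto hl' (hl.mul_const ‖a‖)
      (Eventually.of_forall fun m => (τ m).le_opNorm a)
  obtain ⟨Lf, hLf⟩ : ∃ Lf : (ℕ → (A →L[ℂ] U)) → (A →L[ℂ] U),
      ∀ τ, BddSeq τ → ∀ a, Lf τ a = L (fun m => τ m a) := by
    refine ⟨fun τ => if hτ : BddSeq τ then
      LinearMap.mkContinuous
        { toFun := fun a => L (fun m => τ m a)
          map_add' := fun a b => by
            simp only [map_add]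
            exact h1 _ _ (hev τ a hτ) (hev τ b hτ)
          map_smul' := fun c a => by
            simp only [map_smul, RingHom.id_apply]
            exact h2 _ _ (hev τ a hτ) }
        (C * (exists_ulim_norm τ hτ).choose)
        (fun a => hbd τ _ hτ (exists_ulim_norm τ hτ).choose_spec a) else 0, ?_⟩
    intro τ hτ a
    simp only [dif_pos hτ]
    rfl
  refine ⟨Lf, ?_, ?_, ?_, ?_, ?_⟩
  · intro u v hu hv
    have huv : BddSeq (fun m => u m + v m) := hu.add hv
    ext a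
    rw [hLf _ huv, add_apply, hLf _ hu, hLf _ hv]
    exact h1 _ _ (hev u a hu) (hev v a hv)
  · intro c u hu
    have hcu : BddSeq (fun m => c • u m) := hu.smul c
    ext a
    rw [hLf _ hcu, smul_apply, hLf _ hu]
    exact h2 _ _ (hev u a hu)
  · intro b u hu
    have hbu : BddSeq (fun m => (Sig U).act b (u m)) := hu.comp_clm ((Sig U).act b)
    ext a
    rw [Sig_act, hLf _ hbu, hLf _ hu, hLf _ hu, ← h3 a _ (hev u b hu)]
    have hb1 := hev u (a * b) hu
    have hb2 : BddSeq (fun m => U.act a (u m b)) := (hev u b hu).comp_clm (U.act a)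
    have hb3 : BddSeq (fun m => ((-1 : ℂ)) • U.act a (u m b)) := hb2.smul _
    have h6 := h1 _ _ hb1 hb3
    rw [h2 _ _ hb2] at h6
    rw [neg_one_smul, ← sub_eq_add_neg] at h6
    rw [← h6]
    congr 1
    funext m
    rw [Sig_act, neg_one_smul, ← sub_eq_add_neg]
  · intro x
    have hx : BddSeq (fun _ : ℕ => x) := ⟨‖x‖, fun _ => le_rfl⟩
    ext a
    rw [hLf _ hx]
    exact h4 _
  · intro u l hu hl
    have hl0 : 0 ≤ l := ge_of_tendsto hl (Eventually.of_forall fun m => norm_nonneg _)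
    refine ContinuousLinearMap.opNorm_le_bound _ (by positivity) (fun a => ?_)
    rw [hLf _ hu]
    exact hbd u l hu hl a

end Sig

end Pool.Agent.MPb3f6df
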