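import Pool.Agent.Lib.MP_b3f6df_an.Filt

/-!
# The syzygy of a filtered module is a filtered module
-/

namespace Pool.Agent.MPb3f6df

open LeftMod Filter Topology

variable {A : Type} [NonUnitalNormedRing A] [NormedSpace ℂ A]

namespace FiltMod

variable (W : FiltMod A)

theorem N_norm (f : W.N) : ‖f‖ = ∑' n, ‖f.1 n‖ := l1_norm f.1

theorem NE_norm (m : ℕ) : ‖W.NE m‖ ≤ W.C := by
  refine ContinuousLinearMap.opNorm_le_bound _ W.C_nonneg (fun f => ?_)
  rw [N_norm, N_norm, ← tsum_mul_left]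
  refine Summable.tsum_le_tsum (fun n => ?_) (l1_summable (W.NE m f).1)
    ((l1_summable f.1).mul_left _)
  rw [NE_apply]
  exact (W.E m).le_of_opNorm_le (W.E_norm m) _

theorem NE_comp (m n : ℕ) (f : W.N) : W.NE m (W.NE n f) = W.NE (min m n) f := by
  apply Subtype.ext
  ext k
  simp only [NE_apply]
  exact W.E_comp m n _

theorem NE_var (f : W.N) (N : ℕ) :
    ∑ k ∈ Finset.range N, ‖W.NE (k + 1) f - W.NE k f‖ ≤ W.C * ‖f‖ := by
  have h1 : ∀ k, ‖W.NE (k + 1) f - W.NE k f‖ = ∑' n, ‖W.E (k + 1) (f.1 n) - W.E k (f.1 n)‖ :=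
    fun k => N_norm W (W.NE (k + 1) f - W.NE k f)
  have hs : ∀ k, Summable (fun n => ‖W.E (k + 1) (f.1 n) - W.E k (f.1 n)‖) :=
    fun k => l1_summable (W.NE (k + 1) f - W.NE k f).1
  simp only [h1]
  rw [← Summable.tsum_finsetSum (fun k _ => hs k), N_norm, ← tsum_mul_left]
  exact Summable.tsum_le_tsum (fun n => W.E_var (f.1 n) N)
    (summable_sum (fun k _ => hs k)) ((l1_summable f.1).mul_left _)

theorem NE_tends (f : W.N) : Tendsto (fun k => W.NE k f) atTop (𝓝 f) := by
  rw [tendsto_iff_norm_sub_tendsto_zero]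
  have h1 : ∀ k, ‖W.NE k f - f‖ = ∑' n, ‖W.E k (f.1 n) - f.1 n‖ :=
    fun k => N_norm W (W.NE k f - f)
  simp only [h1]
  have h2 : (0 : ℝ) = ∑' _ : ℕ, (0 : ℝ) := by simp
  rw [h2]
  refine tendsto_tsum_of_dominated_convergence (bound := fun n => (W.C + 1) * ‖f.1 n‖)
    ((l1_summable f.1).mul_left _) (fun n => ?_) (Eventually.of_forall fun k n => ?_)
  · have h3 := W.E_tends (f.1 n)
    rw [tendsto_iff_norm_sub_tendsto_zero] at h3
    exact h3
  · rw [norm_norm]
    refine (norm_sub_le _ _).trans ?_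
    have h4 := (W.E k).le_of_opNorm_le (W.E_norm k) (f.1 n)
    linarith

/-- auxiliary: the coordinates of `Fil' m` -/
def SS (m : ℕ) (n : ℕ) : Submodule ℂ W.X := W.Fil (min n m)

/-- auxiliary module: the `ℓ¹`-sum of `Fil (min n m)` over `n` -/
noncomputable abbrev UM (m : ℕ) : LeftMod A :=
  (l1mod W.X).sub (l1subm W.X (W.SS m)) (l1subm_closed W.X (W.SS m) (fun _ => W.Fil_closed _))
    (l1subm_inv W.X (W.SS m) (fun _ => W.Fil_inv _))

theorem UM_lim (m : ℕ) : IsLim W.C (W.UM m) :=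
  IsLim.l1 W.C_nonneg W.X (W.SS m) (fun _ => W.Fil_closed _) (fun _ => W.Fil_inv _)
    (fun n => W.E_lim (min n m))

theorem mem_Fil (n : ℕ) (x : W.X) : x ∈ W.Fil n ↔ W.E n x = x := Iff.rfl

theorem Fil_le {m n : ℕ} (h : m ≤ n) {x : W.X} (hx : x ∈ W.Fil m) : x ∈ W.Fil n := by
  rw [mem_Fil] at *
  calc W.E n x = W.E n (W.E m x) := by rw [hx]
    _ = W.E m x := by rw [W.E_comp, min_eq_right h]
    _ = x := hx

/-- the graded pieces of the syzygy -/
noncomputable abbrev NF (m : ℕ) : LeftMod A :=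
  W.N.sub (fixS (W.NE m)) (fixS_closed (W.NE m)) (fun a x hx => W.NE_act m a x hx)

/-- the inclusion -/
noncomputable def ii (m : ℕ) : W.NF m →L[ℂ] W.UM m :=
  ContinuousLinearMap.codRestrict ((W.NS.subtypeL).comp (fixS (W.NE m)).subtypeL)
    (l1subm W.X (W.SS m)) (fun f => by
      intro n
      show W.E (min n m) (f.1.1 n) = f.1.1 n
      have h1 : W.E m (f.1.1 n) = f.1.1 n := by
        have h2 : W.NE m f.1 = f.1 := f.2
        have h3 : (W.NE m f.1).1 n = f.1.1 n := by rw [h2]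
        exact h3
      have h2 : W.E n (f.1.1 n) = f.1.1 n := f.1.2.1 n
      rw [← W.E_comp, h1, h2])

theorem lsum_mem_Fil (m : ℕ) (g : l1 W.X) (hg : g ∈ l1subm W.X (W.SS m)) :
    W.E m (lsum W.X g) = lsum W.X g := by
  rw [← lsum_map]
  congr 1
  ext n
  show W.E m (g n) = g n
  exact W.Fil_le (min_le_right n m) (hg n)

/-- the projection -/
noncomputable def pp (m : ℕ) : W.UM m →L[ℂ] W.NF m :=
  ContinuousLinearMap.codRestrict
    (ContinuousLinearMap.codRestrict
      ((l1subm W.X (W.SS m)).subtypeL -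
        ((lp.singleContinuousLinearMap ℂ (fun _ : ℕ => (W.X : Type)) 1 m).comp
          ((lsum W.X).comp (l1subm W.X (W.SS m)).subtypeL))) W.NS
      (fun g => by
        constructor
        · intro n
          show W.E n (g.1 n - (lp.single 1 m (lsum W.X g.1) : l1 W.X) n) =
            g.1 n - (lp.single 1 m (lsum W.X g.1) : l1 W.X) n
          rw [map_sub]
          have h1 : W.E n (g.1 n) = g.1 n := W.Fil_le (min_le_left n m) (g.2 n)
          have h2 : W.E n ((lp.single 1 m (lsum W.X g.1) : l1 W.X) n) =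
              (lp.single 1 m (lsum W.X g.1) : l1 W.X) n := by
            by_cases hnm : n = m
            · subst hnm
              rw [lp.single_apply_self]
              exact W.lsum_mem_Fil n g.1 g.2
            · rw [lp.single_apply_ne _ _ _ hnm, map_zero]
          rw [h1, h2]
        · show lsum W.X (g.1 - lp.singleContinuousLinearMap ℂ (fun _ : ℕ => (W.X : Type)) 1 m
            (lsum W.X g.1)) = 0
          rw [map_sub, lsum_single, sub_self]))
    (fixS (W.NE m)) (fun g => by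
      apply Subtype.ext
      ext n
      show W.E m (g.1 n - (lp.single 1 m (lsum W.X g.1) : l1 W.X) n) =
            g.1 n - (lp.single 1 m (lsum W.X g.1) : l1 W.X) n
      rw [map_sub]
      have h1 : W.E m (g.1 n) = g.1 n := W.Fil_le (min_le_right n m) (g.2 n)
      have h2 : W.E m ((lp.single 1 m (lsum W.X g.1) : l1 W.X) n) =
          (lp.single 1 m (lsum W.X g.1) : l1 W.X) n := by
        by_cases hnm : n = m
        · subst hnm
          rw [lp.single_apply_self]
          exact W.lsum_mem_Fil n g.1 g.2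
        · rw [lp.single_apply_ne _ _ _ hnm, map_zero]
      rw [h1, h2])

theorem pp_apply (m : ℕ) (g : W.UM m) (n : ℕ) :
    (W.pp m g).1.1 n = g.1 n - (lp.single 1 m (lsum W.X g.1) : l1 W.X) n := rfl

theorem ii_apply (m : ℕ) (f : W.NF m) (n : ℕ) : (W.ii m f).1 n = f.1.1 n := rfl

theorem ii_hom (m : ℕ) : IsHom (W.ii m) := fun a f => rfl

theorem pp_hom (m : ℕ) : IsHom (W.pp m) := by
  intro a g
  apply Subtype.ext
  apply Subtype.ext
  ext n
  rw [pp_apply]
  show W.X.act a (g.1 n) - (lp.single 1 m (lsum W.X ((l1mod W.X).act a g.1)) : l1 W.X) n =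
    W.X.act a (g.1 n - (lp.single 1 m (lsum W.X g.1) : l1 W.X) n)
  rw [lsum_act, map_sub]
  congr 1
  by_cases hnm : n = m
  · subst hnm
    rw [lp.single_apply_self, lp.single_apply_self]
  · rw [lp.single_apply_ne _ _ _ hnm, lp.single_apply_ne _ _ _ hnm, map_zero]

theorem pp_ii (m : ℕ) (f : W.NF m) : W.pp m (W.ii m f) = f := by
  apply Subtype.ext
  apply Subtype.ext
  ext n
  rw [pp_apply, ii_apply]
  have : lsum W.X (W.ii m f).1 = 0 := f.1.2.2
  rw [this]
  simp

theorem ii_norm (m : ℕ) : ‖W.ii m‖ ≤ 1 := by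
  refine ContinuousLinearMap.opNorm_le_bound _ zero_le_one (fun f => ?_)
  rw [one_mul]
  exact le_of_eq rfl

theorem pp_norm (m : ℕ) : ‖W.pp m‖ ≤ 2 := by
  refine ContinuousLinearMap.opNorm_le_bound _ zero_le_two (fun g => ?_)
  show ‖g.1 - lp.singleContinuousLinearMap ℂ (fun _ : ℕ => (W.X : Type)) 1 m
    (lsum W.X g.1)‖ ≤ 2 * ‖g.1‖
  refine (norm_sub_le _ _).trans ?_
  have h1 : ‖lp.singleContinuousLinearMap ℂ (fun _ : ℕ => (W.X : Type)) 1 m
      (lsum W.X g.1)‖ = ‖lsum W.X g.1‖ := lp.norm_single (by norm_num) _ _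
  have h2 : ‖lsum W.X g.1‖ ≤ ‖g.1‖ := lp.norm_tsum_le g.1
  rw [h1]
  linarith

/-- The syzygy as a filtered module. -/
noncomputable def next : FiltMod A where
  X := W.N
  E := W.NE
  C := 2 * W.C
  C_nonneg := by have := W.C_nonneg; positivity
  E_comp := W.NE_comp
  E_act := W.NE_act
  E_norm := fun n => (W.NE_norm n).trans (by have := W.C_nonneg; linarith)
  E_var := fun x N => (W.NE_var x N).trans (by
    have := W.C_nonneg
    gcongr
    linarith)
  E_tends := W.NE_tends
  E_lim := fun m => (W.UM_lim m).retract W.C_nonneg (W.ii m) (W.pp m) (W.ii_hom m) (W.pp_hom m)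
    (W.pp_ii m) (W.ii_norm m) (W.pp_norm m)

/-- inclusion of the syzygy in `F(W)` -/
noncomputable def incN : W.next.X →L[ℂ] W.F :=
  ContinuousLinearMap.codRestrict (W.NS.subtypeL) W.FS (fun f => f.2.1)

theorem incN_hom : IsHom W.incN := fun a f => rfl

theorem incN_apply (f : W.N) : (W.incN f).1 = f.1 := rfl

/-- elements of the kernel of the augmentation come from the syzygy -/
theorem ker_aug (f : W.F) (hf : W.aug f = 0) : (f.1 : l1 W.X) ∈ W.NS := ⟨f.2, hf⟩

end FiltMod

end Pool.Agent.MPb3f6df
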