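import Pool.Agent.Lib.MP_b3f6df_an.Basic

/-!
# Cosyzygies, projectivity and dimension shifting
-/

namespace Pool.Agent.MPb3f6df

open LeftMod

variable {A : Type} [NonUnitalNormedRing A] [NormedSpace ℂ A]

/-- lifting property of projective left modules -/
theorem LeftMod.Projective.lift {P : LeftMod A} (hP : P.Projective) : RelProj P ⊥ := by
  intro F W q hq s hs φ hφ _
  let S : Submodule ℂ (LeftMod.prod F P) :=
    LinearMap.ker (q.comp (ContinuousLinearMap.fst ℂ F P) -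
      φ.comp (ContinuousLinearMap.snd ℂ F P) : (F × P) →L[ℂ] W).toLinearMap
  have hmem : ∀ z : F × P, z ∈ S ↔ q z.1 = φ z.2 := by
    intro z
    show (q.comp (ContinuousLinearMap.fst ℂ F P) -
      φ.comp (ContinuousLinearMap.snd ℂ F P) : (F × P) →L[ℂ] W) z = 0 ↔ _
    simp [sub_eq_zero]
  have hc : IsClosed (S : Set (LeftMod.prod F P)) :=
    (q.comp (ContinuousLinearMap.fst ℂ F P) -
      φ.comp (ContinuousLinearMap.snd ℂ F P) : (F × P) →L[ℂ] W).isClosed_ker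
  have hinv : ∀ a : A, ∀ x ∈ S, (LeftMod.prod F P).act a x ∈ S := by
    intro a x hx
    rw [hmem] at hx
    rw [hmem]
    show q (F.act a x.1) = φ (P.act a x.2)
    rw [hq, hφ, hx]
  let Z := (LeftMod.prod F P).sub S hc hinv
  let f : Z →L[ℂ] P := (ContinuousLinearMap.snd ℂ F P).comp (S.subtypeL : S →L[ℂ] F × P)
  have hf : IsHom f := fun a x => rfl
  have hg : ∃ g : P →L[ℂ] Z, ∀ p, f (g p) = p := by
    refine ⟨ContinuousLinearMap.codRestrict (((s.comp φ).prod (ContinuousLinearMap.id ℂ P)) :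
      P →L[ℂ] F × P) S (fun p => ?_), fun p => rfl⟩
    rw [hmem]
    exact hs _
  obtain ⟨h, hh, hfh⟩ := hP Z f hf hg
  let ιZ : Z →L[ℂ] F := (ContinuousLinearMap.fst ℂ F P).comp (S.subtypeL : S →L[ℂ] F × P)
  have hιZ : IsHom ιZ := fun a x => rfl
  refine ⟨ιZ.comp h, ?_, ?_, ?_⟩
  · intro a x
    simp only [ContinuousLinearMap.comp_apply]
    rw [hh, hιZ]
  · intro x hx
    rw [Submodule.mem_bot] at hx
    rw [hx, map_zero]
  · intro x
    have h1 : q (ιZ (h x)) = φ (f (h x)) := (hmem _).1 (h x).2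
    simp only [ContinuousLinearMap.comp_apply]
    rw [h1, hfh]

variable [IsScalarTower ℂ A A] [SMulCommClass ℂ A A]

/-- right multiplication -/
noncomputable def Rm (b : A) : A →L[ℂ] A := (ContinuousLinearMap.mul ℂ A).flip b

omit [NonUnitalNormedRing A] [NormedSpace ℂ A] [IsScalarTower ℂ A A] [SMulCommClass ℂ A A] in
theorem Rm_apply [NonUnitalNormedRing A] [NormedSpace ℂ A] [IsScalarTower ℂ A A]
    [SMulCommClass ℂ A A] (a b : A) : Rm b a = a * b := rfl

/-- The cosyzygy `Σ U = B(A, U)` with the twisted action `(b · τ)(a) = τ(ab) - a τ(b)`. -/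
noncomputable abbrev Sig (U : LeftMod A) : LeftMod A :=
  ofBil (A →L[ℂ] U) (fun b τ => τ.comp (Rm b) - U.act.flip (τ b))
    (fun a b x => by ext y; simp [Rm_apply, mul_add]; abel)
    (fun c a x => by ext y; simp [Rm_apply, smul_sub, mul_smul_comm])
    (fun a x y => by ext z; simp; abel)
    (fun c a x => by ext y; simp [smul_sub])
    (1 + ‖U.act‖)
    (fun b τ => by
      refine (norm_sub_le _ _).trans ?_
      have h1 : ‖τ.comp (Rm b)‖ ≤ ‖τ‖ * ‖b‖ := by
        refine ContinuousLinearMap.opNorm_le_bound _ (by positivity) (fun a => ?_)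
        rw [ContinuousLinearMap.comp_apply, Rm_apply]
        calc ‖τ (a * b)‖ ≤ ‖τ‖ * ‖a * b‖ := τ.le_opNorm _
          _ ≤ ‖τ‖ * (‖a‖ * ‖b‖) := by gcongr; exact norm_mul_le _ _
          _ = ‖τ‖ * ‖b‖ * ‖a‖ := by ring
      have h2 : ‖U.act.flip (τ b)‖ ≤ ‖U.act‖ * (‖τ‖ * ‖b‖) := by
        refine ContinuousLinearMap.opNorm_le_bound _ (by positivity) (fun a => ?_)
        rw [ContinuousLinearMap.flip_apply]
        calc ‖U.act a (τ b)‖ ≤ ‖U.act‖ * ‖a‖ * ‖τ b‖ := U.act.le_opNorm₂ _ _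
          _ ≤ ‖U.act‖ * ‖a‖ * (‖τ‖ * ‖b‖) := by gcongr; exact τ.le_opNorm _
          _ = ‖U.act‖ * (‖τ‖ * ‖b‖) * ‖a‖ := by ring
      calc ‖τ.comp (Rm b)‖ + ‖U.act.flip (τ b)‖ ≤ ‖τ‖ * ‖b‖ + ‖U.act‖ * (‖τ‖ * ‖b‖) :=
            add_le_add h1 h2
        _ = (1 + ‖U.act‖) * ‖b‖ * ‖τ‖ := by ring)
    (fun a b τ => by
      ext c
      simp only [sub_apply, ContinuousLinearMap.comp_apply, Rm_apply,
        ContinuousLinearMap.flip_apply, U.act_mul, mul_assoc, map_sub]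
      abel)

theorem Sig_act (U : LeftMod A) (b : A) (τ : Sig U) (a : A) :
    ((Sig U).act b τ : A →L[ℂ] U) a = (τ : A →L[ℂ] U) (a * b) - U.act a ((τ : A →L[ℂ] U) b) :=
  rfl

/-- The coinduced module `B(A₊, U) = U × B(A, U)`. -/
noncomputable abbrev Coind (U : LeftMod A) : LeftMod A :=
  ofBil (U × (A →L[ℂ] U)) (fun b p => (p.2 b, p.2.comp (Rm b)))
    (fun a b x => by
      refine Prod.ext ?_ ?_
      · simp
      · ext y; simp [Rm_apply, mul_add])
    (fun c a x => by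
      refine Prod.ext ?_ ?_
      · simp
      · ext y; simp [Rm_apply, mul_smul_comm])
    (fun a x y => by
      refine Prod.ext ?_ ?_
      · simp
      · ext y; simp [Rm_apply])
    (fun c a x => by
      refine Prod.ext ?_ ?_
      · simp
      · ext y; simp [Rm_apply])
    1
    (fun b p => by
      have h0 : ‖p.2‖ ≤ ‖p‖ := norm_snd_le p
      rw [one_mul, Prod.norm_def]
      apply max_le
      · calc ‖p.2 b‖ ≤ ‖p.2‖ * ‖b‖ := p.2.le_opNorm _
          _ ≤ ‖b‖ * ‖p‖ := by rw [mul_comm]; gcongr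
      · refine ContinuousLinearMap.opNorm_le_bound _ (by positivity) (fun a => ?_)
        show ‖p.2 (a * b)‖ ≤ _
        calc ‖p.2 (a * b)‖ ≤ ‖p.2‖ * ‖a * b‖ := p.2.le_opNorm _
          _ ≤ ‖p‖ * (‖a‖ * ‖b‖) := by gcongr; exact norm_mul_le _ _
          _ = ‖b‖ * ‖p‖ * ‖a‖ := by ring)
    (fun a b p => by
      refine Prod.ext ?_ ?_
      · show p.2 (a * b) = p.2.comp (Rm b) a
        rfl
      · ext c
        show p.2 (c * (a * b)) = p.2 ((c * a) * b)
        rw [mul_assoc])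

/-- The quotient map `Coind U → Σ U`. -/
noncomputable def coindq (U : LeftMod A) : Coind U →L[ℂ] Sig U :=
  ((ContinuousLinearMap.snd ℂ U (A →L[ℂ] U)) -
    (U.act.flip).comp (ContinuousLinearMap.fst ℂ U (A →L[ℂ] U)) :
      (U × (A →L[ℂ] U)) →L[ℂ] (A →L[ℂ] U))

theorem coindq_apply (U : LeftMod A) (u : U) (τ : A →L[ℂ] U) (a : A) :
    (coindq U (show Coind U from (u, τ)) : A →L[ℂ] U) a = τ a - U.act a u := rfl

theorem coindq_hom (U : LeftMod A) : IsHom (coindq U) := by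
  rintro b ⟨u, τ⟩
  show (coindq U (show Coind U from (τ b, τ.comp (Rm b))) : A →L[ℂ] U) =
    (Sig U).act b (coindq U (show Coind U from (u, τ)))
  ext a
  rw [coindq_apply, Sig_act]
  show τ (a * b) - U.act a (τ b) = (τ (a * b) - U.act (a * b) u) - U.act a (τ b - U.act b u)
  rw [U.act_mul, map_sub]
  abel

/-- linear section of `coindq` -/
noncomputable def coinds (U : LeftMod A) : Sig U →L[ℂ] Coind U :=
  (ContinuousLinearMap.inr ℂ U (A →L[ℂ] U) : (A →L[ℂ] U) →L[ℂ] U × (A →L[ℂ] U))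

theorem coindq_coinds (U : LeftMod A) (τ : Sig U) : coindq U (coinds U τ) = τ := by
  show (coindq U (show Coind U from (0, τ)) : A →L[ℂ] U) = τ
  ext a
  rw [coindq_apply]
  simp

theorem RelProj.E1 {P : LeftMod A} {N : Submodule ℂ P} (hP : RelProj P N) (U : LeftMod A) :
    E1 P N U := by
  intro D hDN hD
  obtain ⟨Φ, hΦ, hΦN, hqΦ⟩ := hP (Coind U) (Sig U) (coindq U) (coindq_hom U) (coinds U)
    (coindq_coinds U) D (fun b x => by
      show (D (P.act b x) : A →L[ℂ] U) = (Sig U).act b (D x)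
      ext a
      rw [hD, Sig_act]) hDN
  have hΦ2 : ∀ x a, ((Φ x : U × (A →L[ℂ] U)).2) a = (Φ (P.act a x) : U × (A →L[ℂ] U)).1 := by
    intro x a
    rw [hΦ]
    rfl
  refine ⟨(ContinuousLinearMap.fst ℂ U (A →L[ℂ] U)).comp
    (Φ : P →L[ℂ] U × (A →L[ℂ] U)), ?_, ?_⟩
  · intro x hx
    show (Φ x : U × (A →L[ℂ] U)).1 = 0
    rw [hΦN x hx]
    rfl
  · intro x a
    have h1 : (coindq U (Φ x) : A →L[ℂ] U) a = D x a := by rw [hqΦ]
    rw [← h1]
    show ((Φ x : U × (A →L[ℂ] U)).2) a - U.act a ((Φ x : U × (A →L[ℂ] U)).1) = _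
    rw [hΦ2]
    rfl

/-- Claim 1: dimension shift to a syzygy. -/
theorem E1_syzygy {K : LeftMod A} {NK : Submodule ℂ K} {P : LeftMod A} {NP : Submodule ℂ P}
    {X : LeftMod A} {NX : Submodule ℂ X} (S : Ses K NK P NP X NX) (hP : RelProj P NP)
    (U : LeftMod A) (hE : E1 X NX (Sig U)) : E1 K NK U := by
  intro D hDN hD
  obtain ⟨Ψ, hΨ, hΨN, hΨi⟩ := ext_lemma S hE (D : K →L[ℂ] Sig U) (fun b x => by
      show (D (K.act b x) : A →L[ℂ] U) = (Sig U).act b (D x)
      ext a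
      rw [hD, Sig_act]) hDN
  obtain ⟨T, hTN, hT⟩ := hP.E1 U (Ψ : P →L[ℂ] (A →L[ℂ] U)) hΨN (fun x a b => by
    rw [hΨ, Sig_act])
  refine ⟨T.comp S.i, fun x hx => hTN _ (S.i_N _ hx), fun x a => ?_⟩
  have h1 : (Ψ (S.i x) : A →L[ℂ] U) a = D x a := by rw [hΨi]
  rw [← h1, ContinuousLinearMap.comp_apply, ContinuousLinearMap.comp_apply, S.i_hom]
  exact hT _ _

/-- Finite relative projective dimension. -/
def FinPD : ℕ → (X : LeftMod A) → Submodule ℂ X → Prop
  | 0, X, N => RelProj X N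
  | n + 1, X, N => ∃ (K P : LeftMod A) (NK : Submodule ℂ K) (NP : Submodule ℂ P)
      (_ : Ses K NK P NP X N), RelProj P NP ∧ FinPD n K NK

end Pool.Agent.MPb3f6df
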