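import Pool.Agent.Lib.MP_b3f6df_an.Next

/-!
# The main induction
-/

namespace Pool.Agent.MPb3f6df

open LeftMod Filter Topology

variable {A : Type} [NonUnitalNormedRing A] [NormedSpace ℂ A]

/-- An admissible surjection `q : F₀ → W₀` whose kernel is the filtered module `W'`. -/
structure KD (F0 W0 : LeftMod A) (W' : FiltMod A) where
  q : F0 →L[ℂ] W0
  q_hom : IsHom q
  s : W0 →L[ℂ] F0
  q_s : ∀ w, q (s w) = w
  ι : W'.X →L[ℂ] F0
  ι_hom : IsHom ι
  q_ι : ∀ w, q (ι w) = 0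
  ι_inj : ∀ w, ι w = 0 → w = 0
  fac : ∀ (K : LeftMod A) (g : K →L[ℂ] F0), (∀ k, q (g k) = 0) →
    ∃ g' : K →L[ℂ] W'.X, ∀ k, ι (g' k) = g k

/-- the kernel data of `F(W) → W` -/
noncomputable def FiltMod.kd (W : FiltMod A) : KD W.F W.X W.next where
  q := W.aug
  q_hom := W.aug_hom
  s := W.aug_section.choose
  q_s := W.aug_section.choose_spec
  ι := W.incN
  ι_hom := W.incN_hom
  q_ι := fun w => w.2.2
  ι_inj := fun w hw => by
    apply Subtype.ext
    have : (W.incN w).1 = 0 := by rw [hw]; rfl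
    exact this
  fac := fun K g hg => by
    refine ⟨ContinuousLinearMap.codRestrict ((W.FS.subtypeL).comp g) W.NS
      (fun k => W.ker_aug _ (hg k)), fun k => ?_⟩
    rfl

variable [IsScalarTower ℂ A A] [SMulCommClass ℂ A A]

/-- the kernel data of `Coind W → Σ W` -/
noncomputable def coindKD (W : FiltMod A) : KD (Coind W.X) (Sig W.X) W where
  q := coindq W.X
  q_hom := coindq_hom W.X
  s := coinds W.X
  q_s := coindq_coinds W.X
  ι := (ContinuousLinearMap.id ℂ W.X).prod W.X.act.flip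
  ι_hom := fun a w => by
    refine Prod.ext rfl ?_
    ext b
    show W.X.act b (W.X.act a w) = W.X.act (b * a) w
    rw [W.X.act_mul]
  q_ι := fun w => by
    ext a
    show W.X.act a w - W.X.act a w = 0
    rw [sub_self]
  ι_inj := fun w hw => congrArg Prod.fst hw
  fac := fun K g hg => by
    refine ⟨(ContinuousLinearMap.fst ℂ W.X (A →L[ℂ] W.X)).comp g, fun k => ?_⟩
    refine Prod.ext rfl ?_
    ext a
    show W.X.act a (g k).1 = (g k).2 a
    have h1 : (coindq W.X (g k)) a = 0 := by rw [hg k]; rfl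
    have h2 : (coindq W.X (g k)) a = (g k).2 a - W.X.act a (g k).1 := rfl
    rw [h2, sub_eq_zero] at h1
    exact h1.symm

/-- The main lifting theorem. -/
theorem main_lift (n : ℕ) : ∀ (X : LeftMod A) (N : Submodule ℂ X),
    (∀ (U : LeftMod A) (C : ℝ), 0 ≤ C → IsLim C U → E1 X N U) → FinPD n X N →
    ∀ (F0 W0 : LeftMod A) (W' : FiltMod A) (D : KD F0 W0 W') (φ : X →L[ℂ] W0), IsHom φ →
      (∀ x ∈ N, φ x = 0) →
      ∃ Φ : X →L[ℂ] F0, IsHom Φ ∧ (∀ x ∈ N, Φ x = 0) ∧ ∀ x, D.q (Φ x) = φ x := by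
  induction n with
  | zero =>
    intro X N _ hpd F0 W0 W' D φ hφ hN
    exact hpd F0 W0 D.q D.q_hom D.s D.q_s φ hφ hN
  | succ n ih =>
    intro X N hG hpd F0 W0 W' D φ hφ hN
    obtain ⟨K, P, NK, NP, S, hP, hK⟩ := hpd
    -- lift `φ ∘ π`
    obtain ⟨Φ, hΦ, hΦN, hqΦ⟩ := hP F0 W0 D.q D.q_hom D.s D.q_s (φ.comp S.π)
      (fun a p => by
        simp only [ContinuousLinearMap.comp_apply]
        rw [S.π_hom, hφ])
      (fun p hp => hN _ (S.π_N _ hp))
    -- restrict to `K`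
    obtain ⟨g, hg⟩ := D.fac K (Φ.comp S.i) (fun k => by
      simp only [ContinuousLinearMap.comp_apply]
      rw [hqΦ, ContinuousLinearMap.comp_apply, S.π_i, map_zero])
    have hg' : ∀ k, D.ι (g k) = Φ (S.i k) := hg
    have hgh : IsHom g := by
      intro a k
      have h1 : D.ι (g (K.act a k) - W'.X.act a (g k)) = 0 := by
        rw [map_sub, D.ι_hom, hg', hg', S.i_hom, hΦ, sub_self]
      exact sub_eq_zero.1 (D.ι_inj _ h1)
    have hgN : ∀ k ∈ NK, g k = 0 := by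
      intro k hk
      apply D.ι_inj
      rw [hg']
      exact hΦN _ (S.i_N _ hk)
    -- the induction hypothesis
    obtain ⟨Ψ, hΨ, hΨN, hqΨ⟩ := ih K NK
      (fun U C hC hU => E1_syzygy S hP U (hG (Sig U) C hC (hU.sig hC))) hK
      W'.F W'.X W'.next W'.kd g hgh hgN
    have hqΨ' : ∀ k, W'.aug (Ψ k) = g k := hqΨ
    -- extend to `P`
    obtain ⟨Θ, hΘ, hΘN, hΘi⟩ := ext_lemma S (hG W'.F W'.C W'.C_nonneg W'.F_lim) Ψ hΨ hΨN
    -- subtract and descend
    have hvan : ∀ k, Φ (S.i k) - D.ι (W'.aug (Θ (S.i k))) = 0 := by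
      intro k
      rw [hΘi, hqΨ', hg', sub_self]
    let Ω : P →L[ℂ] F0 := Φ - (D.ι).comp (W'.aug.comp Θ)
    have hΩ : ∀ p, Ω p = Φ p - D.ι (W'.aug (Θ p)) := fun p => rfl
    have hΩh : IsHom Ω := by
      intro a p
      rw [hΩ, hΩ, hΦ, hΘ, W'.aug_hom, D.ι_hom, map_sub]
    have hΩd : ∀ p, Ω p = Ω (S.σ (S.π p)) := by
      intro p
      conv_lhs => rw [← S.i_κ p, map_add, hΩ (S.i _), hvan, zero_add]
    refine ⟨Ω.comp S.σ, ?_, ?_, ?_⟩
    · intro a x
      simp only [ContinuousLinearMap.comp_apply]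
      rw [← hΩh, hΩd (P.act a (S.σ x)), S.π_hom, S.π_σ]
    · intro x hx
      simp only [ContinuousLinearMap.comp_apply]
      rw [hΩ, hΦN _ (S.σ_N _ hx), hΘN _ (S.σ_N _ hx), map_zero, map_zero, sub_zero]
    · intro x
      simp only [ContinuousLinearMap.comp_apply]
      rw [hΩ, map_sub, D.q_ι, sub_zero, hqΦ, ContinuousLinearMap.comp_apply, S.π_σ]

end Pool.Agent.MPb3f6df
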