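import Mathlib

/-!
# The Volterra algebra `L¹[0,1]` with the truncated convolution
-/

namespace Pool.Agent.MPb3f6df

open MeasureTheory Set Filter
open scoped Convolution

/-- Lebesgue measure on `[0,1]`. -/
noncomputable abbrev muI : Measure ℝ := volume.restrict (Icc (0 : ℝ) 1)

/-- The truncated convolution `(f * g)(t) = ∫₀ᵗ f(t - s) g(s) ds`. -/
noncomputable def tconv (f g : ℝ → ℂ) (t : ℝ) : ℂ := ∫ s in (0 : ℝ)..t, f (t - s) * g s

/-- extension by zero -/
noncomputable def ext0 (f : ℝ → ℂ) : ℝ → ℂ := indicator (Icc (0 : ℝ) 1) f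

/-- convolution on the line -/
noncomputable abbrev cv (F G : ℝ → ℂ) : ℝ → ℂ := F ⋆[ContinuousLinearMap.mul ℂ ℂ, volume] G

theorem cv_apply (F G : ℝ → ℂ) (t : ℝ) : cv F G t = ∫ s, F (t - s) * G s := convolution_mul_swap

theorem ext0_of_mem {f : ℝ → ℂ} {x : ℝ} (hx : x ∈ Icc (0 : ℝ) 1) : ext0 f x = f x :=
  indicator_of_mem hx f

theorem ext0_of_notMem {f : ℝ → ℂ} {x : ℝ} (hx : x ∉ Icc (0 : ℝ) 1) : ext0 f x = 0 :=
  indicator_of_notMem hx f

theorem tconv_eq (f g : ℝ → ℂ) {t : ℝ} (ht : t ∈ Icc (0 : ℝ) 1) :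
    tconv f g t = cv (ext0 f) (ext0 g) t := by
  rw [cv_apply, tconv, intervalIntegral.integral_of_le ht.1, ← integral_Icc_eq_integral_Ioc,
    ← integral_indicator measurableSet_Icc]
  congr 1
  funext s
  by_cases hs : s ∈ Icc 0 t
  · rw [indicator_of_mem hs, ext0_of_mem, ext0_of_mem]
    · exact ⟨hs.1, hs.2.trans ht.2⟩
    · exact ⟨by linarith [hs.2], by linarith [hs.1, ht.2]⟩
  · rw [indicator_of_notMem hs]
    by_cases h0 : 0 ≤ s
    · have h1 : t < s := by
        by_contra h
        exact hs ⟨h0, not_lt.1 h⟩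
      rw [ext0_of_notMem (f := f), zero_mul]
      intro h2
      linarith [h2.1]
    · rw [ext0_of_notMem (f := g), mul_zero]
      intro h2
      exact h0 h2.1

theorem ext0_integrable {f : ℝ → ℂ} (hf : Integrable f muI) : Integrable (ext0 f) := by
  rw [ext0, integrable_indicator_iff measurableSet_Icc]
  exact hf

theorem cv_integrable {F G : ℝ → ℂ} (hF : Integrable F) (hG : Integrable G) :
    Integrable (cv F G) :=
  hF.integrable_convolution _ hG

theorem tconv_ae (f g : ℝ → ℂ) : tconv f g =ᵐ[muI] cv (ext0 f) (ext0 g) := by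
  filter_upwards [ae_restrict_mem measurableSet_Icc] with t ht
  exact tconv_eq f g ht

theorem tconv_integrable {f g : ℝ → ℂ} (hf : Integrable f muI) (hg : Integrable g muI) :
    Integrable (tconv f g) muI :=
  ((cv_integrable (ext0_integrable hf) (ext0_integrable hg)).restrict).congr (tconv_ae f g).symm

theorem ext0_congr {f g : ℝ → ℂ} (h : f =ᵐ[muI] g) : ext0 f =ᵐ[volume] ext0 g := by
  rw [Filter.EventuallyEq, ae_restrict_iff' measurableSet_Icc] at h
  filter_upwards [h] with t ht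
  by_cases hI : t ∈ Icc (0 : ℝ) 1
  · rw [ext0_of_mem hI, ext0_of_mem hI]
    exact ht hI
  · rw [ext0_of_notMem hI, ext0_of_notMem hI]

theorem cv_congr {F G F' G' : ℝ → ℂ} (hF : F =ᵐ[volume] F') (hG : G =ᵐ[volume] G') :
    cv F G = cv F' G' := convolution_congr _ hF hG

theorem tconv_congr {f g f' g' : ℝ → ℂ} (hf : f =ᵐ[muI] f') (hg : g =ᵐ[muI] g') :
    tconv f g =ᵐ[muI] tconv f' g' := by
  refine (tconv_ae f g).trans (EventuallyEq.trans ?_ (tconv_ae f' g').symm)
  rw [cv_congr (ext0_congr hf) (ext0_congr hg)]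

theorem cv_zero_of_neg (f g : ℝ → ℂ) {t : ℝ} (ht : t < 0) : cv (ext0 f) (ext0 g) t = 0 := by
  rw [cv_apply]
  have : (fun s => ext0 f (t - s) * ext0 g s) = fun _ => (0 : ℂ) := by
    funext s
    by_cases h0 : 0 ≤ s
    · rw [ext0_of_notMem (f := f), zero_mul]
      intro h
      linarith [h.1]
    · rw [ext0_of_notMem (f := g), mul_zero]
      intro h
      exact h0 h.1
  rw [this, integral_zero]

/-- truncating the left factor does not matter -/
theorem cv_trunc_left (f g h : ℝ → ℂ) {t : ℝ} (ht : t ∈ Icc (0 : ℝ) 1) :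
    cv (ext0 (cv (ext0 f) (ext0 g))) (ext0 h) t = cv (cv (ext0 f) (ext0 g)) (ext0 h) t := by
  rw [cv_apply, cv_apply]
  congr 1
  funext s
  by_cases hs : t - s ∈ Icc (0 : ℝ) 1
  · rw [ext0_of_mem hs]
  · rw [ext0_of_notMem hs, zero_mul]
    by_cases h0 : 0 ≤ s
    · have h1 : t - s < 0 := by
        by_contra h2
        exact hs ⟨not_lt.1 h2, by linarith [ht.2]⟩
      rw [cv_zero_of_neg f g h1, zero_mul]
    · rw [ext0_of_notMem (f := h), mul_zero]
      intro h2
      exact h0 h2.1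

/-- truncating the right factor does not matter -/
theorem cv_trunc_right (f g h : ℝ → ℂ) {t : ℝ} (ht : t ∈ Icc (0 : ℝ) 1) :
    cv (ext0 f) (ext0 (cv (ext0 g) (ext0 h))) t = cv (ext0 f) (cv (ext0 g) (ext0 h)) t := by
  rw [cv_apply, cv_apply]
  congr 1
  funext s
  by_cases hs : s ∈ Icc (0 : ℝ) 1
  · rw [ext0_of_mem hs]
  · rw [ext0_of_notMem hs, mul_zero]
    by_cases h0 : 0 ≤ s
    · have h1 : 1 < s := by
        by_contra h2
        exact hs ⟨h0, not_lt.1 h2⟩
      rw [ext0_of_notMem (f := f), zero_mul]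
      intro h2
      linarith [h2.1, ht.2]
    · rw [cv_zero_of_neg g h (not_le.1 h0), mul_zero]

theorem cv_assoc {F G H : ℝ → ℂ} (hF : Integrable F) (hG : Integrable G) (hH : Integrable H) :
    cv (cv F G) H =ᵐ[volume] cv F (cv G H) := by
  have h1 := hF.ae_convolution_exists (ContinuousLinearMap.mul ℂ ℂ) hG
  have h2 := hG.norm.ae_convolution_exists (ContinuousLinearMap.mul ℝ ℝ) hH.norm
  have h3 := hF.norm.ae_convolution_exists (ContinuousLinearMap.mul ℝ ℝ)
    (hG.norm.integrable_convolution (ContinuousLinearMap.mul ℝ ℝ) hH.norm)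
  filter_upwards [h3] with t ht
  exact convolution_assoc _ _ _ _ (fun x y z => mul_assoc x y z) hF.1 hG.1 hH.1 h1 h2 ht

theorem tconv_assoc {f g h : ℝ → ℂ} (hf : Integrable f muI) (hg : Integrable g muI)
    (hh : Integrable h muI) : tconv (tconv f g) h =ᵐ[muI] tconv f (tconv g h) := by
  have hF := ext0_integrable hf
  have hG := ext0_integrable hg
  have hH := ext0_integrable hh
  have h1 : tconv (tconv f g) h =ᵐ[muI] cv (cv (ext0 f) (ext0 g)) (ext0 h) := by
    refine (tconv_congr (tconv_ae f g) (EventuallyEq.refl _ h)).trans ?_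
    refine (tconv_ae _ _).trans ?_
    filter_upwards [ae_restrict_mem measurableSet_Icc] with t ht
    exact cv_trunc_left f g h ht
  have h2 : tconv f (tconv g h) =ᵐ[muI] cv (ext0 f) (cv (ext0 g) (ext0 h)) := by
    refine (tconv_congr (EventuallyEq.refl _ f) (tconv_ae g h)).trans ?_
    refine (tconv_ae _ _).trans ?_
    filter_upwards [ae_restrict_mem measurableSet_Icc] with t ht
    exact cv_trunc_right f g h ht
  exact h1.trans (EventuallyEq.trans (ae_restrict_of_ae (cv_assoc hF hG hH)) h2.symm)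

theorem tconv_add {f g h : ℝ → ℂ} (hf : Integrable f muI) (hg : Integrable g muI)
    (hh : Integrable h muI) : tconv f (g + h) =ᵐ[muI] tconv f g + tconv f h := by
  have hF := ext0_integrable hf
  have hG := ext0_integrable hg
  have hH := ext0_integrable hh
  have h0 : ext0 (g + h) = ext0 g + ext0 h := indicator_add' _ g h
  refine (tconv_ae _ _).trans (EventuallyEq.trans ?_ ((tconv_ae f g).symm.add (tconv_ae f h).symm))
  rw [h0]
  have h1 := hF.ae_convolution_exists (ContinuousLinearMap.mul ℂ ℂ) hG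
  have h2 := hF.ae_convolution_exists (ContinuousLinearMap.mul ℂ ℂ) hH
  filter_upwards [ae_restrict_of_ae h1, ae_restrict_of_ae h2] with t ht1 ht2
  exact ht1.distrib_add ht2

theorem add_tconv {f g h : ℝ → ℂ} (hf : Integrable f muI) (hg : Integrable g muI)
    (hh : Integrable h muI) : tconv (f + g) h =ᵐ[muI] tconv f h + tconv g h := by
  have hF := ext0_integrable hf
  have hG := ext0_integrable hg
  have hH := ext0_integrable hh
  have h0 : ext0 (f + g) = ext0 f + ext0 g := indicator_add' _ f g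
  refine (tconv_ae _ _).trans (EventuallyEq.trans ?_ ((tconv_ae f h).symm.add (tconv_ae g h).symm))
  rw [h0]
  have h1 := hF.ae_convolution_exists (ContinuousLinearMap.mul ℂ ℂ) hH
  have h2 := hG.ae_convolution_exists (ContinuousLinearMap.mul ℂ ℂ) hH
  filter_upwards [ae_restrict_of_ae h1, ae_restrict_of_ae h2] with t ht1 ht2
  exact ht1.add_distrib ht2

theorem tconv_smul_left (c : ℂ) (f g : ℝ → ℂ) (t : ℝ) :
    tconv (c • f) g t = c * tconv f g t := by
  rw [tconv, tconv, ← intervalIntegral.integral_const_mul]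
  congr 1
  funext s
  simp [mul_assoc]

theorem tconv_smul_right (c : ℂ) (f g : ℝ → ℂ) (t : ℝ) :
    tconv f (c • g) t = c * tconv f g t := by
  rw [tconv, tconv, ← intervalIntegral.integral_const_mul]
  congr 1
  funext s
  simp only [Pi.smul_apply, smul_eq_mul]
  ring

theorem tconv_norm_le {f g : ℝ → ℂ} (hf : Integrable f muI) (hg : Integrable g muI) :
    ∫ t, ‖tconv f g t‖ ∂muI ≤ (∫ t, ‖f t‖ ∂muI) * ∫ t, ‖g t‖ ∂muI := by
  have hF := ext0_integrable hf
  have hG := ext0_integrable hg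
  have h1 : ∫ t, ‖tconv f g t‖ ∂muI = ∫ t, ‖cv (ext0 f) (ext0 g) t‖ ∂muI :=
    integral_congr_ae ((tconv_ae f g).fun_comp norm)
  have h2 : ∫ t, ‖cv (ext0 f) (ext0 g) t‖ ∂muI ≤ ∫ t, ‖cv (ext0 f) (ext0 g) t‖ :=
    setIntegral_le_integral (cv_integrable hF hG).norm
      (Eventually.of_forall fun t => norm_nonneg _)
  have h3 : ∫ t, ‖cv (ext0 f) (ext0 g) t‖ ≤
      ∫ t, ((fun x => ‖ext0 f x‖) ⋆[ContinuousLinearMap.mul ℝ ℝ, volume]
        (fun x => ‖ext0 g x‖)) t := by
    refine integral_mono (cv_integrable hF hG).norm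
      (hF.norm.integrable_convolution (ContinuousLinearMap.mul ℝ ℝ) hG.norm) (fun t => ?_)
    refine (norm_integral_le_integral_norm _).trans (le_of_eq ?_)
    refine integral_congr_ae (Eventually.of_forall fun s => ?_)
    simp
  rw [integral_convolution _ hF.norm hG.norm] at h3
  have h4 : ∀ k : ℝ → ℂ, ∫ t, ‖ext0 k t‖ = ∫ t, ‖k t‖ ∂muI := by
    intro k
    rw [← integral_indicator measurableSet_Icc]
    congr 1
    funext t
    exact norm_indicator_eq_indicator_norm k t
  rw [h4, h4] at h3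
  rw [h1]
  exact h2.trans h3

end Pool.Agent.MPb3f6df
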