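import Pool.Agent.Lib.MP_b3f6df_an.ConvBi
import Pool.Agent.Lib.MP_b3f6df_an.Dims

/-!
# Transfer of the non-finiteness theorem to the definitions of `Dims`
-/

set_option maxSynthPendingDepth 3

namespace Pool.Agent.BanachHom

open Pool.Agent.MPb3f6df

variable {A : Type} [NonUnitalNormedRing A] [NormedSpace ℂ A]

/-! ## Left modules -/

namespace LeftModule

/-- the bundled form of a left module -/
noncomputable abbrev toMod (X : LeftModule A) : LeftMod A where
  carrier := X.carrier
  act := X.bounded_bilinear.toContinuousLinearMap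
  act_mul := X.mul_act

/-- the unbundled form of a left module -/
noncomputable abbrev ofMod (X : LeftMod A) : LeftModule A where
  carrier := X.carrier
  act := fun a x => X.act a x
  bounded_bilinear := X.act.isBoundedBilinearMap
  mul_act := X.act_mul

theorem toMod_act (X : LeftModule A) (a : A) (x : X) : X.toMod.act a x = X.act a x := rfl

/-- morphisms as bounded linear maps -/
noncomputable def IsHom.clm {X Y : LeftModule A} {f : X → Y} (hf : IsHom f) : X →L[ℂ] Y :=
  hf.1.toContinuousLinearMap

theorem IsHom.clm_apply {X Y : LeftModule A} {f : X → Y} (hf : IsHom f) (x : X) :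
    hf.clm x = f x := rfl

theorem IsHom.clm_hom {X Y : LeftModule A} {f : X → Y} (hf : IsHom f) :
    LeftMod.IsHom (X := X.toMod) (Y := Y.toMod) hf.clm := hf.2

theorem Projective.toMod {P : LeftModule A} (hP : P.Projective) : P.toMod.Projective := by
  rintro Y f hf ⟨g, hg⟩
  obtain ⟨h, hh, hfh⟩ := hP (ofMod Y) f ⟨f.isBoundedLinearMap, hf⟩
    ⟨g, g.isBoundedLinearMap, hg⟩
  exact ⟨hh.1.toContinuousLinearMap, hh.2, hfh⟩

theorem HasProjRes.toMod {X : LeftModule A} {n : ℕ} (h : X.HasProjRes n) :
    X.toMod.HasProjRes n := by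
  obtain ⟨R, hP, hn⟩ := h
  obtain ⟨t, s, ht, hs, h1, h2, h3⟩ := R.split
  exact ⟨{ P := fun k => (R.P k).toMod
           aug := R.aug_hom.clm
           d := fun k => (R.d_hom k).clm
           aug_hom := R.aug_hom.clm_hom
           d_hom := fun k => (R.d_hom k).clm_hom
           aug_d := R.aug_d
           d_d := R.d_d
           split := ⟨ht.toContinuousLinearMap, fun k => (hs k).toContinuousLinearMap,
             h1, h2, h3⟩ }, fun k => (hP k).toMod, hn⟩

variable (A) in
/-- the one-dimensional module on which `A` acts by zero -/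
noncomputable def zeroAct : LeftModule A where
  carrier := ℂ
  act := fun _ _ => 0
  bounded_bilinear := (0 : A →L[ℂ] ℂ →L[ℂ] ℂ).isBoundedBilinearMap
  mul_act := fun _ _ _ => rfl

theorem zeroAct_irreducible : (zeroAct A).Irreducible := by
  refine ⟨(inferInstance : Nontrivial ℂ), ?_⟩
  intro S _
  let S' : Submodule ℂ ℂ := S
  have h : S' = ⊥ ∨ S' = ⊤ := eq_bot_or_eq_top S'
  exact h

end LeftModule

/-! ## Bimodules -/

namespace Bimodule

/-- the bundled form of a bimodule -/
noncomputable abbrev toMod (X : Bimodule A) : BiMod A where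
  carrier := X.carrier
  lact := X.left_bounded_bilinear.toContinuousLinearMap
  ract := X.right_bounded_bilinear.toContinuousLinearMap
  lact_mul := X.mul_lact
  ract_mul := X.mul_ract
  lact_ract := X.lact_ract

/-- the unbundled form of a bimodule -/
noncomputable abbrev ofMod (X : BiMod A) : Bimodule A where
  carrier := X.carrier
  lact := fun a x => X.lact a x
  ract := fun a x => X.ract a x
  left_bounded_bilinear := X.lact.isBoundedBilinearMap
  right_bounded_bilinear := X.ract.isBoundedBilinearMap
  mul_lact := X.lact_mul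
  mul_ract := X.ract_mul
  lact_ract := X.lact_ract

/-- morphisms as bounded linear maps -/
noncomputable def IsHom.clm {X Y : Bimodule A} {f : X → Y} (hf : IsHom f) : X →L[ℂ] Y :=
  hf.1.toContinuousLinearMap

theorem IsHom.clm_hom {X Y : Bimodule A} {f : X → Y} (hf : IsHom f) :
    BiMod.IsHom (X := X.toMod) (Y := Y.toMod) hf.clm := hf.2

theorem Projective.toMod {P : Bimodule A} (hP : P.Projective) : P.toMod.Projective := by
  rintro Y f hf ⟨g, hg⟩
  obtain ⟨h, hh, hfh⟩ := hP (ofMod Y) f ⟨f.isBoundedLinearMap, hf⟩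
    ⟨g, g.isBoundedLinearMap, hg⟩
  exact ⟨hh.1.toContinuousLinearMap, hh.2, hfh⟩

theorem HasProjRes.toMod {X : Bimodule A} {n : ℕ} (h : X.HasProjRes n) :
    X.toMod.HasProjRes n := by
  obtain ⟨R, hP, hn⟩ := h
  obtain ⟨t, s, ht, hs, h1, h2, h3⟩ := R.split
  exact ⟨{ P := fun k => (R.P k).toMod
           aug := R.aug_hom.clm
           d := fun k => (R.d_hom k).clm
           aug_hom := R.aug_hom.clm_hom
           d_hom := fun k => (R.d_hom k).clm_hom
           aug_d := R.aug_d
           d_d := R.d_d
           split := ⟨ht.toContinuousLinearMap, fun k => (hs k).toContinuousLinearMap,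
             h1, h2, h3⟩ }, fun k => (hP k).toMod, hn⟩

end Bimodule

/-! ## The dimensions are infinite -/

variable [IsScalarTower ℂ A A] [SMulCommClass ℂ A A]

theorem zeroAct_not_finPD (D : AlgData A) (n : ℕ) :
    ¬ FinPD n (LeftModule.zeroAct A).toMod ⊥ :=
  not_finPD D (LeftModule.zeroAct A).toMod ⊥ (1 : ℂ) (ContinuousLinearMap.id ℂ ℂ) rfl
    (fun a x => rfl)
    (fun x hx => by
      rw [Submodule.mem_bot] at hx
      rw [hx]
      rfl)
    (fun x => by
      rw [Submodule.mem_bot]
      have h : ∀ z : ℂ, z - z • (1 : ℂ) = 0 := fun z => by simp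
      exact h x)
    (fun a => by
      rw [Submodule.mem_bot]
      rfl) n

theorem zeroAct_dh (D : AlgData A) : (LeftModule.zeroAct A).dh = ⊤ := by
  unfold LeftModule.dh
  rw [iInf₂_eq_top]
  intro n hn
  exact absurd (LeftMod.HasProjRes.finPD n _ hn.toMod) (zeroAct_not_finPD D n)

theorem ds_eq_top (D : AlgData A) : ds A = ⊤ := by
  apply top_le_iff.1
  rw [← zeroAct_dh D]
  exact le_iSup₂_of_le (LeftModule.zeroAct A) LeftModule.zeroAct_irreducible le_rfl

theorem dg_eq_top (D : AlgData A) : dg A = ⊤ := by
  apply top_le_iff.1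
  rw [← zeroAct_dh D]
  exact le_iSup (fun X : LeftModule A => X.dh) (LeftModule.zeroAct A)

section Bi

variable [CompleteSpace A]

/-- the unitization, bundled form -/
noncomputable abbrev PB (A : Type) [NonUnitalNormedRing A] [NormedSpace ℂ A]
    [IsScalarTower ℂ A A] [SMulCommClass ℂ A A] [CompleteSpace A] : BiMod A :=
  (plusBimodule A).toMod

/-- the scalar part -/
noncomputable def chi' (A : Type) [NonUnitalNormedRing A] [NormedSpace ℂ A]
    [IsScalarTower ℂ A A] [SMulCommClass ℂ A A] [CompleteSpace A] : PB A →L[ℂ] ℂ :=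
  LinearMap.mkContinuous
    { toFun := fun x => (show WithLp 1 (ℂ × A) from x).fst
      map_add' := fun x y => rfl
      map_smul' := fun c x => rfl } 1 (fun x => by
      rw [one_mul]
      refine le_trans ?_ (le_of_eq (WithLp.prod_norm_eq_of_L1 _).symm)
      exact le_add_of_nonneg_right (norm_nonneg _))

/-- the algebra part -/
noncomputable def spart' (A : Type) [NonUnitalNormedRing A] [NormedSpace ℂ A]
    [IsScalarTower ℂ A A] [SMulCommClass ℂ A A] [CompleteSpace A] : PB A →L[ℂ] A :=
  LinearMap.mkContinuous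
    { toFun := fun x => (show WithLp 1 (ℂ × A) from x).snd
      map_add' := fun x y => rfl
      map_smul' := fun c x => rfl } 1 (fun x => by
      rw [one_mul]
      refine le_trans ?_ (le_of_eq (WithLp.prod_norm_eq_of_L1 _).symm)
      exact le_add_of_nonneg_left (norm_nonneg _))

theorem pb_ext {x y : PB A} (h1 : chi' A x = chi' A y) (h2 : spart' A x = spart' A y) :
    x = y := by
  apply WithLp.ofLp_injective
  exact Prod.ext h1 h2

/-- the unit -/
noncomputable def pone (A : Type) [NonUnitalNormedRing A] [NormedSpace ℂ A]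
    [IsScalarTower ℂ A A] [SMulCommClass ℂ A A] [CompleteSpace A] : PB A :=
  (WithLp.toLp 1 ((1 : ℂ), (0 : A)) : WithLp 1 (ℂ × A))

theorem chi'_one : chi' A (pone A) = 1 := rfl

theorem spart'_one : spart' A (pone A) = 0 := rfl

theorem chi'_ract (a : A) (x : PB A) : chi' A ((PB A).ract a x) = 0 := rfl

theorem chi'_lact (a : A) (x : PB A) : chi' A ((PB A).lact a x) = 0 := rfl

theorem spart'_ract (a : A) (x : PB A) :
    spart' A ((PB A).ract a x) = chi' A x • a + spart' A x * a := rfl

theorem spart'_lact (a : A) (x : PB A) :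
    spart' A ((PB A).lact a x) = chi' A x • a + a * spart' A x := rfl

theorem ract_one (a : A) : (PB A).ract a (pone A) = (PB A).lact a (pone A) := by
  apply pb_ext
  · rw [chi'_ract, chi'_lact]
  · rw [spart'_ract, spart'_lact, spart'_one, zero_mul, mul_zero]

theorem pb_decomp (x : PB A) : x = chi' A x • pone A + (PB A).ract (spart' A x) (pone A) := by
  apply pb_ext
  · rw [map_add, map_smul, chi'_one, chi'_ract]
    simp
  · rw [map_add, map_smul, spart'_one, spart'_ract, spart'_one, chi'_one]
    simp

theorem pb_rp : BiMod.RP (PB A) := by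
  intro Z Y g hg s hs f hf
  set z : Z := s (f (pone A)) with hz
  let h : PB A →L[ℂ] Z := (chi' A).smulRight z + (Z.ract.flip z).comp (spart' A)
  have hh : ∀ x, h x = chi' A x • z + Z.ract (spart' A x) z := fun x => rfl
  refine ⟨h, fun b x => ?_, fun x => ?_⟩
  · rw [hh, hh, chi'_ract, spart'_ract]
    simp only [zero_smul, zero_add, map_add, map_smul, add_apply, smul_apply, Z.ract_mul]
  · rw [hh, map_add, map_smul, hg, hz, hs, ← hf, ← map_smul, ← map_add]
    congr 1
    exact (pb_decomp x).symm

theorem pb_not_finPD (D : AlgData A) (n : ℕ) :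
    ¬ FinPD n (PB A).left (PB A).NA := by
  refine not_finPD D (PB A).left (PB A).NA (pone A) (chi' A) chi'_one chi'_lact ?_ ?_ ?_ n
  · intro x hx
    exact BiMod.NA_vanish (X := PB A) (chi' A) chi'_ract hx
  · intro x
    have h2 : x - chi' A x • pone A = (PB A).ract (spart' A x) (pone A) := by
      rw [sub_eq_iff_eq_add, add_comm]
      exact pb_decomp x
    rw [h2]
    exact BiMod.ract_mem_NA _ _ _
  · intro a
    show (PB A).lact a (pone A) ∈ (PB A).NA
    rw [← ract_one]
    exact BiMod.ract_mem_NA _ _ _

theorem db_eq_top (D : AlgData A) : db A = ⊤ := by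
  unfold db Bimodule.dh
  rw [iInf₂_eq_top]
  intro n hn
  exact absurd (BiMod.HasProjRes.finPD n _ pb_rp hn.toMod) (pb_not_finPD D n)

end Bi

end Pool.Agent.BanachHom
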