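import Pool.Agent.Lib.MP_b3f6df_an.Transfer
import Pool.Agent.Lib.MP_b3f6df_an.Alg

/-!
# The Volterra algebra satisfies the hypotheses of the abstract theorem
-/

set_option maxSynthPendingDepth 3

namespace Pool.Agent.MPb3f6df

open MeasureTheory Set Filter Topology

namespace Volterra

/-- the cut points `1/(n+1)` -/
noncomputable def cut (n : ℕ) : ℝ := 1 / ((n : ℝ) + 1)

theorem cut_pos (n : ℕ) : 0 < cut n := by
  unfold cut
  positivity

theorem cut_le_one (n : ℕ) : cut n ≤ 1 := by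
  unfold cut
  rw [div_le_one (by positivity)]
  have : (0 : ℝ) ≤ n := Nat.cast_nonneg n
  linarith

theorem cut_anti : Antitone cut := by
  intro m n h
  unfold cut
  have h1 : (m : ℝ) ≤ n := Nat.cast_le.2 h
  have h2 : (0 : ℝ) ≤ m := Nat.cast_nonneg m
  exact one_div_le_one_div_of_le (by linarith) (by linarith)

theorem cut_strictAnti : StrictAnti cut := by
  intro m n h
  unfold cut
  have h1 : (m : ℝ) < n := Nat.cast_lt.2 h
  have h2 : (0 : ℝ) ≤ m := Nat.cast_nonneg m
  exact one_div_lt_one_div_of_lt (by linarith) (by linarith)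

theorem cut_tendsto : Tendsto cut atTop (𝓝 0) := tendsto_one_div_add_atTop_nhds_zero_nat

theorem cut_mul (n : ℕ) : cut n * ((n : ℝ) + 1) = 1 := by
  unfold cut
  have : (n : ℝ) + 1 ≠ 0 := by positivity
  field_simp

/-- cutting off -/
noncomputable def cutf (n : ℕ) (f : ℝ → ℂ) : ℝ → ℂ := indicator (Ici (cut n)) f

theorem cutf_integrable (n : ℕ) {f : ℝ → ℂ} (hf : Integrable f muI) :
    Integrable (cutf n f) muI := hf.indicator measurableSet_Ici

theorem cutf_congr (n : ℕ) {f g : ℝ → ℂ} (h : f =ᵐ[muI] g) : cutf n f =ᵐ[muI] cutf n g := by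
  filter_upwards [h] with t ht
  unfold cutf
  by_cases h0 : t ∈ Ici (cut n)
  · rw [indicator_of_mem h0, indicator_of_mem h0, ht]
  · rw [indicator_of_notMem h0, indicator_of_notMem h0]

theorem cutf_norm_le (n : ℕ) (f : ℝ → ℂ) (t : ℝ) : ‖cutf n f t‖ ≤ ‖f t‖ :=
  norm_indicator_le_norm_self f t

/-- the projections -/
noncomputable def qq (n : ℕ) : Volterra →L[ℂ] Volterra :=
  LinearMap.mkContinuous
    { toFun := fun f => mk (cutf n f.fn) (cutf_integrable n f.integrable_fn)
      map_add' := fun f g => by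
        apply ext_fn
        refine (fn_mk _ _).trans ?_
        refine EventuallyEq.trans ?_ (fn_add _ _).symm
        refine EventuallyEq.trans ?_ ((fn_mk _ _).add (fn_mk _ _)).symm
        refine (cutf_congr n (fn_add f g)).trans ?_
        exact Eventually.of_forall fun t => congrFun (indicator_add' (Ici (cut n)) f.fn g.fn) t
      map_smul' := fun c f => by
        apply ext_fn
        refine (fn_mk _ _).trans ?_
        refine EventuallyEq.trans ?_ (fn_smul _ _).symm
        refine EventuallyEq.trans ?_ ((fn_mk _ _).const_smul c).symm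
        refine (cutf_congr n (fn_smul c f)).trans ?_
        refine Eventually.of_forall fun t => ?_
        exact congrFun (indicator_const_smul (Ici (cut n)) c f.fn) t } 1
    (fun f => by
      rw [one_mul, norm_eq, norm_eq]
      refine integral_mono_ae (integrable_fn _).norm f.integrable_fn.norm ?_
      filter_upwards [fn_mk (cutf n f.fn) (cutf_integrable n f.integrable_fn)] with t ht
      show ‖(mk (cutf n f.fn) (cutf_integrable n f.integrable_fn)).fn t‖ ≤ ‖f.fn t‖
      rw [ht]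
      exact cutf_norm_le n _ t)

theorem fn_qq (n : ℕ) (f : Volterra) : (qq n f).fn =ᵐ[muI] cutf n f.fn :=
  fn_mk _ (cutf_integrable n f.integrable_fn)

theorem qq_norm (n : ℕ) : ‖qq n‖ ≤ 1 := LinearMap.mkContinuous_norm_le _ zero_le_one _

theorem cutf_comp (m n : ℕ) (f : ℝ → ℂ) : cutf m (cutf n f) = cutf (min m n) f := by
  unfold cutf
  rw [indicator_indicator, Ici_inter_Ici]
  congr 1
  rcases le_total m n with h | h
  · rw [min_eq_left h, sup_eq_left.2 (cut_anti h)]
  · rw [min_eq_right h, sup_eq_right.2 (cut_anti h)]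

theorem qq_comp (m n : ℕ) (f : Volterra) : qq m (qq n f) = qq (min m n) f := by
  apply ext_fn
  refine (fn_qq _ _).trans ((cutf_congr m (fn_qq n f)).trans ?_)
  rw [cutf_comp]
  exact (fn_qq _ _).symm

theorem qq_ideal (n : ℕ) (f g : Volterra) : qq n (f * qq n g) = f * qq n g := by
  apply ext_fn
  have h1 : (f * qq n g).fn =ᵐ[muI] tconv f.fn (cutf n g.fn) :=
    (fn_mul _ _).trans (tconv_congr (EventuallyEq.refl _ _) (fn_qq n g))
  refine (fn_qq _ _).trans ((cutf_congr n h1).trans (EventuallyEq.trans ?_ h1.symm))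
  filter_upwards [ae_restrict_mem measurableSet_Icc] with t ht
  unfold cutf
  by_cases h0 : t ∈ Ici (cut n)
  · rw [indicator_of_mem h0]
  · rw [indicator_of_notMem h0]
    unfold tconv
    rw [intervalIntegral.integral_of_le ht.1]
    symm
    refine setIntegral_eq_zero_of_forall_eq_zero (fun s hs => ?_)
    rw [indicator_of_notMem, mul_zero]
    intro h2
    exact h0 (le_trans (mem_Ici.1 h2) hs.2)

theorem norm_qq (n : ℕ) (f : Volterra) : ‖qq n f‖ = ∫ t, ‖cutf n f.fn t‖ ∂muI := by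
  rw [norm_eq]
  exact integral_congr_ae ((fn_qq n f).fun_comp norm)

theorem cutf_norm_int (n : ℕ) (f : Volterra) : Integrable (fun t => ‖cutf n f.fn t‖) muI :=
  (cutf_integrable n f.integrable_fn).norm

theorem norm_qq_sub (n : ℕ) (f : Volterra) :
    ‖qq (n + 1) f - qq n f‖ = ‖qq (n + 1) f‖ - ‖qq n f‖ := by
  rw [norm_qq, norm_qq, norm_eq, ← integral_sub (cutf_norm_int _ f) (cutf_norm_int _ f)]
  refine integral_congr_ae ?_
  filter_upwards [fn_sub (qq (n + 1) f) (qq n f), fn_qq (n + 1) f, fn_qq n f] with t h1 h2 h3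
  show ‖(qq (n + 1) f - qq n f).fn t‖ = ‖cutf (n + 1) f.fn t‖ - ‖cutf n f.fn t‖
  rw [h1, Pi.sub_apply, h2, h3]
  unfold cutf
  by_cases h4 : t ∈ Ici (cut n)
  · have h5 : t ∈ Ici (cut (n + 1)) := le_trans (cut_anti (Nat.le_succ n)) h4
    rw [indicator_of_mem h4, indicator_of_mem h5]
    simp
  · rw [indicator_of_notMem h4]
    simp

theorem qq_var (f : Volterra) (N : ℕ) :
    ∑ n ∈ Finset.range N, ‖qq (n + 1) f - qq n f‖ ≤ ‖f‖ := by
  simp only [norm_qq_sub]
  rw [Finset.sum_range_sub (fun n => ‖qq n f‖) N]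
  have h1 : ‖qq N f‖ ≤ 1 * ‖f‖ := (qq N).le_of_opNorm_le (qq_norm N) f
  have h2 : 0 ≤ ‖qq 0 f‖ := norm_nonneg _
  linarith

theorem ae_pos : ∀ᵐ t ∂muI, 0 < t := by
  filter_upwards [ae_restrict_mem measurableSet_Icc, ae_restrict_of_ae (Measure.ae_ne volume (0 : ℝ))]
    with t ht h0
  exact lt_of_le_of_ne ht.1 (Ne.symm h0)

theorem qq_tends (f : Volterra) : Tendsto (fun n => qq n f) atTop (𝓝 f) := by
  rw [tendsto_iff_norm_sub_tendsto_zero]
  have h1 : ∀ n, ‖qq n f - f‖ = ∫ t, ‖cutf n f.fn t - f.fn t‖ ∂muI := by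
    intro n
    rw [norm_eq]
    refine integral_congr_ae ?_
    filter_upwards [fn_sub (qq n f) f, fn_qq n f] with t h1 h2
    show ‖(qq n f - f).fn t‖ = ‖cutf n f.fn t - f.fn t‖
    rw [h1, Pi.sub_apply, h2]
  simp only [h1]
  have h2 : (0 : ℝ) = ∫ _ : ℝ, (0 : ℝ) ∂muI := by simp
  rw [h2]
  refine tendsto_integral_of_dominated_convergence (fun t => ‖f.fn t‖) (fun n => ?_)
    f.integrable_fn.norm (fun n => ?_) ?_
  · exact ((cutf_integrable n f.integrable_fn).sub f.integrable_fn).norm.1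
  · refine Eventually.of_forall fun t => ?_
    rw [norm_norm]
    unfold cutf
    by_cases h4 : t ∈ Ici (cut n)
    · rw [indicator_of_mem h4, sub_self, norm_zero]
      exact norm_nonneg _
    · rw [indicator_of_notMem h4, zero_sub, norm_neg]
  · filter_upwards [ae_pos] with t ht
    refine Tendsto.congr' ?_ tendsto_const_nhds
    filter_upwards [(cut_tendsto.eventually (eventually_lt_nhds ht))] with n hn
    unfold cutf
    rw [indicator_of_mem (show t ∈ Ici (cut n) from hn.le), sub_self, norm_zero]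

/-- the approximate identity as a function -/
noncomputable def efn (m : ℕ) : ℝ → ℂ := {x : ℝ | x ≤ cut m}.indicator (fun _ => (m : ℂ) + 1)

theorem efn_integrable (m : ℕ) : Integrable (efn m) muI :=
  (integrable_const _).indicator measurableSet_Iic

/-- the approximate identity -/
noncomputable def ee (m : ℕ) : Volterra := mk (efn m) (efn_integrable m)

theorem ee_norm (m : ℕ) : ‖ee m‖ = 1 := by
  rw [norm_eq]
  have h1 : ∫ t, ‖(ee m).fn t‖ ∂muI = ∫ t, ‖efn m t‖ ∂muI :=
    integral_congr_ae ((fn_mk _ _).fun_comp norm)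
  have h2 : ∀ t, ‖efn m t‖ = (Iic (cut m)).indicator (fun _ => (m : ℝ) + 1) t := by
    intro t
    unfold efn
    rw [norm_indicator_eq_indicator_norm]
    have : ‖(m : ℂ) + 1‖ = (m : ℝ) + 1 := by
      have h3 : (m : ℂ) + 1 = ((m + 1 : ℕ) : ℂ) := by push_cast; ring
      rw [h3, Complex.norm_natCast]
      push_cast
      ring
    rw [this]
    rfl
  rw [h1]
  simp only [h2]
  rw [integral_indicator_const _ measurableSet_Iic]
  have h3 : muI.real (Iic (cut m)) = cut m := by
    unfold muI Measure.real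
    rw [Measure.restrict_apply measurableSet_Iic]
    have : Iic (cut m) ∩ Icc 0 1 = Icc 0 (cut m) := by
      ext x
      constructor
      · rintro ⟨h4, h5, _⟩
        exact ⟨h5, h4⟩
      · rintro ⟨h4, h5⟩
        exact ⟨h5, h4, le_trans h5 (cut_le_one m)⟩
    rw [this, Real.volume_Icc, sub_zero, ENNReal.toReal_ofReal (cut_pos m).le]
  rw [h3, smul_eq_mul, cut_mul]

theorem ee_away (n : ℕ) : (1 : ℝ) ≤ ‖ee (n + 1) - qq n (ee (n + 1))‖ := by
  have h1 : qq n (ee (n + 1)) = 0 := by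
    apply ext_fn
    refine (fn_qq _ _).trans ((cutf_congr n (fn_mk _ _)).trans (EventuallyEq.trans ?_ fn_zero.symm))
    refine Eventually.of_forall fun t => ?_
    unfold cutf efn
    by_cases h4 : t ∈ Ici (cut n)
    · rw [indicator_of_mem h4, indicator_of_notMem]
      · rfl
      · intro h5
        have h6 : cut n ≤ t := h4
        have h7 : t ≤ cut (n + 1) := h5
        have h8 := cut_strictAnti (Nat.lt_succ_self n)
        exact absurd (lt_of_lt_of_le h8 (h6.trans h7)) (lt_irrefl _)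
    · rw [indicator_of_notMem h4]
      rfl
  rw [h1, sub_zero, ee_norm]

theorem tconv_efn (g : ℝ → ℂ) (m : ℕ) {t : ℝ} (ht : cut m ≤ t) :
    tconv g (efn m) t = ∫ s in (0 : ℝ)..(cut m), g (t - s) * ((m : ℂ) + 1) := by
  unfold tconv efn
  rw [← intervalIntegral.integral_indicator (a₃ := t) ⟨(cut_pos m).le, ht⟩]
  congr 1
  funext s
  by_cases hs : s ∈ {x : ℝ | x ≤ cut m}
  · rw [indicator_of_mem hs, indicator_of_mem hs]
  · rw [indicator_of_notMem hs, indicator_of_notMem hs, mul_zero]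

theorem tconv_efn_tendsto {g : ℝ → ℂ} (hg : Continuous g) {t : ℝ} (ht : 0 < t) :
    Tendsto (fun m => tconv g (efn m) t) atTop (𝓝 (g t)) := by
  rw [Metric.tendsto_atTop]
  intro ε hε
  have hc := Metric.continuous_iff.1 hg t (ε / 2) (by positivity)
  obtain ⟨δ, hδ, hδ2⟩ := hc
  obtain ⟨N, hN⟩ := (Metric.tendsto_atTop.1 cut_tendsto) (min δ t) (lt_min hδ ht)
  refine ⟨N, fun m hm => ?_⟩
  have hcm := hN m hm
  rw [Real.dist_eq, sub_zero, abs_of_pos (cut_pos m)] at hcm
  have hcmδ : cut m < δ := lt_of_lt_of_le hcm (min_le_left _ _)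
  have hcmt : cut m ≤ t := (lt_of_lt_of_le hcm (min_le_right _ _)).le
  rw [tconv_efn g m hcmt, dist_eq_norm]
  have h1 : g t = ∫ _ in (0 : ℝ)..(cut m), g t * ((m : ℂ) + 1) := by
    rw [intervalIntegral.integral_const, sub_zero, Complex.real_smul]
    have h2 : ((cut m : ℝ) : ℂ) * ((m : ℂ) + 1) = 1 := by
      have := cut_mul m
      exact_mod_cast congrArg (fun x : ℝ => (x : ℂ)) this
    calc g t = g t * 1 := (mul_one _).symm
      _ = g t * (((cut m : ℝ) : ℂ) * ((m : ℂ) + 1)) := by rw [h2]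
      _ = (cut m : ℂ) * (g t * ((m : ℂ) + 1)) := by ring
  conv_lhs => rw [h1]
  have hi1 : IntervalIntegrable (fun s => g (t - s) * ((m : ℂ) + 1)) volume 0 (cut m) :=
    Continuous.intervalIntegrable (by fun_prop) _ _
  have hi2 : IntervalIntegrable (fun _ : ℝ => g t * ((m : ℂ) + 1)) volume 0 (cut m) :=
    Continuous.intervalIntegrable (by fun_prop) _ _
  rw [← intervalIntegral.integral_sub hi1 hi2]
  have h3 : ‖∫ s in (0 : ℝ)..(cut m), (g (t - s) * ((m : ℂ) + 1) - g t * ((m : ℂ) + 1))‖ ≤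
      (ε / 2 * ((m : ℝ) + 1)) * |cut m - 0| := by
    refine intervalIntegral.norm_integral_le_of_norm_le_const (fun s hs => ?_)
    rw [uIoc_of_le (cut_pos m).le] at hs
    rw [← sub_mul, norm_mul]
    have h4 : ‖(m : ℂ) + 1‖ = (m : ℝ) + 1 := by
      have h3 : (m : ℂ) + 1 = ((m + 1 : ℕ) : ℂ) := by push_cast; ring
      rw [h3, Complex.norm_natCast]
      push_cast
      ring
    rw [h4]
    have h5 := hδ2 (t - s) (by
      rw [Real.dist_eq, sub_sub_cancel_left, abs_neg, abs_of_pos hs.1]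
      exact lt_of_le_of_lt hs.2 hcmδ)
    rw [dist_eq_norm] at h5
    gcongr
  refine lt_of_le_of_lt h3 ?_
  rw [sub_zero, abs_of_pos (cut_pos m), mul_assoc, mul_comm ((m : ℝ) + 1), cut_mul, mul_one]
  linarith

theorem tconv_efn_bound {g : ℝ → ℂ} {M : ℝ} (hM : ∀ t, ‖g t‖ ≤ M) (m : ℕ) {t : ℝ} (ht : 0 ≤ t) :
    ‖tconv g (efn m) t‖ ≤ M := by
  have hM0 : 0 ≤ M := (norm_nonneg _).trans (hM 0)
  have h4 : ‖(m : ℂ) + 1‖ = (m : ℝ) + 1 := by
    have h3 : (m : ℂ) + 1 = ((m + 1 : ℕ) : ℂ) := by push_cast; ring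
    rw [h3, Complex.norm_natCast]
    push_cast
    ring
  rcases le_total (cut m) t with h | h
  · rw [tconv_efn g m h]
    have h3 : ‖∫ s in (0 : ℝ)..(cut m), (g (t - s) * ((m : ℂ) + 1))‖ ≤
        (M * ((m : ℝ) + 1)) * |cut m - 0| := by
      refine intervalIntegral.norm_integral_le_of_norm_le_const (fun s _ => ?_)
      rw [norm_mul, h4]
      gcongr
      exact hM _
    refine h3.trans (le_of_eq ?_)
    rw [sub_zero, abs_of_pos (cut_pos m), mul_assoc, mul_comm ((m : ℝ) + 1), cut_mul, mul_one]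
  · unfold tconv
    have h3 : ‖∫ s in (0 : ℝ)..t, (g (t - s) * efn m s)‖ ≤
        (M * ((m : ℝ) + 1)) * |t - 0| := by
      refine intervalIntegral.norm_integral_le_of_norm_le_const (fun s _ => ?_)
      rw [norm_mul]
      gcongr
      · exact hM _
      · rw [← h4]
        exact norm_indicator_le_norm_self _ _
    refine h3.trans ?_
    rw [sub_zero, abs_of_nonneg ht]
    calc M * ((m : ℝ) + 1) * t ≤ M * ((m : ℝ) + 1) * cut m := by gcongr
      _ = M := by rw [mul_assoc, mul_comm ((m : ℝ) + 1), cut_mul, mul_one]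

theorem mk_mul_ee_tendsto (g : BoundedContinuousFunction ℝ ℂ) (hg : Integrable g muI) :
    Tendsto (fun m => ‖mk g hg * ee m - mk g hg‖) atTop (𝓝 0) := by
  have h1 : ∀ m, ‖mk g hg * ee m - mk g hg‖ = ∫ t, ‖tconv g (efn m) t - g t‖ ∂muI := by
    intro m
    rw [norm_eq]
    refine integral_congr_ae ?_
    have h2 : (mk g hg * ee m).fn =ᵐ[muI] tconv g (efn m) :=
      (fn_mul _ _).trans (tconv_congr (fn_mk _ _) (fn_mk _ _))
    filter_upwards [fn_sub (mk g hg * ee m) (mk g hg), h2, fn_mk g hg] with t h3 h4 h5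
    show ‖(mk g hg * ee m - mk g hg).fn t‖ = ‖tconv g (efn m) t - g t‖
    rw [h3, Pi.sub_apply, h4, h5]
  simp only [h1]
  have h2 : (0 : ℝ) = ∫ _ : ℝ, (0 : ℝ) ∂muI := by simp
  rw [h2]
  refine tendsto_integral_of_dominated_convergence (fun _ => ‖g‖ + ‖g‖) (fun n => ?_)
    (integrable_const _) (fun n => ?_) ?_
  · exact ((tconv_integrable hg (efn_integrable n)).sub hg).norm.1
  · filter_upwards [ae_pos] with t ht
    rw [norm_norm]
    exact (norm_sub_le _ _).trans (add_le_add (tconv_efn_bound g.norm_coe_le_norm n ht.le)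
      (g.norm_coe_le_norm t))
  · filter_upwards [ae_pos] with t ht
    have h3 := tconv_efn_tendsto g.continuous ht
    rw [tendsto_iff_norm_sub_tendsto_zero] at h3
    exact h3

theorem ee_unit (f : Volterra) : Tendsto (fun m => f * ee m) atTop (𝓝 f) := by
  rw [tendsto_iff_norm_sub_tendsto_zero, Metric.tendsto_atTop]
  intro ε hε
  obtain ⟨g, hg1, hg2⟩ := f.integrable_fn.exists_boundedContinuous_integral_sub_le
    (show 0 < ε / 4 by positivity)
  have h1 : ‖f - mk g hg2‖ ≤ ε / 4 := by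
    rw [norm_eq]
    refine le_trans (le_of_eq ?_) hg1
    refine integral_congr_ae ?_
    filter_upwards [fn_sub f (mk g hg2), fn_mk g hg2] with t h2 h3
    show ‖(f - mk g hg2).fn t‖ = _
    rw [h2, Pi.sub_apply, h3]
  obtain ⟨N, hN⟩ := (Metric.tendsto_atTop.1 (mk_mul_ee_tendsto g hg2)) (ε / 4) (by positivity)
  refine ⟨N, fun m hm => ?_⟩
  have h2 := hN m hm
  rw [Real.dist_eq, sub_zero, abs_of_nonneg (norm_nonneg _)] at h2 ⊢
  have h3 : f * ee m - f = (f - mk g hg2) * ee m + (mk g hg2 * ee m - mk g hg2) -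
      (f - mk g hg2) := by
    rw [sub_mul]
    abel
  rw [h3]
  calc ‖(f - mk g hg2) * ee m + (mk g hg2 * ee m - mk g hg2) - (f - mk g hg2)‖
      ≤ ‖(f - mk g hg2) * ee m + (mk g hg2 * ee m - mk g hg2)‖ + ‖f - mk g hg2‖ := norm_sub_le _ _
    _ ≤ ‖(f - mk g hg2) * ee m‖ + ‖mk g hg2 * ee m - mk g hg2‖ + ‖f - mk g hg2‖ := by
        gcongr
        exact norm_add_le _ _
    _ ≤ ‖f - mk g hg2‖ * ‖ee m‖ + ‖mk g hg2 * ee m - mk g hg2‖ + ‖f - mk g hg2‖ := by
        gcongr
        exact norm_mul_le _ _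
    _ < ε := by
        rw [ee_norm]
        linarith

/-- the data for the Volterra algebra -/
noncomputable def data : AlgData Volterra where
  e := ee
  e_bdd := ⟨1, fun m => (ee_norm m).le⟩
  e_unit := ee_unit
  q := qq
  q_comp := qq_comp
  q_ideal := qq_ideal
  q_norm := qq_norm
  q_var := qq_var
  q_tends := qq_tends
  c := 1
  c_pos := one_pos
  e_away := fun n => ⟨n + 1, ee_away n⟩

end Volterra

theorem volterra_dims : BanachHom.ds Volterra = ⊤ ∧ BanachHom.dg Volterra = ⊤ ∧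
    BanachHom.db Volterra = ⊤ :=
  ⟨BanachHom.ds_eq_top Volterra.data, BanachHom.dg_eq_top Volterra.data,
    BanachHom.db_eq_top Volterra.data⟩

end Pool.Agent.MPb3f6df
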